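import Pool.Agent.MP_ed46bc_co.SP.Spec

/-! # Row EX: cyclic sections of odd order or of order two -/

namespace Pool.Agent.MP_ed46bc_co.SP

universe u

lemma ex_card_comap {G : Type u} [AddCommGroup G] [Finite G] (H : AddSubgroup G)
    (L : AddSubgroup (G ⧸ H)) :
    Nat.card (L.comap (QuotientAddGroup.mk' H)) = Nat.card H * Nat.card L := by
  have h1 := (L.comap (QuotientAddGroup.mk' H)).card_mul_index
  rw [AddSubgroup.index_comap_of_surjective _ (QuotientAddGroup.mk'_surjective H),
    H.card_eq_card_quotient_mul_card_addSubgroup, ← L.card_mul_index] at h1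
  refine Nat.eq_of_mul_eq_mul_right (Nat.pos_of_ne_zero L.index_ne_zero_of_finite) ?_
  rw [h1]
  ring

lemma ex_dvd_quot {G : Type u} [AddCommGroup G] [Finite G] (H : AddSubgroup G) {a : ℕ}
    (h : Nat.card H * a ∣ Nat.card G) : a ∣ Nat.card (G ⧸ H) := by
  rw [H.card_eq_card_quotient_mul_card_addSubgroup, mul_comm _ (Nat.card H)] at h
  exact Nat.dvd_of_mul_dvd_mul_left Nat.card_pos h

lemma ex_sub (k : ℕ) : ∀ (G : Type u) [AddCommGroup G] [Finite G], k ∣ Nat.card G →
    ∃ H : AddSubgroup G, Nat.card H = k := by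
  induction k using induction_on_primes with
  | zero =>
    intro G _ _ h
    exact absurd (zero_dvd_iff.1 h) Nat.card_pos.ne'
  | one => exact fun G _ _ _ => ⟨⊥, AddSubgroup.card_bot⟩
  | prime_mul p a hp ih =>
    intro G _ _ h
    have := Fact.mk hp
    obtain ⟨x, hx⟩ := exists_prime_addOrderOf_dvd_card' (G := G) p ((Dvd.intro _ rfl).trans h)
    have hc : Nat.card (AddSubgroup.zmultiples x) = p := by rw [Nat.card_zmultiples, hx]
    obtain ⟨L, hL⟩ := ih (G ⧸ AddSubgroup.zmultiples x) (ex_dvd_quot _ (hc ▸ h))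
    exact ⟨_, by rw [ex_card_comap _ L, hc, hL]⟩

theorem ex_thm : EX.{u} := by
  rintro G _ _ _ ⟨g, e, hg⟩ k j hkj hj
  rw [← Nat.card_eq_fintype_card] at hg hkj
  obtain ⟨H, hH⟩ := ex_sub k G ((Dvd.intro _ rfl).trans hkj)
  have hq : j ∣ Nat.card (G ⧸ H) := ex_dvd_quot H (hH ▸ hkj)
  obtain ⟨x, hx⟩ : ∃ x : G ⧸ H, addOrderOf x = j := by
    rcases hj with hj | rfl
    · have h1 : (AddSubgroup.zmultiples g).index = 2 ^ e := by
        have := (AddSubgroup.zmultiples g).card_mul_index
        rw [Nat.card_zmultiples, ← hg] at this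
        exact Nat.eq_of_mul_eq_mul_left (addOrderOf_pos g) this
      have h2 := (AddSubgroup.zmultiples g).index_map_dvd (QuotientAddGroup.mk'_surjective H)
      rw [h1, AddMonoidHom.map_zmultiples] at h2
      set y := QuotientAddGroup.mk' H g
      rw [← (AddSubgroup.zmultiples y).card_mul_index, Nat.card_zmultiples] at hq
      have h3 : j.Coprime (AddSubgroup.zmultiples y).index :=
        Nat.Coprime.coprime_dvd_right h2 (Nat.Coprime.pow_right e (Nat.coprime_two_right.2 hj))
      exact ⟨_, addOrderOf_nsmul_addOrderOf_sub (addOrderOf_pos y).ne' (h3.dvd_of_dvd_mul_right hq)⟩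
    · exact exists_prime_addOrderOf_dvd_card' 2 hq
  have hc : Nat.card (AddSubgroup.zmultiples x) = j := by rw [Nat.card_zmultiples, hx]
  subst hc
  let φ := (zmodAddCyclicAddEquiv (inferInstance : IsAddCyclic (AddSubgroup.zmultiples x))).symm
  refine ⟨(AddSubgroup.zmultiples x).comap (QuotientAddGroup.mk' H),
    φ.toAddMonoidHom.comp ((QuotientAddGroup.mk' H).addSubgroupComap _), ?_,
    by rw [ex_card_comap, hH]⟩
  exact φ.surjective.comp
    (AddMonoidHom.addSubgroupComap_surjective_of_surjective _ _ (QuotientAddGroup.mk'_surjective H))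

end Pool.Agent.MP_ed46bc_co.SP
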