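import Pool.Agent.MP_ed46bc_co.SP.Spec

/-! Row LB: the lower bound from the two constructions. -/

namespace Pool.Agent.MP_ed46bc_co.SP

open Finset

universe u

section

variable {G : Type u} [AddCommGroup G] [Fintype G] [DecidableEq G]

/-- the value `v` is reached by a set of size `b` -/
def lbR (G : Type u) [AddCommGroup G] [Fintype G] [DecidableEq G] (b : ℕ) (v : ℤ) : Prop :=
  ∃ B : Finset G, B.card = b ∧ v ≤ Gam B B (ng B)

lemma lbR.mono {b : ℕ} {v v' : ℤ} (h : lbR G b v) (hv : v' ≤ v) : lbR G b v' := by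
  obtain ⟨B, h1, h2⟩ := h
  exact ⟨B, h1, hv.trans h2⟩

lemma lb_sum_ind (A : Finset G) (F : G → ℤ) : ∑ x, ind A x * F x = ∑ x ∈ A, F x := by
  simp [ind, ite_mul, Finset.sum_ite_mem]

lemma lb_T (A B C : Finset G) : T A B C = ∑ x ∈ A, ∑ y ∈ B, ind C (-x - y) := by
  unfold T T3
  simp only [mul_assoc, ← Finset.mul_sum, lb_sum_ind]

lemma lb_mem_ng (B : Finset G) (x : G) : x ∈ ng B ↔ -x ∈ B := by simp [ng]

lemma lb_card_ng (B : Finset G) : (ng B).card = B.card :=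
  Finset.card_nbij' (fun x => -x) (fun x => -x) (fun x hx => (lb_mem_ng B x).mp hx)
    (fun x hx => (lb_mem_ng B _).mpr (by simpa using hx)) (fun x _ => neg_neg x)
    fun x _ => neg_neg x

lemma lb_transfer {K : Type u} [AddCommGroup K] [Fintype K] [DecidableEq K] (φ : K →+ G)
    (hφ : Function.Injective φ) {b : ℕ} {v : ℤ} (h : lbR K b v) : lbR G b v := by
  obtain ⟨B, h1, h2⟩ := h
  refine ⟨B.map ⟨φ, hφ⟩, by rw [card_map, h1], h2.trans (le_of_eq ?_)⟩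
  have hT : T (B.map ⟨φ, hφ⟩) (B.map ⟨φ, hφ⟩) (ng (B.map ⟨φ, hφ⟩)) = T B B (ng B) := by
    rw [lb_T, lb_T, sum_map]
    refine sum_congr rfl fun x _ => ?_
    rw [sum_map]
    refine sum_congr rfl fun y _ => ?_
    have e : -(-φ x - φ y) = φ (-(-x - y)) := by simp
    simp only [ind, lb_mem_ng, Function.Embedding.coeFn_mk, e]
    exact if_congr (mem_map' ⟨φ, hφ⟩) rfl rfl
  unfold Gam
  rw [hT, lb_card_ng, lb_card_ng, card_map]

variable (hE : EX.{u}) (h1 : C1.{u}) (h2 : C2.{u})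
  (hG : ∃ (g : G) (e : ℕ), addOrderOf g * 2 ^ e = Fintype.card G)

include hE h1 hG in
lemma lb_c1 {k j t s : ℕ} (hd : k * j ∣ Fintype.card G) (hj : Odd j ∨ j = 2) (ht : Odd t)
    (hs : s ≤ k) {b : ℕ} (hb : (b = t * k + s ∧ b ≤ j * k) ∨ (b + s = t * k ∧ 3 * t < 2 * j)) :
    lbR G b (((k : ℤ) - s) * ((k : ℤ) - 5 * s)) := by
  classical
  obtain ⟨K, p, hp, hK⟩ := hE G hG k j hd hj
  rw [Nat.card_eq_fintype_card] at hK
  obtain ⟨a1, a2⟩ := h1 K k j p hp hK t s ht hs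
  refine lb_transfer K.subtype K.subtype_injective ?_
  rcases hb with ⟨rfl, hb⟩ | ⟨hb, hb'⟩
  · exact a1 hb
  · obtain ⟨B, b1, b2⟩ := a2 hb'
    exact ⟨B, by omega, b2⟩

include hE h2 hG in
lemma lb_c2 {k j b : ℕ} (hd : k * j ∣ Fintype.card G) (hj : Odd j ∨ j = 2) (hb : b ≤ k * j)
    (hb' : k * j ≤ b + (j + 1) / 3 * k) : lbR G b ((2 * ((k * j : ℕ) : ℤ) - 3 * b) ^ 2) := by
  classical
  obtain ⟨K, p, hp, hK⟩ := hE G hG k j hd hj
  rw [Nat.card_eq_fintype_card] at hK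
  refine lb_transfer K.subtype K.subtype_injective ?_
  push_cast
  exact h2 K k j p hp hK b hb hb'

include hE h2 hG in
lemma lb_even {N b : ℕ} (hd : N ∣ Fintype.card G) (hN : Even N) (hb : b ≤ N) (hb' : N ≤ 2 * b) :
    lbR G b ((2 * (N : ℤ) - 3 * b) ^ 2) := by
  obtain ⟨k, rfl⟩ := hN
  rw [← mul_two] at *
  exact lb_c2 hE h2 hG hd (Or.inr rfl) hb (by omega)

include hE h2 hG in
lemma lb_third {N b : ℕ} (hd : N ∣ Fintype.card G) (hb : b ≤ N) (hb' : 2 * N ≤ 3 * b + 1) :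
    lbR G b ((2 * (N : ℤ) - 3 * b) ^ 2) := by
  rcases Nat.even_or_odd N with hN | hN
  · refine lb_even hE h2 hG hd hN hb ?_
    obtain ⟨k, rfl⟩ := hN
    omega
  · have := lb_c2 hE h2 hG (k := 1) (j := N) (b := b) (by simpa using hd) (Or.inl hN)
      (by omega) (by omega)
    rwa [one_mul] at this

include hE h2 hG in
lemma lb_big {k q e b : ℕ} (hn : Fintype.card G = k * (2 ^ e * q)) (hb : b ≤ Fintype.card G)
    (hb' : q * k < b) : ∃ M : ℕ, lbR G b ((2 * ((M * k : ℕ) : ℤ) - 3 * b) ^ 2) := by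
  classical
  have hex : ∃ i, b ≤ 2 ^ i * q * k := ⟨e, hb.trans (le_of_eq (by rw [hn]; ring))⟩
  have hi := Nat.find_spec hex
  have hle : Nat.find hex ≤ e := Nat.find_min' hex (hb.trans (le_of_eq (by rw [hn]; ring)))
  obtain ⟨i, hi'⟩ : ∃ i, Nat.find hex = i + 1 := by
    refine Nat.exists_eq_succ_of_ne_zero fun h0 => ?_
    rw [h0] at hi
    simp at hi
    omega
  have hmin := Nat.find_min hex (m := i) (by omega)
  rw [hi'] at hi hle
  refine ⟨2 ^ (i + 1) * q, lb_even hE h2 hG ?_ ⟨2 ^ i * q * k, by ring⟩ hi ?_⟩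
  · obtain ⟨d, rfl⟩ := Nat.exists_eq_add_of_le hle
    exact ⟨2 ^ d, by rw [hn]; ring⟩
  · have : 2 ^ (i + 1) * q * k = 2 * (2 ^ i * q * k) := by ring
    omega

lemma lb_sq {M t k s b : ℕ} (ht : Odd t) (hb : b = t * k + s ∨ b + s = t * k) (hs : 3 * s ≤ k) :
    ((k : ℤ) - s) * ((k : ℤ) - 5 * s) ≤ (2 * ((M * k : ℕ) : ℤ) - 3 * b) ^ 2 := by
  have hs' : 3 * (s : ℤ) ≤ k := by exact_mod_cast hs
  have h0 : (0 : ℤ) ≤ s := by positivity
  have h3 : ((k : ℤ) - s) * ((k : ℤ) - 5 * s) ≤ ((k : ℤ) - 3 * s) ^ 2 := by nlinarith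
  refine h3.trans (sq_le_sq.mpr ?_)
  rw [abs_of_nonneg (by linarith)]
  obtain ⟨r, rfl⟩ := ht
  have hw : 1 ≤ 2 * (M : ℤ) - 3 * (2 * r + 1) ∨ 2 * (M : ℤ) - 3 * (2 * r + 1) ≤ -1 := by omega
  have hb' : (b : ℤ) = (2 * r + 1) * k + s ∨ (b : ℤ) + s = (2 * r + 1) * k := by exact_mod_cast hb
  have hk : (0 : ℤ) ≤ k := by positivity
  push_cast
  rcases hw with hw | hw
  · have := mul_le_mul_of_nonneg_right hw hk
    refine le_abs.mpr (Or.inl ?_)
    rcases hb' with hb' | hb' <;> nlinarith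
  · have := mul_le_mul_of_nonneg_right hw hk
    refine le_abs.mpr (Or.inr ?_)
    rcases hb' with hb' | hb' <;> nlinarith

lemma lb_split {k : ℕ} (hk : k ∣ Fintype.card G) :
    ∃ e q : ℕ, Odd q ∧ Fintype.card G = k * (2 ^ e * q) := by
  obtain ⟨m, hm⟩ := hk
  have hm0 : m ≠ 0 := by
    rintro rfl
    exact Fintype.card_ne_zero (hm.trans (mul_zero k))
  obtain ⟨e, q, hq, rfl⟩ := Nat.exists_eq_two_pow_mul_odd hm0
  exact ⟨e, q, hq, hm⟩

include hE h1 h2 hG in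
lemma lb_one {k t s b : ℕ} (hk : k ∣ Fintype.card G) (ht : Odd t)
    (hb : b = t * k + s ∨ b + s = t * k) (hs : 3 * s ≤ k) (hn : b ≤ Fintype.card G) :
    lbR G b (((k : ℤ) - s) * ((k : ℤ) - 5 * s)) := by
  obtain ⟨e, q, hq, he⟩ := lb_split hk
  have hd : k * q ∣ Fintype.card G := ⟨2 ^ e, by rw [he]; ring⟩
  rcases Nat.lt_or_ge (q * k) b with hlt | hle
  · obtain ⟨M, hM⟩ := lb_big hE h2 hG he hn hlt
    exact hM.mono (lb_sq ht hb hs)
  rcases hb with hb | hb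
  · exact lb_c1 hE h1 hG hd (Or.inl hq) ht (by omega) (Or.inl ⟨hb, hle⟩)
  rcases Nat.lt_or_ge (3 * t) (2 * q) with h3 | h3
  · exact lb_c1 hE h1 hG hd (Or.inl hq) ht (by omega) (Or.inr ⟨hb, h3⟩)
  have h4 : 2 * q + 1 ≤ 3 * t := by
    obtain ⟨r, rfl⟩ := ht
    omega
  have h5 := Nat.mul_le_mul_right k h4
  refine (lb_third hE h2 hG (N := q * k) (by rwa [mul_comm]) hle (by nlinarith)).mono ?_
  exact lb_sq ht (Or.inr hb) hs

include hE h1 h2 hG in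
lemma lb_zero {b : ℕ} (hn : b ≤ Fintype.card G) : lbR G b 0 := by
  rcases Nat.even_or_odd b with hb | hb
  swap
  · exact (lb_one hE h1 h2 hG (k := 1) (s := 0) (one_dvd _) hb (by omega) (by omega) hn).mono
      (by norm_num)
  rcases Nat.eq_zero_or_pos b with rfl | h0
  · exact ⟨∅, rfl, by simp [Gam, lb_T, lb_card_ng]⟩
  obtain ⟨e, q, hq, he⟩ := lb_split (one_dvd (Fintype.card G))
  rcases Nat.lt_or_ge (q * 1) b with hlt | hle
  · obtain ⟨M, hM⟩ := lb_big hE h2 hG he hn hlt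
    exact hM.mono (sq_nonneg _)
  · obtain ⟨r, rfl⟩ := hb
    exact (lb_c1 hE h1 hG (k := 1) (j := q) (t := 2 * (r - 1) + 1) (s := 1)
      ⟨2 ^ e, by rw [he]; ring⟩ (Or.inl hq) ⟨_, rfl⟩ le_rfl (Or.inl ⟨by omega, hle⟩)).mono
      (by norm_num)

include hE h2 hG in
lemma lb_two {N d b : ℕ} (hN : N ∣ Fintype.card G) (hd : d ∣ N) (hb : b ≤ N)
    (hb' : N ≤ b + (d + 1) / 3 * (N / d)) : lbR G b ((2 * (N : ℤ) - 3 * b) ^ 2) := by
  obtain ⟨k, rfl⟩ := hd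
  rcases Nat.eq_zero_or_pos d with rfl | hd0
  · simp at hN
  rw [Nat.mul_div_cancel_left _ hd0] at hb'
  rcases Nat.even_or_odd d with he | ho
  · refine lb_even hE h2 hG hN (he.mul_right k) hb ?_
    have h3 : 2 * ((d + 1) / 3) ≤ d := by
      obtain ⟨r, rfl⟩ := he
      omega
    have := Nat.mul_le_mul_right k h3
    nlinarith
  · rw [mul_comm d k] at *
    exact lb_c2 hE h2 hG hN (Or.inl ho) hb hb'

end

lemma lb_dist_sq (x y : ℕ) : ((Nat.dist x y ^ 2 : ℕ) : ℤ) = ((x : ℤ) - y) ^ 2 := by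
  rcases le_total x y with h | h
  · rw [Nat.dist_eq_sub_of_le h]; push_cast [h]; ring
  · rw [Nat.dist_eq_sub_of_le_right h]; push_cast [h]; ring

theorem lb (hE : EX.{u}) (h1 : C1.{u}) (h2 : C2.{u}) : LB.{u} := by
  intro G _ _ _ hG b hb
  change lbR G b _
  have hsup : ∀ x : ℕ, lbR G b x → ∀ y : ℕ, lbR G b y → lbR G b ((x ⊔ y : ℕ) : ℤ) :=
    fun x hx y hy => by
      rcases le_total x y with h | h
      · rwa [sup_eq_right.mpr h]
      · rwa [sup_eq_left.mpr h]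
  have h0 : lbR G b ((⊥ : ℕ) : ℤ) := lb_zero hE h1 h2 hG hb
  refine hsup _ (Finset.sup_induction (p := fun x : ℕ => lbR G b x) h0 hsup fun p hp => ?_) _
    (Finset.sup_induction (p := fun x : ℕ => lbR G b x) h0 hsup fun p hp => ?_)
  · obtain ⟨hp, ht, hs⟩ := mem_filter.mp hp
    have hk := Nat.dvd_of_mem_divisors (mem_product.mp hp).1
    have hd : b = p.2 * p.1 + Nat.dist b (p.2 * p.1) ∨ b + Nat.dist b (p.2 * p.1) = p.2 * p.1 := by
      unfold Nat.dist; omega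
    refine (lb_one hE h1 h2 hG hk ht hd (by omega) hb).mono (le_of_eq ?_)
    have h5 : Nat.dist b (p.2 * p.1) ≤ p.1 := by omega
    push_cast [hs, h5]
    ring
  · obtain ⟨hp, hd, hb1, hb2⟩ := mem_filter.mp hp
    have hN := Nat.dvd_of_mem_divisors (mem_product.mp hp).1
    refine (lb_two hE h2 hG hN hd hb1 hb2).mono (le_of_eq ?_)
    rw [lb_dist_sq]
    push_cast
    ring

end Pool.Agent.MP_ed46bc_co.SP
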