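import Pool.Agent.MP_ed46bc_co.SP.Spec

/-!
# Row U: the upgrade lemma
-/

namespace Pool.Agent.MP_ed46bc_co.SP

open Finset
open scoped symmDiff

universe u v

section Basic

variable {G : Type u} [AddCommGroup G] [Fintype G] [DecidableEq G]

theorem U_T_swap12 (A B C : Finset G) : T A B C = T B A C := by
  unfold T T3
  rw [Finset.sum_comm]
  refine Finset.sum_congr rfl fun x _ => Finset.sum_congr rfl fun y _ => ?_
  have : -y - x = -x - y := by abel
  rw [this]; ring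

theorem U_T_swap23 (A B C : Finset G) : T A B C = T A C B := by
  unfold T T3
  refine Finset.sum_congr rfl fun x _ => ?_
  rw [← Equiv.sum_comp (Equiv.subLeft (-x))]
  refine Finset.sum_congr rfl fun y _ => ?_
  have : -x - (-x - y) = y := by abel
  simp only [Equiv.subLeft_apply, this]
  ring

theorem U_Gam_swap12 (A B C : Finset G) : Gam A B C = Gam B A C := by
  unfold Gam; rw [U_T_swap12 A B C]; ring

theorem U_Gam_swap23 (A B C : Finset G) : Gam A B C = Gam A C B := by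
  unfold Gam; rw [U_T_swap23 A B C]; ring

theorem U_Gam_mod (A B C : Finset G) :
    ∃ t : ℤ, Gam A B C = ((A.card : ℤ) + B.card + C.card) ^ 2 + 4 * t :=
  ⟨T A B C - ((A.card : ℤ) * B.card + (B.card : ℤ) * C.card + (C.card : ℤ) * A.card), by
    unfold Gam; ring⟩

omit [AddCommGroup G] [Fintype G] in
theorem U_ind_flip (A : Finset G) (x y : G) :
    ind (A ∆ {x}) y = ind A y + (if y = x then (if x ∈ A then (-1 : ℤ) else 1) else 0) := by
  unfold ind
  by_cases h : y = x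
  · subst h
    by_cases hA : y ∈ A <;> simp [Finset.mem_symmDiff, hA]
  · by_cases hA : y ∈ A <;> simp [Finset.mem_symmDiff, hA, h]

omit [AddCommGroup G] in
theorem U_card_eq (A : Finset G) : (A.card : ℤ) = ∑ y, ind A y := by
  unfold ind
  rw [Finset.sum_boole]
  congr 1
  congr 1
  ext y; simp

omit [AddCommGroup G] in
theorem U_card_flip (A : Finset G) (x : G) :
    ((A ∆ {x}).card : ℤ) = A.card + (if x ∈ A then (-1 : ℤ) else 1) := by
  rw [U_card_eq, U_card_eq]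
  simp only [U_ind_flip, Finset.sum_add_distrib]
  simp

theorem U_T_flip (A B C : Finset G) (x : G) :
    T (A ∆ {x}) B C = T A B C + (if x ∈ A then (-1 : ℤ) else 1) * L B C x := by
  unfold T T3 L
  simp only [U_ind_flip, add_mul, Finset.sum_add_distrib]
  congr 1
  rw [Finset.sum_eq_single x]
  · rw [Finset.mul_sum]
    refine Finset.sum_congr rfl fun y _ => ?_
    simp only [if_true]
    ring
  · intro b _ hb
    simp [hb]
  · intro h; exact absurd (Finset.mem_univ x) h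

theorem U_Gam_flip (A B C : Finset G) (x : G) :
    Gam (A ∆ {x}) B C = Gam A B C - ex A B C x - 1 := by
  unfold Gam ex
  rw [U_T_flip, U_card_flip]
  by_cases h : x ∈ A <;> simp only [h, if_true, if_false] <;> ring

omit [AddCommGroup G] [Fintype G] in
theorem U_tri (A P V : Finset G) :
    ((A ∆ V).card : ℤ) ≤ ((A ∆ P).card : ℤ) + ((P ∆ V).card : ℤ) := by
  have h : A ∆ V ⊆ (A ∆ P) ∪ (P ∆ V) := by
    intro x hx
    simp only [Finset.mem_union, Finset.mem_symmDiff] at hx ⊢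
    tauto
  have h1 := Finset.card_le_card h
  have h2 := Finset.card_union_le (A ∆ P) (P ∆ V)
  exact_mod_cast h1.trans h2

omit [AddCommGroup G] [Fintype G] in
theorem U_flip_dist (A : Finset G) (x : G) : ((A ∆ (A ∆ {x})).card : ℤ) = 1 := by
  rw [symmDiff_symmDiff_cancel_left]; simp

omit [AddCommGroup G] [Fintype G] in
theorem U_sig_nonneg (A B C P₁ P₂ P₃ : Finset G) : 0 ≤ sig A B C P₁ P₂ P₃ := by
  unfold sig; positivity

/-- A triple at total distance at most one from a primitive triple has gain at most one. -/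
theorem U_near (W₁ W₂ W₃ X Y Z : Finset G) (hS : S X Y Z) (hW : ¬ HasSt W₁ W₂ W₃)
    (hd : sig W₁ W₂ W₃ X Y Z ≤ 1) : Gam X Y Z ≤ 1 := by
  by_contra hc
  have h2 : 2 ≤ Gam X Y Z := by omega
  obtain ⟨K, V₁, V₂, V₃, hst, h1, hg⟩ := hS h2
  have hP : 2 ≤ Psi X Y Z K V₁ V₂ V₃ := by
    by_contra h
    have : Psi X Y Z K V₁ V₂ V₃ = 1 := by omega
    rw [this] at hg
    omega
  apply hW
  have hn := U_sig_nonneg X Y Z V₁ V₂ V₃
  refine ⟨K, V₁, V₂, V₃, ?_, hst, ?_⟩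
  · intro hK
    unfold Psi at hP
    rw [hK] at hP
    simp only [AddSubgroup.card_bot, Nat.cast_one] at hP
    omega
  · have t1 := U_tri W₁ X V₁
    have t2 := U_tri W₂ Y V₂
    have t3 := U_tri W₃ Z V₃
    unfold Psi sig at *
    omega

end Basic

section Quot

variable {G : Type u} [AddCommGroup G] [Fintype G] [DecidableEq G]
variable {Q : Type v} [AddCommGroup Q] [Fintype Q] [DecidableEq Q]

omit [DecidableEq G] [Fintype Q] in
theorem U_mem_pre (f : G →+ Q) (W : Finset Q) (x : G) : x ∈ pre f W ↔ f x ∈ W := by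
  unfold pre; simp

omit [DecidableEq G] [Fintype Q] in
theorem U_card_fib (f : G →+ Q) (hf : Function.Surjective f) (i : Q) :
    (univ.filter fun x => f x = i).card = Nat.card f.ker := by
  classical
  have h := AddMonoidHom.card_fiber_eq_of_mem_range f (x := i) (y := 0) (hf i) ⟨0, map_zero f⟩
  rw [h, Nat.card_eq_fintype_card, Fintype.card_subtype]
  congr 1
  ext x; simp

omit [DecidableEq G] [Fintype Q] in
theorem U_card_pre (f : G →+ Q) (hf : Function.Surjective f) (W : Finset Q) :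
    (pre f W).card = Nat.card f.ker * W.card := by
  classical
  rw [Finset.card_eq_sum_card_fiberwise (f := f) (s := pre f W) (t := W)
    (fun x hx => (U_mem_pre f W x).1 hx)]
  rw [mul_comm, ← smul_eq_mul, ← Finset.sum_const]
  refine Finset.sum_congr rfl fun i hi => ?_
  rw [← U_card_fib f hf i]
  congr 1
  ext x
  simp only [Finset.mem_filter, U_mem_pre, Finset.mem_univ, true_and]
  exact ⟨fun h => h.2, fun h => ⟨h ▸ hi, h⟩⟩

omit [Fintype Q] in
theorem U_pre_symmDiff (f : G →+ Q) (W V : Finset Q) :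
    pre f W ∆ pre f V = pre f (W ∆ V) := by
  ext x
  simp only [Finset.mem_symmDiff, U_mem_pre]

omit [DecidableEq G] in
theorem U_card_comap (f : G →+ Q) (hf : Function.Surjective f) (K : AddSubgroup Q) :
    Nat.card (K.comap f) = Nat.card f.ker * Nat.card K := by
  classical
  have h := U_card_pre f hf (univ.filter fun q => q ∈ K)
  rw [Nat.card_eq_fintype_card (α := K), Fintype.card_subtype, ← h, Nat.card_eq_fintype_card,
    Fintype.card_subtype]
  congr 1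
  ext x
  simp [U_mem_pre]

omit [DecidableEq G] [Fintype Q] in
theorem U_per_pre (f : G →+ Q) (K : AddSubgroup Q) (V : Finset Q) (h : Per K V) :
    Per (K.comap f) (pre f V) := by
  intro x hx y hy
  rw [U_mem_pre] at hx ⊢
  rw [map_add]
  exact h _ hx _ hy

omit [DecidableEq G] [Fintype Q] in
theorem U_exists_pre (f : G →+ Q) (P : Finset G) (h : Per f.ker P) :
    ∃ W : Finset Q, P = pre f W := by
  refine ⟨P.image f, ?_⟩
  ext x
  rw [U_mem_pre, Finset.mem_image]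
  constructor
  · intro hx; exact ⟨x, hx, rfl⟩
  · rintro ⟨y, hy, hxy⟩
    have : x - y ∈ f.ker := by
      rw [AddMonoidHom.mem_ker, map_sub, hxy, sub_self]
    have h2 := h y hy _ this
    simpa using h2

/-- Lifting a state of the base. -/
theorem U_lift (f : G →+ Q) (hf : Function.Surjective f) (A B C : Finset G)
    (W₁ W₂ W₃ : Finset Q) (h1 : 1 ≤ Psi A B C f.ker (pre f W₁) (pre f W₂) (pre f W₃))
    (hW : HasSt W₁ W₂ W₃) :
    ∃ (H : AddSubgroup G) (P₁ P₂ P₃ : Finset G), St H P₁ P₂ P₃ ∧ 1 ≤ Psi A B C H P₁ P₂ P₃ ∧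
      Nat.card f.ker < Nat.card H := by
  obtain ⟨K, V₁, V₂, V₃, hK, ⟨p1, p2, p3, t, ht, hsum⟩, hP⟩ := hW
  have hk : 0 < Nat.card f.ker := Nat.card_pos
  have hK2 : 1 < Nat.card K := (AddSubgroup.one_lt_card_iff_ne_bot K).2 hK
  refine ⟨K.comap f, pre f V₁, pre f V₂, pre f V₃, ⟨U_per_pre f K _ p1, U_per_pre f K _ p2,
    U_per_pre f K _ p3, t, ht, ?_⟩, ?_, ?_⟩
  · rw [U_card_pre f hf, U_card_pre f hf, U_card_pre f hf, U_card_comap f hf, ← mul_add,
      ← mul_add, hsum]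
    ring
  · have t1 := U_tri A (pre f W₁) (pre f V₁)
    have t2 := U_tri B (pre f W₂) (pre f V₂)
    have t3 := U_tri C (pre f W₃) (pre f V₃)
    rw [U_pre_symmDiff, U_card_pre f hf] at t1 t2 t3
    unfold Psi sig at *
    rw [U_card_comap f hf]
    push_cast at *
    have hk' : (0 : ℤ) < (Nat.card f.ker : ℤ) := by exact_mod_cast hk
    have := mul_le_mul_of_nonneg_left hP hk'.le
    nlinarith
  · rw [U_card_comap f hf]
    nlinarith

end Quot

theorem U_sum_ge {α : Type*} (s : Finset α) (g : α → ℤ) (c : ℤ) (h : ∀ x, c ≤ g x) :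
    (s.card : ℤ) * c ≤ ∑ x ∈ s, g x := by
  have := Finset.card_nsmul_le_sum s g c fun x _ => h x
  simpa using this

theorem U_arith (Γ k σ g e n₁ n₂ : ℤ)
    (h : Γ = k ^ 2 * (4 * g + 1) - 2 * k * σ + σ ^ 2 - k * e - 4 * n₁ - 4 * n₂) (hk : 0 ≤ k)
    (hσ : 0 ≤ σ) (h1 : 1 ≤ k - σ) (he : σ * (4 * g) ≤ e) (hn₁ : 0 ≤ n₁) (hn₂ : 0 ≤ n₂)
    (hΓ : 1 ≤ Γ) (hg : g ≤ 0) : g = 0 ∧ Γ ≤ (k - σ) ^ 2 := by
  have hm := mul_le_mul_of_nonneg_left he hk
  have hbd : Γ ≤ (k - σ) * (k * (4 * g + 1) - σ) := by nlinarith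
  have hg0 : g = 0 := by
    by_contra hne
    have hneg : g ≤ -1 := by omega
    have a1 : k * (4 * g + 1) - σ ≤ 0 := by nlinarith
    have := mul_nonpos_of_nonneg_of_nonpos (show 0 ≤ k - σ by omega) a1
    omega
  subst hg0
  exact ⟨rfl, by nlinarith⟩

theorem up (h : ACC.{u, u}) : UP.{u} := by
  intro G _ _ _ IH A B C hG hSt
  classical
  -- a state with the largest subgroup
  let 𝒮 : Set (AddSubgroup G × Finset G × Finset G × Finset G) :=
    {p | p.1 ≠ ⊥ ∧ St p.1 p.2.1 p.2.2.1 p.2.2.2 ∧ 1 ≤ Psi A B C p.1 p.2.1 p.2.2.1 p.2.2.2}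
  have hne : 𝒮.Nonempty := by
    obtain ⟨H, P₁, P₂, P₃, a, b, c⟩ := hSt
    exact ⟨(H, P₁, P₂, P₃), a, b, c⟩
  obtain ⟨⟨H, P₁, P₂, P₃⟩, ⟨hH, ⟨p1, p2, p3, t, ht, hsum⟩, hP⟩, hmax⟩ :=
    Set.exists_max_image 𝒮 (fun p => Nat.card p.1) (Set.toFinite _) hne
  simp only at hH p1 p2 p3 hsum hP hmax
  let f : G →+ G ⧸ H := QuotientAddGroup.mk' H
  have hf : Function.Surjective f := QuotientAddGroup.mk'_surjective H
  have hker : f.ker = H := QuotientAddGroup.ker_mk' H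
  let _ : Fintype (G ⧸ H) := Fintype.ofFinite _
  obtain ⟨W₁, rfl⟩ := U_exists_pre f P₁ (by rw [hker]; exact p1)
  obtain ⟨W₂, rfl⟩ := U_exists_pre f P₂ (by rw [hker]; exact p2)
  obtain ⟨W₃, rfl⟩ := U_exists_pre f P₃ (by rw [hker]; exact p3)
  have hk1 : 1 < Nat.card H := (AddSubgroup.one_lt_card_iff_ne_bot H).2 hH
  have hlt : Fintype.card (G ⧸ H) < Fintype.card G := by
    have h1 := U_card_pre f hf (univ : Finset (G ⧸ H))
    have h2 : pre f (univ : Finset (G ⧸ H)) = univ := by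
      ext x; simp [U_mem_pre]
    rw [h2, Finset.card_univ, Finset.card_univ, hker] at h1
    have h3 : 0 < Fintype.card (G ⧸ H) := Fintype.card_pos
    nlinarith
  have hS := IH (G ⧸ H) hlt
  have hodd : Odd (W₁.card + W₂.card + W₃.card) := by
    rw [U_card_pre f hf, U_card_pre f hf, U_card_pre f hf, hker, ← mul_add, ← mul_add,
      mul_comm t] at hsum
    have := Nat.eq_of_mul_eq_mul_left (by omega) hsum
    rw [this]; exact ht
  have hP' : 1 ≤ Psi A B C f.ker (pre f W₁) (pre f W₂) (pre f W₃) := by rw [hker]; exact hP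
  have hprim : ¬ HasSt W₁ W₂ W₃ := by
    intro hW
    obtain ⟨H', Q₁, Q₂, Q₃, a, b, c⟩ := U_lift f hf A B C W₁ W₂ W₃ hP' hW
    rw [hker] at c
    have hH' : H' ≠ ⊥ := (AddSubgroup.one_lt_card_iff_ne_bot H').1 (by omega)
    have := hmax (H', Q₁, Q₂, Q₃) ⟨hH', a, b⟩
    simp only at this
    omega
  obtain ⟨m, hm⟩ := hodd
  have hm' : (W₁.card : ℤ) + W₂.card + W₃.card = 2 * m + 1 := by exact_mod_cast hm
  have hg1 : Gam W₁ W₂ W₃ ≤ 1 :=
    U_near W₁ W₂ W₃ W₁ W₂ W₃ (hS _ _ _) hprim (by unfold sig; simp)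
  obtain ⟨g, hg⟩ : ∃ g : ℤ, Gam W₁ W₂ W₃ = 4 * g + 1 := by
    obtain ⟨s, hs⟩ := U_Gam_mod W₁ W₂ W₃
    exact ⟨s + m * m + m, by rw [hs, hm']; ring⟩
  -- a flip has gain divisible by four
  have key : ∀ (X Y Z : Finset (G ⧸ H)) (x : G ⧸ H), (X.card : ℤ) + Y.card + Z.card = 2 * m + 1 →
      Gam X Y Z = 4 * g + 1 → Gam (X ∆ {x}) Y Z ≤ 1 → ∃ e : ℤ, ex X Y Z x = 4 * e ∧ g ≤ e := by
    intro X Y Z x hc hX hle
    have hfl := U_Gam_flip X Y Z x
    obtain ⟨s, hs⟩ := U_Gam_mod (X ∆ {x}) Y Z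
    rw [U_card_flip] at hs
    by_cases hx : x ∈ X
    · simp only [hx, if_true] at hs
      have h1 : (X.card : ℤ) + -1 + Y.card + Z.card = 2 * m := by omega
      rw [h1] at hs
      have h2 : Gam (X ∆ {x}) Y Z = 4 * (m * m + s) := by rw [hs]; ring
      exact ⟨g - (m * m + s), by omega, by omega⟩
    · simp only [hx, if_false] at hs
      have h1 : (X.card : ℤ) + 1 + Y.card + Z.card = 2 * (m + 1) := by omega
      rw [h1] at hs
      have h2 : Gam (X ∆ {x}) Y Z = 4 * ((m + 1) * (m + 1) + s) := by rw [hs]; ring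
      exact ⟨g - ((m + 1) * (m + 1) + s), by omega, by omega⟩
  have e1 : ∀ x, ∃ e : ℤ, ex W₁ W₂ W₃ x = 4 * e ∧ g ≤ e := fun x =>
    key W₁ W₂ W₃ x hm' hg (U_near W₁ W₂ W₃ _ _ _ (hS _ _ _) hprim (by
      unfold sig; rw [U_flip_dist]; simp))
  have e2 : ∀ x, ∃ e : ℤ, ex W₂ W₁ W₃ x = 4 * e ∧ g ≤ e := fun x =>
    key W₂ W₁ W₃ x (by omega) (by rw [← U_Gam_swap12]; exact hg) (by
      rw [U_Gam_swap12]
      exact U_near W₁ W₂ W₃ _ _ _ (hS _ _ _) hprim (by unfold sig; rw [U_flip_dist]; simp))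
  have e3 : ∀ x, ∃ e : ℤ, ex W₃ W₁ W₂ x = 4 * e ∧ g ≤ e := fun x =>
    key W₃ W₁ W₂ x (by omega) (by rw [U_Gam_swap12, U_Gam_swap23]; exact hg) (by
      rw [U_Gam_swap12, U_Gam_swap23]
      exact U_near W₁ W₂ W₃ _ _ _ (hS _ _ _) hprim (by unfold sig; rw [U_flip_dist]; simp))
  have hacc := h G (G ⧸ H) f A B C W₁ W₂ W₃ hf
  have s1 := U_sum_ge (A ∆ pre f W₁) (fun x => ex W₁ W₂ W₃ (f x)) (4 * g) fun x => by
    obtain ⟨e, a, b⟩ := e1 (f x); simp only [a]; omega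
  have s2 := U_sum_ge (B ∆ pre f W₂) (fun x => ex W₂ W₁ W₃ (f x)) (4 * g) fun x => by
    obtain ⟨e, a, b⟩ := e2 (f x); simp only [a]; omega
  have s3 := U_sum_ge (C ∆ pre f W₃) (fun x => ex W₃ W₁ W₂ (f x)) (4 * g) fun x => by
    obtain ⟨e, a, b⟩ := e3 (f x); simp only [a]; omega
  have n1 : 0 ≤ NN A (pre f W₁) + NN B (pre f W₂) + NN C (pre f W₃) := by
    unfold NN; positivity
  have n2 : 0 ≤ Fr A (pre f W₁) B (pre f W₂) (pre f W₃) + Fr A (pre f W₁) C (pre f W₃) B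
      + Fr B (pre f W₂) C (pre f W₃) (pre f W₁) := by
    unfold Fr; positivity
  have hσ := U_sig_nonneg A B C (pre f W₁) (pre f W₂) (pre f W₃)
  have hsum4 : sig A B C (pre f W₁) (pre f W₂) (pre f W₃) * (4 * g) ≤
      ∑ x ∈ A ∆ pre f W₁, ex W₁ W₂ W₃ (f x) + ∑ x ∈ B ∆ pre f W₂, ex W₂ W₁ W₃ (f x)
        + ∑ x ∈ C ∆ pre f W₃, ex W₃ W₁ W₂ (f x) := by
    unfold sig; linarith
  have hPsi : Psi A B C f.ker (pre f W₁) (pre f W₂) (pre f W₃) =
      (Nat.card f.ker : ℤ) - sig A B C (pre f W₁) (pre f W₂) (pre f W₃) := rfl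
  rw [hg] at hacc
  obtain ⟨hg0, hfin⟩ := U_arith _ _ _ _ _ _ _ hacc (by positivity) hσ (hPsi ▸ hP') hsum4 n1 n2 hG
    (by omega)
  subst hg0
  refine ⟨G ⧸ H, inferInstance, inferInstance, inferInstance, f, W₁, W₂, W₃,
    ⟨hf, by rw [hker]; exact hH, ⟨m, hm⟩, hprim, by simpa using hg, ?_, ?_, ?_⟩, hP', ?_⟩
  · intro x; obtain ⟨e, a, b⟩ := e1 x; omega
  · intro x; obtain ⟨e, a, b⟩ := e2 x; omega
  · intro x; obtain ⟨e, a, b⟩ := e3 x; omega
  · rw [hPsi]; exact hfin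

end Pool.Agent.MP_ed46bc_co.SP
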