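import Pool.Agent.MP_ed46bc_co.SP.Quot

/-!
# From the two bounds to the minimum number of Schur triples
-/

namespace Pool.Agent.MP_ed46bc_co.SP

open Finset

universe u

variable {G : Type u} [AddCommGroup G] [Fintype G] [DecidableEq G]

lemma fin_count (A : Finset G) :
    (((univ.filter fun a : Fin 2 → G => (∀ i, a i ∈ A) ∧ ∑ i, a i ∈ A).card : ℕ) : ℤ) =
      T A A (ng A) := by
  rw [T_eq_card]
  congr 1
  refine card_bij (fun a _ => (a 0, a 1)) ?_ ?_ ?_
  · intro a ha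
    simp only [mem_filter, mem_univ, true_and, Fin.sum_univ_two] at ha
    simp only [mem_filter, mem_product, mem_ng]
    refine ⟨⟨ha.1 0, ha.1 1⟩, ?_⟩
    have : -(-a 0 - a 1) = a 0 + a 1 := by abel
    rw [this]; exact ha.2
  · intro a _ b _ h
    simp only [Prod.mk.injEq] at h
    funext i
    fin_cases i
    · exact h.1
    · exact h.2
  · rintro ⟨x, y⟩ h
    simp only [mem_filter, mem_product, mem_ng] at h
    refine ⟨![x, y], ?_, rfl⟩
    simp only [mem_filter, mem_univ, true_and, Fin.sum_univ_two]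
    refine ⟨fun i => ?_, ?_⟩
    · fin_cases i
      · exact h.1.1
      · exact h.1.2
    · have : -(-x - y) = x + y := by abel
      rw [this] at h
      exact h.2

lemma fin_compl (A : Finset G) :
    4 * T A A (ng A) = (3 * (A.card : ℤ) - Fintype.card G) ^ 2 - Gam Aᶜ Aᶜ (ng Aᶜ) := by
  rw [Gam_compl12, ng_compl]
  unfold Gam
  rw [T_compl3, card_compl_int, card_ng]; ring

theorem fin_min (hU : UB.{u}) (hL : LB.{u})
    (hG : ∃ (g : G) (e : ℕ), addOrderOf g * 2 ^ e = Fintype.card G) (m : ℕ)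
    (hm : m ≤ Fintype.card G) :
    4 * ((sInf {p : ℕ | ∃ A : Finset G, A.card = m ∧
        (univ.filter fun a : Fin 2 → G => (∀ i, a i ∈ A) ∧ ∑ i, a i ∈ A).card = p} : ℕ) : ℤ) =
      (3 * (m : ℤ) - Fintype.card G) ^ 2 - E (Fintype.card G) (Fintype.card G - m) := by
  obtain ⟨B, hB, hE⟩ := hL G hG (Fintype.card G - m) (Nat.sub_le _ _)
  have hc : ∀ A : Finset G, A.card = m → Aᶜ.card = Fintype.card G - m := fun A hA => by
    rw [card_compl, hA]
  have hBc : Bᶜ.card = m := by rw [card_compl, hB]; omega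
  have low : ∀ A : Finset G, A.card = m →
      (3 * (m : ℤ) - Fintype.card G) ^ 2 - E (Fintype.card G) (Fintype.card G - m) ≤
        4 * T A A (ng A) := fun A hA => by
    have := hU G Aᶜ
    rw [hc A hA] at this
    rw [fin_compl, hA]; linarith
  apply le_antisymm
  · have h1 : sInf {p : ℕ | ∃ A : Finset G, A.card = m ∧
        (univ.filter fun a : Fin 2 → G => (∀ i, a i ∈ A) ∧ ∑ i, a i ∈ A).card = p} ≤
        (univ.filter fun a : Fin 2 → G => (∀ i, a i ∈ Bᶜ) ∧ ∑ i, a i ∈ Bᶜ).card :=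
      Nat.sInf_le ⟨Bᶜ, hBc, rfl⟩
    have h2 := fin_count Bᶜ
    have h3 := fin_compl Bᶜ
    rw [compl_compl, hBc] at h3
    have h4 : ((sInf {p : ℕ | ∃ A : Finset G, A.card = m ∧
        (univ.filter fun a : Fin 2 → G => (∀ i, a i ∈ A) ∧ ∑ i, a i ∈ A).card = p} : ℕ) : ℤ) ≤
        T Bᶜ Bᶜ (ng Bᶜ) := by rw [← h2]; exact_mod_cast h1
    linarith
  · obtain ⟨A, hA, hp⟩ := Nat.sInf_mem (s := {p : ℕ | ∃ A : Finset G, A.card = m ∧
        (univ.filter fun a : Fin 2 → G => (∀ i, a i ∈ A) ∧ ∑ i, a i ∈ A).card = p})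
      ⟨_, Bᶜ, hBc, rfl⟩
    rw [← hp, fin_count]
    exact low A hA

end Pool.Agent.MP_ed46bc_co.SP
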