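import Pool.Agent.MP_ed46bc_co.SP.Spec

/-! The bound for symmetric triples. -/

namespace Pool.Agent.MP_ed46bc_co.SP

open Finset
open scoped symmDiff

universe u

section
variable {G : Type u} [AddCommGroup G] [Fintype G] [DecidableEq G]
variable {Q : Type u} [AddCommGroup Q] [Fintype Q] [DecidableEq Q]

omit [DecidableEq G] [Fintype Q] in
theorem m_fib {f : G →+ Q} (hf : Function.Surjective f) (i : Q) :
    (univ.filter fun x => f x = i).card = Nat.card f.ker := by
  obtain ⟨x0, rfl⟩ := hf i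
  rw [← Nat.card_eq_finsetCard]
  refine Nat.card_congr ⟨fun x => ⟨x.1 - x0, ?_⟩, fun y => ⟨y.1 + x0, ?_⟩, fun x => ?_, fun y => ?_⟩
  · have := x.2
    simp only [mem_filter, mem_univ, true_and] at this
    simp [AddMonoidHom.mem_ker, this]
  · have := y.2
    rw [AddMonoidHom.mem_ker] at this
    simp [this]
  · simp
  · simp

omit [DecidableEq G] [Fintype Q] in
theorem m_pre {f : G →+ Q} (hf : Function.Surjective f) (W : Finset Q) :
    (pre f W).card = W.card * Nat.card f.ker := by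
  rw [card_eq_sum_card_fiberwise (f := f) (t := W) (fun x hx => by simpa [pre] using hx),
    ← smul_eq_mul, ← sum_const]
  refine sum_congr rfl fun i hi => ?_
  rw [← m_fib hf i]
  congr 1
  ext x
  simp only [pre, mem_filter, mem_univ, true_and, and_iff_right_iff_imp]
  rintro rfl
  exact hi

theorem m_ng (W : Finset G) : (ng W).card = W.card :=
  card_equiv (Equiv.neg G) fun x => by simp [ng]

theorem m_dev (f : G →+ Q) (B : Finset G) (W : Finset Q) :
    ng B ∆ pre f (ng W) = ng (B ∆ pre f W) := by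
  ext x
  simp [ng, pre, mem_symmDiff]

omit [Fintype Q] in
theorem m_eq {f : G →+ Q} (hf : Function.Surjective f) {B : Finset G} {W W' : Finset Q}
    (h : (B ∆ pre f W).card + (B ∆ pre f W').card < Nat.card f.ker) : W = W' := by
  ext i
  by_contra hi
  refine absurd h (not_lt.2 ?_)
  rw [← m_fib hf i]
  refine le_trans (card_le_card fun x hx => ?_) (card_union_le _ _)
  simp only [mem_filter, mem_univ, true_and] at hx
  simp only [mem_union, mem_symmDiff, pre, mem_filter, mem_univ, true_and, hx]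
  tauto

/-- the gains when the zero-gain lemma does not apply -/
theorem m_gain (h : ACC.{u, u}) {f : G →+ Q} (hf : Function.Surjective f) {B S : Finset G}
    {W : Finset Q} (h1 : Gam W W (ng W) = 1) (hg : Good W W (ng W)) (hS : S ⊆ B ∆ pre f W)
    (hs : ∀ x ∈ S, ∀ y ∈ S, (x ∈ B ↔ y ∈ B)) (hk : 2 * S.card ≤ Nat.card f.ker)
    (hz : ∀ x ∈ S, ∀ y ∈ S, ex W W (ng W) (f x) = 0 → ex W W (ng W) (f y) = 0 →
      ex (ng W) W W (-f x) = 0 →
      ¬ ((f x = f y ∧ f x + f x ∈ W) ∨ (f x ≠ f y ∧ f x - f y ∈ W))) :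
    Gam B B (ng B) ≤ ((Nat.card f.ker : ℤ) - 3 * (B ∆ pre f W).card) ^ 2 - 4 * (S.card : ℤ) ^ 2 := by
  have key := h G Q f B B (ng B) W W (ng W) hf
  have e1 : ∀ i, 0 ≤ ex W W (ng W) i := fun i => by have := hg.1 i; omega
  have e3 : ∀ i, 0 ≤ ex (ng W) W W i := fun i => by have := hg.2.2 i; omega
  set S0 := S.filter fun x => ex W W (ng W) (f x) = 0 ∧ ex (ng W) W W (-f x) = 0 with hS0
  have s0 : S0 ⊆ S := filter_subset _ _
  have a1 : ∑ x ∈ ng B ∆ pre f (ng W), ex (ng W) W W (f x) =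
      ∑ x ∈ B ∆ pre f W, ex (ng W) W W (-f x) := by
    rw [m_dev]
    exact sum_equiv (Equiv.neg G) (fun x => by simp [ng]) fun x _ => by simp
  have a2 : 4 * ((S.card : ℤ) - S0.card) ≤ ∑ x ∈ B ∆ pre f W, ex W W (ng W) (f x) +
      ∑ x ∈ B ∆ pre f W, ex (ng W) W W (-f x) := by
    rw [← sum_add_distrib]
    refine le_trans ?_ (sum_le_sum_of_subset_of_nonneg ((sdiff_subset : S \ S0 ⊆ S).trans hS)
      fun x _ _ => add_nonneg (e1 _) (e3 _))
    rw [← Nat.cast_sub (card_le_card s0), ← card_sdiff_of_subset s0, mul_comm, ← nsmul_eq_mul]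
    refine card_nsmul_le_sum _ _ _ fun x hx => ?_
    simp only [hS0, mem_sdiff, mem_filter, not_and] at hx
    have b0 := hx.2 hx.1
    have b1 := hg.1 (f x)
    have b3 := hg.2.2 (-f x)
    omega
  have a3 : 0 ≤ ∑ x ∈ B ∆ pre f W, ex W W (ng W) (f x) := sum_nonneg fun x _ => e1 _
  have a4 : (((S0 ×ˢ S0).filter fun p : G × G => f p.1 = f p.2).card : ℤ) ≤
      Fr B (pre f W) B (pre f W) (pre f (ng W)) := by
    refine Nat.cast_le.2 (card_le_card fun p hp => ?_)
    simp only [hS0, mem_filter, mem_product] at hp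
    obtain ⟨⟨⟨b1, b2, b3⟩, b4, b5, -⟩, b6⟩ := hp
    have := hz _ b1 _ b4 b2 b5 b3
    refine mem_filter.2 ⟨mem_product.2 ⟨hS b1, hS b4⟩, fun c => this (Or.inl ⟨b6, ?_⟩)⟩
    have c1 := c.1 (hs _ b1 _ b4)
    simp only [pre, ng, mem_filter, mem_univ, true_and, map_sub, map_neg, ← b6] at c1
    rwa [neg_sub, sub_neg_eq_add] at c1
  have a5 : (((S0 ×ˢ S0).filter fun p : G × G => ¬ f p.1 = f p.2).card : ℤ) ≤
      Fr B (pre f W) (ng B) (pre f (ng W)) (pre f W) := by
    refine Nat.cast_le.2 (card_le_card_of_injOn (fun p => (p.2, -p.1)) (fun p hp => ?_)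
      fun p _ q _ e => ?_)
    · simp only [hS0, coe_filter, mem_product, mem_filter, Set.mem_ofPred_eq] at hp
      obtain ⟨⟨⟨b1, b2, b3⟩, b4, b5, -⟩, b6⟩ := hp
      have := hz _ b1 _ b4 b2 b5 b3
      refine mem_coe.2 (mem_filter.2 ⟨mem_product.2 ⟨hS b4, ?_⟩, fun c => this (Or.inr ⟨b6, ?_⟩)⟩)
      · rw [m_dev]
        simpa [ng] using hS b1
      · have c1 := c.1 (by simpa [ng] using hs _ b4 _ b1)
        simp only [pre, mem_filter, mem_univ, true_and, map_sub, map_neg] at c1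
        rwa [sub_neg_eq_add, neg_add_eq_sub] at c1
    · simp only [Prod.mk.injEq, neg_inj] at e
      exact Prod.ext e.2 e.1
  have a6 := card_filter_add_card_filter_not (s := S0 ×ˢ S0) fun p : G × G => f p.1 = f p.2
  rw [card_product] at a6
  have a7 : 0 ≤ Fr B (pre f W) (ng B) (pre f (ng W)) B := Nat.cast_nonneg _
  have a8 : ∀ X P : Finset G, 0 ≤ NN X P := fun X P => by unfold NN; positivity
  have a9 : sig B B (ng B) (pre f W) (pre f W) (pre f (ng W)) = 3 * (B ∆ pre f W).card := by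
    rw [sig, m_dev, m_ng]
    ring
  have b1 : (S0.card : ℤ) ≤ S.card := Nat.cast_le.2 (card_le_card s0)
  have b2 : 2 * (S.card : ℤ) ≤ Nat.card f.ker := by exact_mod_cast hk
  have b3 : (S0.card : ℤ) * S0.card ≤ Fr B (pre f W) B (pre f W) (pre f (ng W)) +
      Fr B (pre f W) (ng B) (pre f (ng W)) (pre f W) := by
    rw [← Nat.cast_mul, ← a6, Nat.cast_add]
    exact add_le_add a4 a5
  rw [key, a1, a9, h1]
  have b4 := mul_le_mul_of_nonneg_left (a2.trans (le_add_of_nonneg_left a3))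
    (Nat.cast_nonneg (α := ℤ) (Nat.card f.ker))
  have b5 := mul_nonneg (sub_nonneg.2 b1) (show (0 : ℤ) ≤ Nat.card f.ker - S.card - S0.card by
    linarith)
  have := a8 B (pre f W)
  have := a8 (ng B) (pre f (ng W))
  nlinarith

end

theorem mm_thm (h : ACC.{u, u}) (hU : UP.{u}) (hS : SS.{u}) (hZ : ZG.{u}) : MM.{u} := by
  intro G _ _ _ B h2
  obtain ⟨H, P1, P2, P3, s1, s2, s3⟩ := hS G B B (ng B) h2
  have hH : H ≠ ⊥ := by
    rintro rfl
    have : Psi B B (ng B) ⊥ P1 P2 P3 ≤ 1 := by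
      simp only [Psi, sig, AddSubgroup.card_bot]
      omega
    nlinarith
  obtain ⟨Q, _, _, _, f, W, W2, W3, ⟨hf, -, odd, prim, g1, good⟩, p1, p2⟩ :=
    hU G (fun Q _ _ _ _ => hS Q) B B (ng B) (by omega) ⟨H, P1, P2, P3, hH, s1, s2⟩
  obtain rfl : W = W2 := m_eq hf (B := B) (by simp only [Psi, sig] at p1; omega)
  obtain ⟨W3, rfl⟩ : ∃ V, W3 = ng V := ⟨ng W3, by ext; simp [ng]⟩
  simp only [Psi, sig, m_dev, m_ng] at p1 p2
  obtain rfl : W = W3 := m_eq hf (B := B) (by omega)
  rw [m_ng] at odd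
  have ow : Odd W.card := by
    rw [Nat.odd_iff] at odd ⊢
    omega
  have cG : Fintype.card G = Fintype.card Q * Nat.card f.ker := by
    simpa [pre] using m_pre hf univ
  have cP := m_pre hf W
  have c1 : (B ∆ pre f W).card = (B \ pre f W).card + (pre f W \ B).card :=
    card_union_of_disjoint disjoint_sdiff_sdiff
  have c2 := card_sdiff_add_card_inter B (pre f W)
  have c3 := card_sdiff_add_card_inter (pre f W) B
  rw [inter_comm] at c3
  have mp : ∀ x, x ∈ pre f W ↔ f x ∈ W := fun x => by simp [pre]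
  generalize hk : Nat.card f.ker = k at *
  have fin : ∀ s : ℕ, s ≤ (B ∆ pre f W).card → ∀ m : ℕ, s ≤ m →
      Gam B B (ng B) ≤ ((k : ℤ) - 3 * (B ∆ pre f W).card) ^ 2 - 4 * (m : ℤ) ^ 2 →
      5 * s ≤ k ∧ Gam B B (ng B) ≤ ((k : ℤ) - s) * ((k : ℤ) - 5 * s) := by
    intro s d1 m d2 d3
    have d1' : (s : ℤ) ≤ (B ∆ pre f W).card := by exact_mod_cast d1
    have d2' : (s : ℤ) ≤ m := by exact_mod_cast d2
    have d0 : (0 : ℤ) ≤ s := Nat.cast_nonneg s
    have d4 : Gam B B (ng B) ≤ ((k : ℤ) - s) * ((k : ℤ) - 5 * s) := by nlinarith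
    refine ⟨?_, d4⟩
    by_contra d5
    have : (k : ℤ) - 5 * s ≤ 0 := by omega
    have := mul_nonpos_of_nonneg_of_nonpos (show (0 : ℤ) ≤ k - s by omega) this
    omega
  rcases le_total (pre f W \ B).card (B \ pre f W).card with a | a
  · by_cases hz : ∀ x ∈ B \ pre f W, ∀ y ∈ B \ pre f W, ex W W (ng W) (f x) = 0 →
        ex W W (ng W) (f y) = 0 → ex (ng W) W W (-f x) = 0 →
        ¬ ((f x = f y ∧ f x + f x ∈ W) ∨ (f x ≠ f y ∧ f x - f y ∈ W))
    · have := m_gain h hf g1 good (S := B \ pre f W) subset_union_left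
        (fun x hx y hy => iff_of_true (mem_sdiff.1 hx).1 (mem_sdiff.1 hy).1) (by omega) hz
      rw [hk] at this
      exact Or.inl ⟨k, W.card, (B \ pre f W).card - (pre f W \ B).card, ⟨_, by rw [cG, mul_comm]⟩,
        ow, Or.inl (by omega), fin _ (by omega) _ (by omega) this⟩
    · push Not at hz
      obtain ⟨x, hx, y, hy, e1, e2, e3, e4⟩ := hz
      have x0 : f x ∉ W := fun c => (mem_sdiff.1 hx).2 ((mp x).2 c)
      have y0 : f y ∉ W := fun c => (mem_sdiff.1 hy).2 ((mp y).2 c)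
      rcases hZ Q W prim g1 good _ _ (iff_of_false x0 y0) e1 e2 e3 e4 with b | ⟨-, K, -, -, b⟩
      · exact absurd b.1 x0
      have kd : Nat.card K ∣ Fintype.card Q := by
        rw [← Nat.card_eq_fintype_card]
        exact AddSubgroup.card_addSubgroup_dvd_card K
      generalize Nat.card K = d at b kd
      obtain ⟨t, rfl⟩ : ∃ t, d = W.card + t := ⟨d - W.card, by omega⟩
      have t1 : (W.card + t + 1) / 3 = t := by omega
      have t2 : k ≤ t * k := Nat.le_mul_of_pos_left k (by omega)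
      have t3 : 3 * (W.card * k) + k = 2 * ((W.card + t) * k) := by
        rw [← mul_assoc, ← mul_assoc, ← b]
        ring
      refine Or.inr ⟨(W.card + t) * k, W.card + t, cG ▸ Nat.mul_dvd_mul_right kd k,
        dvd_mul_right _ _, ?_, ?_, p2.trans ?_⟩
      · rw [add_mul]
        omega
      · rw [t1, Nat.mul_div_cancel_left _ (by omega), add_mul]
        omega
      · exact pow_le_pow_left₀ (by omega) (by omega) 2
  · by_cases hz : ∀ x ∈ pre f W \ B, ∀ y ∈ pre f W \ B, ex W W (ng W) (f x) = 0 →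
        ex W W (ng W) (f y) = 0 → ex (ng W) W W (-f x) = 0 →
        ¬ ((f x = f y ∧ f x + f x ∈ W) ∨ (f x ≠ f y ∧ f x - f y ∈ W))
    · have := m_gain h hf g1 good (S := pre f W \ B) subset_union_right
        (fun x hx y hy => iff_of_false (mem_sdiff.1 hx).2 (mem_sdiff.1 hy).2) (by omega) hz
      rw [hk] at this
      exact Or.inl ⟨k, W.card, (pre f W \ B).card - (B \ pre f W).card, ⟨_, by rw [cG, mul_comm]⟩,
        ow, Or.inr (by omega), fin _ (by omega) _ (by omega) this⟩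
    · push Not at hz
      obtain ⟨x, hx, y, hy, e1, e2, e3, e4⟩ := hz
      have x0 : f x ∈ W := (mp x).1 (mem_sdiff.1 hx).1
      have y0 : f y ∈ W := (mp y).1 (mem_sdiff.1 hy).1
      rcases hZ Q W prim g1 good _ _ (iff_of_true x0 y0) e1 e2 e3 e4 with ⟨-, b⟩ | b
      swap
      · exact absurd x0 b.1
      have w1 : W.card = 1 := by rw [b, card_singleton]
      rw [w1, one_mul] at cP
      refine Or.inr ⟨k, k, ⟨_, by rw [cG, mul_comm]⟩, dvd_rfl, by omega, ?_, p2.trans ?_⟩
      · rw [Nat.div_self (by omega)]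
        omega
      · rw [← neg_sq (2 * (k : ℤ) - 3 * B.card)]
        exact pow_le_pow_left₀ (by omega) (by omega) 2

theorem ub (h : MM.{u}) : UB.{u} := by
  intro G _ _ _ B
  have n0 : Fintype.card G ≠ 0 := Fintype.card_ne_zero
  have bn : B.card ≤ Fintype.card G := card_le_univ B
  have g1 : ∀ k t s : ℕ, k ∣ Fintype.card G → Odd t → (B.card = t * k + s ∨ B.card + s = t * k) →
      5 * s ≤ k → ((k : ℤ) - s) * ((k : ℤ) - 5 * s) ≤ E (Fintype.card G) B.card := by
    intro k t s a1 a2 a3 a4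
    have k0 : 0 < k := Nat.pos_of_dvd_of_pos a1 (Nat.pos_of_ne_zero n0)
    have d : Nat.dist B.card (t * k) = s := by
      unfold Nat.dist
      omega
    have tn : t ≤ Fintype.card G := by
      by_contra c
      have c1 : (Fintype.card G + 1) * k ≤ t * k := Nat.mul_le_mul_right k (by omega)
      have c2 : Fintype.card G ≤ Fintype.card G * k := Nat.le_mul_of_pos_right _ k0
      rw [add_mul] at c1
      omega
    have e : ((k : ℤ) - s) * ((k : ℤ) - 5 * s) = ((k - s) * (k - 5 * s) : ℕ) := by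
      rw [Nat.cast_mul, Nat.cast_sub a4, Nat.cast_sub (by omega)]
      push_cast
      ring
    rw [e, Nat.cast_le, ← d]
    refine le_max_of_le_left (le_sup (f := fun p : ℕ × ℕ => (p.1 - Nat.dist B.card (p.2 * p.1)) *
      (p.1 - 5 * Nat.dist B.card (p.2 * p.1))) (b := (k, t)) ?_)
    simp only [mem_filter, mem_product, Nat.mem_divisors, mem_range, d]
    exact ⟨⟨⟨a1, n0⟩, by omega⟩, a2, a4⟩
  rcases le_or_gt 2 (Gam B B (ng B)) with a | a
  · rcases h G B a with ⟨k, t, s, a1, a2, a3, a4, a5⟩ | ⟨N, d, a1, a2, a3, a4, a5⟩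
    · exact a5.trans (g1 k t s a1 a2 a3 a4)
    · have e : (2 * (N : ℤ) - 3 * B.card) ^ 2 = (Nat.dist (2 * N) (3 * B.card) ^ 2 : ℕ) := by
        rw [Nat.cast_pow, sq_eq_sq_iff_eq_or_eq_neg]
        unfold Nat.dist
        omega
      refine a5.trans ?_
      rw [e, Nat.cast_le]
      refine le_max_of_le_right (le_sup (f := fun p : ℕ × ℕ => Nat.dist (2 * p.1) (3 * B.card) ^ 2)
        (b := (N, d)) ?_)
      simp only [mem_filter, mem_product, Nat.mem_divisors]
      exact ⟨⟨⟨a1, n0⟩, a2.trans a1, n0⟩, a2, a3, a4⟩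
  · rcases Nat.even_or_odd B.card with ⟨t, b⟩ | b
    · have : Gam B B (ng B) = 4 * (T B B (ng B) - 3 * (t : ℤ) ^ 2) := by
        rw [Gam, m_ng, b]
        push_cast
        ring
      omega
    · have := g1 1 B.card 0 (one_dvd _) b (Or.inl (by simp)) (by simp)
      omega

end Pool.Agent.MP_ed46bc_co.SP
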