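import Pool.Agent.MP_ed46bc_co.SP.Spec

/-!
# Row ACC: the accounting identity
-/

set_option linter.unusedSectionVars false

namespace Pool.Agent.MP_ed46bc_co.SP

open Finset
open scoped symmDiff

universe u v

section

variable {G : Type u} [AddCommGroup G] [Fintype G] [DecidableEq G]
variable {Q : Type v} [AddCommGroup Q] [Fintype Q] [DecidableEq Q]

theorem acc_swap12 (f g h : G → ℤ) : T3 f g h = T3 g f h := by
  unfold T3
  rw [sum_comm]
  refine sum_congr rfl fun x _ => sum_congr rfl fun y _ => ?_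
  rw [show -y - x = -x - y by abel]
  ring

theorem acc_swap23 (f g h : G → ℤ) : T3 f g h = T3 f h g := by
  unfold T3
  refine sum_congr rfl fun x _ => ?_
  refine (Equiv.sum_comp (Equiv.subLeft (-x)) _).symm.trans (sum_congr rfl fun y _ => ?_)
  simp only [Equiv.subLeft_apply, sub_sub_cancel]
  ring

theorem acc_expand (a b c p q r : G → ℤ) :
    T3 a b c = T3 p q r + T3 (a - p) q r + T3 p (b - q) r + T3 p q (c - r) +
      T3 (a - p) (b - q) r + T3 (a - p) b (c - r) + T3 p (b - q) (c - r) := by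
  unfold T3
  simp only [← sum_add_distrib, Pi.sub_apply]
  exact sum_congr rfl fun x _ => sum_congr rfl fun y _ => by ring

theorem acc_card (A : Finset G) : (A.card : ℤ) = ∑ x, ind A x := by
  simp [ind]

theorem acc_ind_pre (f : G →+ Q) (W : Finset Q) (x : G) : ind (pre f W) x = ind W (f x) := by
  simp [ind, pre]

theorem acc_sum_comp {f : G →+ Q} (hf : Function.Surjective f) (g : Q → ℤ) :
    ∑ x, g (f x) = (Nat.card f.ker : ℤ) * ∑ i, g i := by
  have h0 : Nat.card f.ker = (univ.filter fun x => f x = 0).card := by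
    rw [Nat.card_eq_fintype_card, Fintype.card_subtype]
    simp [AddMonoidHom.mem_ker]
  rw [← sum_fiberwise univ f fun x => g (f x), mul_sum]
  refine sum_congr rfl fun i _ => ?_
  rw [sum_congr rfl fun x hx => by rw [(mem_filter.1 hx).2], sum_const, h0,
    AddMonoidHom.card_fiber_eq_of_mem_range f (hf i) (hf 0), nsmul_eq_mul]

theorem acc_card_pre {f : G →+ Q} (hf : Function.Surjective f) (W : Finset Q) :
    ((pre f W).card : ℤ) = (Nat.card f.ker : ℤ) * W.card := by
  rw [acc_card, acc_card, ← acc_sum_comp hf]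
  simp only [acc_ind_pre]

theorem acc_L_pre {f : G →+ Q} (hf : Function.Surjective f) (V W : Finset Q) (x : G) :
    L (pre f V) (pre f W) x = (Nat.card f.ker : ℤ) * L V W (f x) := by
  unfold L
  rw [← acc_sum_comp hf]
  simp only [acc_ind_pre, map_sub, map_neg]

theorem acc_T3_L (a : G → ℤ) (B C : Finset G) :
    T3 a (ind B) (ind C) = ∑ x, a x * L B C x := by
  simp only [T3, L, mul_sum, mul_assoc]

theorem acc_T_pre {f : G →+ Q} (hf : Function.Surjective f) (U V W : Finset Q) :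
    T (pre f U) (pre f V) (pre f W) = (Nat.card f.ker : ℤ) ^ 2 * T U V W := by
  rw [T, T, acc_T3_L, acc_T3_L, sq, mul_assoc, mul_sum, ← acc_sum_comp hf]
  refine sum_congr rfl fun x _ => ?_
  rw [acc_ind_pre, acc_L_pre hf]
  ring

theorem acc_sum_symm (X P : Finset G) (g : G → ℤ) :
    ∑ x ∈ X ∆ P, g x = ∑ x, if x ∈ X ∆ P then g x else 0 := by
  rw [sum_ite_mem, univ_inter]

theorem acc_first {f : G →+ Q} (hf : Function.Surjective f) (A : Finset G) (U V W : Finset Q) :
    4 * T3 (ind A - ind (pre f U)) (ind (pre f V)) (ind (pre f W))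
      - 2 * ((A.card : ℤ) - (pre f U).card) *
        ((Nat.card f.ker : ℤ) * ((V.card : ℤ) + W.card - U.card)) =
      -(Nat.card f.ker : ℤ) * ∑ x ∈ A ∆ pre f U, ex U V W (f x)
        - 2 * (Nat.card f.ker : ℤ) * (A ∆ pre f U).card := by
  rw [acc_T3_L, acc_card A, acc_card (pre f U), acc_card (A ∆ pre f U), acc_sum_symm,
    ← sum_sub_distrib, mul_sum, mul_sum, mul_sum, mul_sum, sum_mul, ← sum_sub_distrib,
    ← sum_sub_distrib]
  refine sum_congr rfl fun x _ => ?_
  rw [acc_L_pre hf]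
  have hp : x ∈ pre f U ↔ f x ∈ U := by simp [pre]
  by_cases h1 : x ∈ A <;> by_cases h2 : f x ∈ U <;>
    simp [ind, ex, mem_symmDiff, hp, h1, h2] <;> ring

theorem acc_pair (X P Y P' Z : Finset G) :
    4 * T3 (ind X - ind P) (ind Y - ind P') (ind Z)
      - 2 * (((X.card : ℤ) - P.card) * ((Y.card : ℤ) - P'.card)) =
      2 * (((X ∆ P).card : ℤ) * (Y ∆ P').card) - 4 * Fr X P Y P' Z := by
  have hF : Fr X P Y P' Z = ∑ x, ∑ y, ind (X ∆ P) x * ind (Y ∆ P') y *
      if (x ∈ X ↔ y ∈ Y) ↔ -x - y ∈ Z then 0 else 1 := by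
    rw [Fr, card_filter, Nat.cast_sum, sum_product, acc_sum_symm]
    refine sum_congr rfl fun x _ => ?_
    rw [acc_sum_symm]
    by_cases hx : x ∈ X ∆ P
    · rw [if_pos hx]
      refine sum_congr rfl fun y _ => ?_
      by_cases hy : y ∈ Y ∆ P' <;> by_cases h : (x ∈ X ↔ y ∈ Y) ↔ -x - y ∈ Z <;>
        simp [ind, hx, hy, h]
    · simp [ind, hx]
  rw [hF, T3, acc_card X, acc_card P, acc_card Y, acc_card P', acc_card (X ∆ P),
    acc_card (Y ∆ P'), ← sum_sub_distrib, ← sum_sub_distrib, sum_mul_sum, sum_mul_sum]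
  simp only [mul_sum, ← sum_sub_distrib]
  refine sum_congr rfl fun x _ => sum_congr rfl fun y _ => ?_
  by_cases h1 : x ∈ X <;> by_cases h2 : x ∈ P <;> by_cases h3 : y ∈ Y <;>
    by_cases h4 : y ∈ P' <;> by_cases h5 : -x - y ∈ Z <;>
    simp [ind, mem_symmDiff, h1, h2, h3, h4, h5]

theorem acc_sq (X P : Finset G) :
    ((X.card : ℤ) - P.card) ^ 2 = ((X ∆ P).card : ℤ) ^ 2 - 4 * NN X P := by
  have h1 : ((X.card : ℤ) - P.card) = ((X \ P).card : ℤ) - (P \ X).card := by
    simp only [acc_card, ← sum_sub_distrib]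
    refine sum_congr rfl fun x _ => ?_
    by_cases h1 : x ∈ X <;> by_cases h2 : x ∈ P <;> simp [ind, h1, h2]
  have h2 : ((X ∆ P).card : ℤ) = ((X \ P).card : ℤ) + (P \ X).card := by
    simp only [acc_card, ← sum_add_distrib]
    refine sum_congr rfl fun x _ => ?_
    by_cases h1 : x ∈ X <;> by_cases h2 : x ∈ P <;> simp [ind, mem_symmDiff, h1, h2]
  rw [h1, h2, NN]
  ring

end

theorem acc : ACC.{u, v} := by
  intro G _ _ _ Q _ _ _ f A B C W₁ W₂ W₃ hf
  have e := acc_expand (ind A) (ind B) (ind C) (ind (pre f W₁)) (ind (pre f W₂)) (ind (pre f W₃))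
  have t := acc_T_pre hf W₁ W₂ W₃
  have f1 := acc_first hf A W₁ W₂ W₃
  have f2 := acc_first hf B W₂ W₁ W₃
  have f3 := acc_first hf C W₃ W₁ W₂
  rw [acc_swap12] at f2
  rw [acc_swap12, acc_swap23] at f3
  have p12 := acc_pair A (pre f W₁) B (pre f W₂) (pre f W₃)
  have p13 := acc_pair A (pre f W₁) C (pre f W₃) B
  have p23 := acc_pair B (pre f W₂) C (pre f W₃) (pre f W₁)
  rw [acc_swap23] at p13
  rw [acc_swap23, acc_swap12] at p23
  have s1 := acc_sq A (pre f W₁)
  have s2 := acc_sq B (pre f W₂)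
  have s3 := acc_sq C (pre f W₃)
  rw [acc_card_pre hf] at f1 f2 f3 s1 s2 s3
  rw [acc_card_pre hf, acc_card_pre hf] at p12 p13 p23
  rw [T] at t
  rw [Gam, Gam, T, sig]
  linear_combination 4 * e + 4 * t + f1 + f2 + f3 + p12 + p13 + p23 + s1 + s2 + s3

end Pool.Agent.MP_ed46bc_co.SP
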