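import Pool.Agent.MP_ed46bc_co.SP.Spec

/-! Rows C1 and C2: the two constructions. -/

namespace Pool.Agent.MP_ed46bc_co.SP

open Finset
open scoped symmDiff

universe u v

set_option linter.unusedSectionVars false

section Aux

variable {G : Type u} [AddCommGroup G] [Fintype G] [DecidableEq G]
variable {Q : Type v} [AddCommGroup Q] [Fintype Q] [DecidableEq Q]

lemma c12_mem_ng (W : Finset G) (x : G) : x ∈ ng W ↔ -x ∈ W := by simp [ng]

lemma c12_mem_pre (f : G →+ Q) (W : Finset Q) (x : G) : x ∈ pre f W ↔ f x ∈ W := by simp [pre]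

lemma c12_card_ng (W : Finset G) : (ng W).card = W.card :=
  card_bij (fun x _ => -x) (fun x hx => (c12_mem_ng W x).1 hx)
    (fun x _ y _ h => neg_injective h)
    (fun y hy => ⟨-y, (c12_mem_ng W _).2 (by rwa [neg_neg]), neg_neg y⟩)

lemma c12_fib (f : G →+ Q) (hf : Function.Surjective f) (i : Q) :
    (univ.filter fun x => f x = i).card = Nat.card f.ker := by
  obtain ⟨a, rfl⟩ := hf i
  have h : Nat.card f.ker = (univ.filter fun x => f x = 0).card := by
    rw [Nat.card_eq_fintype_card, ← Fintype.card_subtype]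
    exact Fintype.card_congr (Equiv.refl _)
  rw [h]
  refine card_bij (fun x _ => x - a) (fun x hx => ?_) (fun x _ y _ h => sub_left_injective h)
    (fun y hy => ⟨y + a, ?_, add_sub_cancel_right y a⟩)
  · simp only [mem_filter, mem_univ, true_and] at hx ⊢
    rw [map_sub, hx, sub_self]
  · simp only [mem_filter, mem_univ, true_and] at hy ⊢
    rw [map_add, hy, zero_add]

lemma c12_card_pre (f : G →+ Q) (hf : Function.Surjective f) (W : Finset Q) :
    (pre f W).card = W.card * Nat.card f.ker := by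
  rw [card_eq_sum_card_fiberwise (f := f) (t := W) fun x hx => (c12_mem_pre f W x).1 hx]
  rw [← smul_eq_mul, ← sum_const]
  refine sum_congr rfl fun i hi => ?_
  rw [← c12_fib f hf i]
  congr 1
  ext x
  simp only [mem_filter, mem_univ, true_and, c12_mem_pre]
  exact ⟨fun h => h.2, fun h => ⟨h ▸ hi, h⟩⟩

lemma c12_ker {k : ℕ} (f : G →+ Q) (hf : Function.Surjective f)
    (h : Fintype.card G = k * Fintype.card Q) : Nat.card f.ker = k := by
  have h1 := c12_card_pre f hf univ
  have h2 : pre f univ = univ := by ext x; simp [c12_mem_pre]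
  rw [h2, card_univ, card_univ, h, mul_comm] at h1
  exact (Nat.eq_of_mul_eq_mul_left Fintype.card_pos h1).symm

lemma c12_Fr_le (X P Y P' Z : Finset G) :
    Fr X P Y P' Z ≤ ((X ∆ P).card : ℤ) * (Y ∆ P').card := by
  unfold Fr
  rw [← Nat.cast_mul, ← card_product]
  exact_mod_cast card_filter_le _ _

lemma c12_Fr_zero (X P Y P' Z : Finset G)
    (h : ∀ x ∈ X ∆ P, ∀ y ∈ Y ∆ P', ((x ∈ X ↔ y ∈ Y) ↔ -x - y ∈ Z)) : Fr X P Y P' Z = 0 := by
  unfold Fr
  rw [filter_eq_empty_iff.2, card_empty, Nat.cast_zero]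
  intro p hp
  rw [mem_product] at hp
  exact not_not.2 (h _ hp.1 _ hp.2)

end Aux

lemma c12_core (h : ACC.{u, 0}) {K : Type u} [AddCommGroup K] [Fintype K] [DecidableEq K]
    {Q : Type} [AddCommGroup Q] [Fintype Q] [DecidableEq Q] (p : K →+ Q)
    (hp : Function.Surjective p) (W : Finset Q) (h0 : (0 : Q) ∈ W) (hG : 1 ≤ Gam W W (ng W))
    (i : Q) (S : Finset K) (hS : ∀ x ∈ S, p x = i)
    (he : S.Nonempty → ex W W (ng W) i ≤ 0 ∧ ex (ng W) W W (-i) ≤ 0) :
    ((Nat.card p.ker : ℤ) - S.card) * ((Nat.card p.ker : ℤ) - 5 * S.card) ≤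
      Gam (pre p W ∆ S) (pre p W ∆ S) (ng (pre p W ∆ S)) := by
  set P := pre p W with hP
  set B := P ∆ S with hB
  have mP : ∀ x, x ∈ P ↔ p x ∈ W := c12_mem_pre p W
  have mN : ∀ x, x ∈ pre p (ng W) ↔ -x ∈ P := fun x => by
    rw [c12_mem_pre, c12_mem_ng, mP, map_neg]
  have mB : ∀ x, x ∈ B ↔ (x ∈ P ∧ x ∉ S ∨ x ∈ S ∧ x ∉ P) := fun x => mem_symmDiff
  have e1 : B ∆ P = S := by rw [hB, symmDiff_comm P S, symmDiff_symmDiff_cancel_right]
  have e3 : ng B ∆ pre p (ng W) = ng S := by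
    ext x
    rw [mem_symmDiff, c12_mem_ng, c12_mem_ng, mN, mB]
    tauto
  have mS : ∀ x ∈ S, (x ∈ B ↔ i ∉ W) := fun x hx => by
    rw [mB, mP, hS x hx]; tauto
  have mS' : ∀ z ∈ ng S, (z ∈ ng B ↔ i ∉ W) := fun z hz => by
    rw [c12_mem_ng]; exact mS _ ((c12_mem_ng S z).1 hz)
  have pz : ∀ x ∈ S, ∀ z ∈ ng S, p (-x - z) = 0 := fun x hx z hz => by
    have h1 := hS _ ((c12_mem_ng S z).1 hz)
    rw [sub_eq_add_neg, map_add, h1, map_neg, hS x hx, neg_add_cancel]
  have n1 : NN B P = 0 := by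
    unfold NN
    by_cases hi : i ∈ W
    · have : B \ P = ∅ := by
        refine eq_empty_of_forall_notMem fun x hx => ?_
        rw [mem_sdiff, mB] at hx
        have hx' : x ∈ S := by tauto
        exact hx.2 ((mP x).2 (hS x hx' ▸ hi))
      rw [this]; simp
    · have : P \ B = ∅ := by
        refine eq_empty_of_forall_notMem fun x hx => ?_
        rw [mem_sdiff, mB] at hx
        have hx' : x ∈ S := by tauto
        exact hi (hS x hx' ▸ (mP x).1 hx.1)
      rw [this]; simp
  have n3 : NN (ng B) (pre p (ng W)) = 0 := by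
    unfold NN
    by_cases hi : i ∈ W
    · have : ng B \ pre p (ng W) = ∅ := by
        refine eq_empty_of_forall_notMem fun x hx => ?_
        rw [mem_sdiff, c12_mem_ng, mN, mB] at hx
        have hx' : -x ∈ S := by tauto
        exact hx.2 ((mP _).2 (hS _ hx' ▸ hi))
      rw [this]; simp
    · have : pre p (ng W) \ ng B = ∅ := by
        refine eq_empty_of_forall_notMem fun x hx => ?_
        rw [mem_sdiff, c12_mem_ng, mN, mB] at hx
        have hx' : -x ∈ S := by tauto
        exact hi (hS _ hx' ▸ (mP _).1 hx.1)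
      rw [this]; simp
  have f23 : Fr B P (ng B) (pre p (ng W)) P = 0 := by
    refine c12_Fr_zero _ _ _ _ _ fun x hx z hz => ?_
    rw [e1] at hx; rw [e3] at hz
    rw [mS x hx, mS' z hz, mP, pz x hx z hz]
    tauto
  have f1 : Fr B P B P (pre p (ng W)) + Fr B P (ng B) (pre p (ng W)) B ≤ (S.card : ℤ) ^ 2 := by
    by_cases hi : i = 0
    · have a1 : Fr B P B P (pre p (ng W)) = 0 := by
        refine c12_Fr_zero _ _ _ _ _ fun x hx y hy => ?_
        rw [e1] at hx hy
        have : p (-(-x - y)) = 0 := by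
          rw [map_neg, map_sub, map_neg, hS x hx, hS y hy, hi]; simp
        rw [mS x hx, mS y hy, mN, mP, this]
        tauto
      have a2 := c12_Fr_le B P (ng B) (pre p (ng W)) B
      rw [e1, e3, c12_card_ng] at a2
      rw [a1, sq]; linarith
    · have a1 : Fr B P (ng B) (pre p (ng W)) B = 0 := by
        refine c12_Fr_zero _ _ _ _ _ fun x hx z hz => ?_
        rw [e1] at hx; rw [e3] at hz
        have h1 := pz x hx z hz
        have h2 : -x - z ∉ S := fun hh => hi (by rw [← hS _ hh, h1])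
        rw [mS x hx, mS' z hz, mB, mP, h1]
        tauto
      have a2 := c12_Fr_le B P B P (pre p (ng W))
      rw [e1] at a2
      rw [a1, sq]; linarith
  have s1 : ∑ x ∈ S, ex W W (ng W) (p x) ≤ 0 :=
    sum_nonpos fun x hx => by rw [hS x hx]; exact (he ⟨x, hx⟩).1
  have s3 : ∑ x ∈ ng S, ex (ng W) W W (p x) ≤ 0 :=
    sum_nonpos fun x hx => by
      have h1 := (c12_mem_ng S x).1 hx
      have h2 := hS _ h1
      rw [map_neg, neg_eq_iff_eq_neg] at h2
      rw [h2]; exact (he ⟨_, h1⟩).2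
  have hs : sig B B (ng B) P P (pre p (ng W)) = 3 * S.card := by
    unfold sig
    rw [e1, e3, c12_card_ng]; ring
  have hA := h K Q p B B (ng B) W W (ng W) hp
  rw [← hP, hs, e1, e3, n1, n3, f23] at hA
  rw [hA]
  have k0 : (0 : ℤ) ≤ Nat.card p.ker := Nat.cast_nonneg _
  have a1 := mul_nonneg k0 (neg_nonneg.2 s1)
  have a3 := mul_nonneg k0 (neg_nonneg.2 s3)
  have a4 := mul_le_mul_of_nonneg_left hG (sq_nonneg (Nat.card p.ker : ℤ))
  nlinarith

theorem c1 (h : ACC.{u, 0}) (hI : INT) : C1.{u} := by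
  intro K _ _ _ k j p hp hc t s ht hs
  have hj : j ≠ 0 := by
    rintro rfl
    simp at hc
  have hk0 : 0 < k := Nat.pos_of_ne_zero (by
    rintro rfl
    simp at hc)
  have : NeZero j := ⟨hj⟩
  have hk : Nat.card p.ker = k := c12_ker p hp (by rw [hc, ZMod.card])
  obtain ⟨m, rfl⟩ := ht
  have hex : ∀ i : ZMod j, ∃ S : Finset K, (∀ x ∈ S, p x = i) ∧ S.card = s := fun i => by
    obtain ⟨S, h1, h2⟩ := exists_subset_card_eq (s := univ.filter fun x => p x = i) (n := s)
      (by rw [c12_fib p hp, hk]; exact hs)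
    exact ⟨S, fun x hx => (mem_filter.1 (h1 hx)).2, h2⟩
  constructor
  · intro hle
    have h1 : 2 * m + 1 ≤ j := Nat.le_of_mul_le_mul_right (le_trans (Nat.le_add_right _ _) hle) hk0
    obtain ⟨W, cW, h0, hG, ha, -⟩ := hI j m h1
    rcases Nat.eq_zero_or_pos s with rfl | hs0
    · have := c12_core h p hp W h0 hG 0 ∅ (by simp) (by simp)
      rw [hk, card_empty] at this
      refine ⟨_, ?_, this⟩
      have e : pre p W ∆ ∅ = pre p W := by ext x; simp [mem_symmDiff]
      rw [e, c12_card_pre p hp, cW, hk, add_zero]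
    · have h2 : 2 * m + 1 < j := Nat.lt_of_mul_lt_mul_right (a := k) (by omega)
      obtain ⟨i, hi, he⟩ := ha h2
      obtain ⟨S, hS, cS⟩ := hex i
      have := c12_core h p hp W h0 hG i S hS fun _ => he
      rw [hk, cS] at this
      refine ⟨_, ?_, this⟩
      have hd : Disjoint (pre p W) S :=
        disjoint_left.2 fun x hx hx' => hi (hS x hx' ▸ (c12_mem_pre p W x).1 hx)
      rw [hd.symmDiff_eq_sup, sup_eq_union, card_union_of_disjoint hd, c12_card_pre p hp, cW, hk,
        cS]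
  · intro hlt
    obtain ⟨W, cW, h0, hG, -, hb⟩ := hI j m (by omega)
    obtain ⟨i, hi, he1, he2, -⟩ := hb hlt
    obtain ⟨S, hS, cS⟩ := hex i
    have := c12_core h p hp W h0 hG i S hS fun _ => ⟨he1, he2⟩
    rw [hk, cS] at this
    refine ⟨_, ?_, this⟩
    have hsub : S ⊆ pre p W := fun x hx => (c12_mem_pre p W x).2 (hS x hx ▸ hi)
    rw [symmDiff_of_ge hsub, ← cS, card_sdiff_add_card_eq_card hsub, c12_card_pre p hp, cW, hk]

lemma c12_compl {K : Type u} [AddCommGroup K] [Fintype K] [DecidableEq K] (A : Finset K)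
    (hA : ∀ x ∈ A, ∀ y ∈ A, x + y ∉ A) :
    T Aᶜ Aᶜ (ng Aᶜ) = (Fintype.card K : ℤ) ^ 2 - 3 * Fintype.card K * A.card
      + 3 * (A.card : ℤ) ^ 2 := by
  have i1 : ∑ x, ind A x = A.card := by simp [ind]
  have i2 : ∀ x, ∑ y, ind A (x + y) = A.card := fun x => by
    rw [← i1]; exact Equiv.sum_comp (Equiv.addLeft x) (ind A)
  have i3 : ∀ y, ∑ x, ind A (x + y) = A.card := fun y => by
    rw [← i1]; exact Equiv.sum_comp (Equiv.addRight y) (ind A)
  have e : ∀ x y, ind Aᶜ x * ind Aᶜ y * ind (ng Aᶜ) (-x - y) =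
      ((1 - ind A x) * (1 - ind A y) - (1 - ind A x) * ind A (x + y)) + ind A y * ind A (x + y) := by
    intro x y
    have h1 : -x - y ∈ ng Aᶜ ↔ x + y ∉ A := by
      rw [c12_mem_ng, mem_compl, neg_sub, sub_neg_eq_add, add_comm]
    have h2 := hA x
    unfold ind
    simp only [h1, mem_compl]
    by_cases a : x ∈ A <;> by_cases b : y ∈ A <;> by_cases c : x + y ∈ A <;> simp_all
  unfold T T3
  simp only [e, sum_add_distrib]
  rw [sum_comm (f := fun x y => ind A y * ind A (x + y))]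
  simp only [sum_sub_distrib, ← mul_sum, ← sum_mul, i1, i2, i3, sum_const, card_univ,
    nsmul_eq_mul, mul_one]
  ring

theorem c2 : C2.{u} := by
  intro K _ _ _ k j p hp hc b hb hq
  have hj : j ≠ 0 := by
    rintro rfl
    simp at hc
  have : NeZero j := ⟨hj⟩
  have hk : Nat.card p.ker = k := c12_ker p hp (by rw [hc, ZMod.card])
  set q := (j + 1) / 3 with hq'
  set M : Finset (ZMod j) := (Ico q (2 * q)).image (fun a : ℕ => (a : ZMod j)) with hM
  have cM : M.card = q := by
    rw [hM, card_image_of_injOn, Nat.card_Ico]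
    · omega
    · intro a ha c hc' hac
      rw [mem_coe, mem_Ico] at ha hc'
      have := (ZMod.natCast_eq_natCast_iff' a c j).1 hac
      rwa [Nat.mod_eq_of_lt (by omega), Nat.mod_eq_of_lt (by omega)] at this
  have sM : ∀ x ∈ M, ∀ y ∈ M, x + y ∉ M := by
    intro x hx y hy hz
    obtain ⟨a, ha, rfl⟩ := mem_image.1 hx
    obtain ⟨c, hc', rfl⟩ := mem_image.1 hy
    obtain ⟨d, hd, e⟩ := mem_image.1 hz
    rw [mem_Ico] at ha hc' hd
    rw [← Nat.cast_add, ZMod.natCast_eq_natCast_iff] at e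
    have h1 := (Nat.modEq_iff_dvd' (by omega)).1 e
    have h2 := Nat.le_of_dvd (by omega) h1
    omega
  obtain ⟨A, hA, cA⟩ := exists_subset_card_eq (s := pre p M) (n := k * j - b)
    (by rw [c12_card_pre p hp, cM, hk]; omega)
  have sA : ∀ x ∈ A, ∀ y ∈ A, x + y ∉ A := fun x hx y hy hz =>
    sM _ ((c12_mem_pre p M x).1 (hA hx)) _ ((c12_mem_pre p M y).1 (hA hy))
      (by rw [← map_add]; exact (c12_mem_pre p M _).1 (hA hz))
  have cB : Aᶜ.card = b := by rw [card_compl, hc, cA]; omega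
  refine ⟨Aᶜ, cB, le_of_eq ?_⟩
  unfold Gam
  rw [c12_compl A sA, c12_card_ng, cB, cA, hc]
  push_cast [Nat.cast_sub hb]
  ring

end Pool.Agent.MP_ed46bc_co.SP
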