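import Pool.Agent.MP_ed46bc_co.SP.Basic

/-! Intervals in a cyclic group. -/

namespace Pool.Agent.MP_ed46bc_co.SP

open Finset

/-- The symmetric interval. -/
noncomputable def intW (j h : ℕ) [NeZero j] : Finset (ZMod j) :=
  (Icc (-(h : ℤ)) h).image Int.cast

variable {j h : ℕ} [NeZero j]

theorem int_mem {x : ZMod j} : x ∈ intW j h ↔ ∃ a : ℤ, -(h : ℤ) ≤ a ∧ a ≤ h ∧ (a : ZMod j) = x := by
  simp [intW, and_assoc]

omit [NeZero j] in
theorem int_eq {a b : ℤ} (e : (a : ZMod j) = b) (h1 : b - a < j) (h2 : a - b < j) : a = b := by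
  have := Int.eq_zero_of_abs_lt_dvd ((ZMod.intCast_eq_intCast_iff_dvd_sub _ _ _).1 e)
    (abs_lt.2 ⟨by linarith, h1⟩)
  omega

theorem int_ng : ng (intW j h) = intW j h := by
  ext x
  rw [mem_ng, int_mem, int_mem]
  constructor <;> rintro ⟨a, h1, h2, e⟩ <;> refine ⟨-a, by omega, by omega, ?_⟩
  · rw [Int.cast_neg, e, neg_neg]
  · rw [Int.cast_neg, e]

omit [NeZero j] in
theorem int_card (hj : 2 * h + 1 ≤ j) {a b : ℤ} (ha : -(h : ℤ) ≤ a) (hb : b ≤ h) :
    ((Icc a b).image (Int.cast : ℤ → ZMod j)).card = (b + 1 - a).toNat := by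
  rw [card_image_of_injOn, Int.card_Icc]
  intro x hx y hy e
  simp only [coe_Icc, Set.mem_Icc] at hx hy
  exact int_eq e (by omega) (by omega)

theorem int_low (hj : 2 * h + 1 ≤ j) (a : ℤ) :
    2 * (h : ℤ) + 1 - |a| ≤ L (intW j h) (intW j h) (a : ZMod j) := by
  have : (Icc (max (-(h : ℤ)) (-h - a)) (min (h : ℤ) (h - a))).image (Int.cast : ℤ → ZMod j) ⊆
      (intW j h).filter fun y => -(a : ZMod j) - y ∈ intW j h := by
    intro y hy
    obtain ⟨b, hb, rfl⟩ := mem_image.1 hy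
    rw [mem_Icc] at hb
    exact mem_filter.2 ⟨int_mem.2 ⟨b, by omega, by omega, rfl⟩,
      int_mem.2 ⟨-a - b, by omega, by omega, by push_cast; rfl⟩⟩
  have h2 := card_le_card this
  rw [int_card hj (le_max_left _ _) (min_le_left _ _)] at h2
  rw [L_eq_card]
  rcases abs_cases a with h3 | h3 <;> omega

theorem int_up (hj : 3 * (2 * h + 1) < 2 * j) {a : ℤ} (h1 : -(h : ℤ) ≤ a) (h2 : a ≤ h) :
    L (intW j h) (intW j h) (a : ZMod j) ≤ 2 * (h : ℤ) + 1 - |a| := by
  have : ((intW j h).filter fun y => -(a : ZMod j) - y ∈ intW j h) ⊆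
      (Icc (max (-(h : ℤ)) (-h - a)) (min (h : ℤ) (h - a))).image (Int.cast : ℤ → ZMod j) := by
    intro y hy
    obtain ⟨hy, hc⟩ := mem_filter.1 hy
    obtain ⟨b, b1, b2, rfl⟩ := int_mem.1 hy
    obtain ⟨c, c1, c2, e⟩ := int_mem.1 hc
    have : c = -a - b := int_eq (j := j) (by rw [e]; push_cast; rfl) (by omega) (by omega)
    exact mem_image.2 ⟨b, mem_Icc.2 ⟨by omega, by omega⟩, rfl⟩
  have h3 := card_le_card this
  rw [int_card (h := h) (by omega) (le_max_left _ _) (min_le_left _ _)] at h3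
  rw [L_eq_card]
  rcases abs_cases a with h4 | h4 <;> omega

theorem int_sum (h : ℕ) : ∑ a ∈ Icc (-(h : ℤ)) h, |a| = h * (h + 1) := by
  induction h with
  | zero => simp
  | succ n ih =>
    have : Icc (-((n + 1 : ℕ) : ℤ)) (n + 1 : ℕ) =
        insert (-((n : ℤ) + 1)) (insert ((n : ℤ) + 1) (Icc (-(n : ℤ)) n)) := by
      ext x
      simp only [mem_insert, mem_Icc]
      omega
    rw [this, sum_insert (by simp only [mem_insert, mem_Icc]; omega),
      sum_insert (by simp only [mem_Icc]; omega), ih, abs_neg, abs_of_nonneg (by positivity)]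
    push_cast
    ring

theorem int_thm : INT := by
  intro j h _ hj
  have hc : (intW j h).card = 2 * h + 1 := by
    rw [intW, int_card hj le_rfl le_rfl]
    omega
  have hh : |(h : ℤ)| = h := abs_of_nonneg (by positivity)
  have hh1 : |(h : ℤ) + 1| = h + 1 := abs_of_nonneg (by positivity)
  refine ⟨intW j h, hc, int_mem.2 ⟨0, by omega, by omega, by simp⟩, ?_, fun h1 => ?_,
    fun h1 => ?_⟩
  · have h1 : ∑ a ∈ Icc (-(h : ℤ)) h, (2 * (h : ℤ) + 1 - |a|) ≤
        T (intW j h) (intW j h) (intW j h) := by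
      rw [T_eq_sum_L]
      refine (sum_le_sum fun a _ => int_low hj a).trans (le_of_eq (Eq.symm (sum_image ?_)))
      intro x hx y hy e
      simp only [coe_Icc, Set.mem_Icc] at hx hy
      exact int_eq e (by omega) (by omega)
    rw [sum_sub_distrib, int_sum, sum_const, Int.card_Icc,
      show ((h : ℤ) + 1 - -h).toNat = 2 * h + 1 by omega] at h1
    rw [int_ng, Gam, hc]
    simp only [nsmul_eq_mul] at h1
    push_cast at h1 ⊢
    nlinarith
  · have key : ∀ a : ℤ, |a| = h + 1 → (a : ZMod j) ∉ intW j h ∧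
        ex (intW j h) (intW j h) (intW j h) (a : ZMod j) ≤ 0 := fun a ha => by
      have hn : (a : ZMod j) ∉ intW j h := fun hm => by
        obtain ⟨b, b1, b2, e⟩ := int_mem.1 hm
        rcases abs_cases a with h3 | h3 <;> have := int_eq e (by omega) (by omega) <;> omega
      have := int_low hj a
      refine ⟨hn, ?_⟩
      rw [ex, if_neg hn, hc]
      push_cast
      omega
    rw [int_ng]
    refine ⟨((h : ℤ) + 1 : ℤ), (key _ hh1).1, (key _ hh1).2, ?_⟩
    rw [← Int.cast_neg]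
    exact (key _ (by rw [abs_neg, hh1])).2
  · have key : ∀ a : ℤ, |a| = h → (a : ZMod j) ∈ intW j h ∧
        ex (intW j h) (intW j h) (intW j h) (a : ZMod j) ≤ 0 := fun a ha => by
      have h2 := abs_le.1 ha.le
      have hn : (a : ZMod j) ∈ intW j h := int_mem.2 ⟨a, h2.1, h2.2, rfl⟩
      have := int_up h1 h2.1 h2.2
      refine ⟨hn, ?_⟩
      rw [ex, if_pos hn, hc]
      push_cast
      omega
    rw [int_ng]
    refine ⟨(h : ℤ), (key _ hh).1, (key _ hh).2, ?_, fun e => ?_⟩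
    · rw [← Int.cast_neg]
      exact (key _ (by rw [abs_neg, hh])).2
    · have := int_eq (j := j) (a := h) (b := 0) (by simpa using e) (by omega) (by omega)
      omega

end Pool.Agent.MP_ed46bc_co.SP
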