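import Pool.Agent.MP_ed46bc_co.SP.Quot

/-! Row MAIN: the structure theorem from the upgrade lemma and the pull-back lemma. -/

set_option linter.unusedSectionVars false

namespace Pool.Agent.MP_ed46bc_co.SP

open Finset
open scoped symmDiff

universe u

variable {G : Type u} [AddCommGroup G] [Fintype G] [DecidableEq G]

/-- The largest slack as a function of the sizes. -/
def main_mx (n a b c : ℤ) : ℤ :=
  max (max (a + b - c) (a + c - b)) (max (b + c - a) (2 * n - a - b - c))

/-- The sum of the squares of the slacks. -/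
def main_sq (n a b c : ℤ) : ℤ :=
  (a + b - c) ^ 2 + (a + c - b) ^ 2 + (b + c - a) ^ 2 + (2 * n - a - b - c) ^ 2

/-- All four slacks are at least two. -/
def main_Reg (A B C : Finset G) : Prop :=
  C.card + 2 ≤ A.card + B.card ∧ B.card + 2 ≤ A.card + C.card ∧ A.card + 2 ≤ B.card + C.card ∧
    A.card + B.card + C.card + 2 ≤ 2 * Fintype.card G

/-- The statement for all triples with a larger potential. -/
def main_Hyp (G : Type u) [AddCommGroup G] [Fintype G] [DecidableEq G] (M s : ℤ) : Prop :=
  ∀ X Y Z : Finset G, (M < main_mx (Fintype.card G) X.card Y.card Z.card ∨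
    (M ≤ main_mx (Fintype.card G) X.card Y.card Z.card ∧
      s < main_sq (Fintype.card G) X.card Y.card Z.card)) → S X Y Z

/-- The standing hypotheses for one triple. -/
def main_Go (A B C : Finset G) : Prop :=
  2 ≤ Gam A B C ∧ main_Reg A B C ∧ main_Hyp G (main_mx (Fintype.card G) A.card B.card C.card)
    (main_sq (Fintype.card G) A.card B.card C.card)

theorem main_mx12 (n a b c : ℤ) : main_mx n b a c = main_mx n a b c := by
  unfold main_mx; omega

theorem main_mx23 (n a b c : ℤ) : main_mx n a c b = main_mx n a b c := by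
  unfold main_mx; omega

theorem main_mxc (n a b c : ℤ) : main_mx n a (n - b) (n - c) = main_mx n a b c := by
  unfold main_mx; omega

theorem main_cc (A : Finset G) : ((Aᶜ).card : ℤ) = Fintype.card G - A.card := by
  have := card_add_card_compl A
  omega

theorem main_go12 {A B C : Finset G} (h : main_Go A B C) : main_Go B A C := by
  obtain ⟨h1, h2, h3⟩ := h
  refine ⟨by rwa [← Gam_swap12], by unfold main_Reg at *; omega, ?_⟩
  rw [main_mx12, show main_sq (Fintype.card G) B.card A.card C.card =
    main_sq (Fintype.card G) A.card B.card C.card by unfold main_sq; ring]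
  exact h3

theorem main_go23 {A B C : Finset G} (h : main_Go A B C) : main_Go A C B := by
  obtain ⟨h1, h2, h3⟩ := h
  refine ⟨by rwa [← Gam_swap23], by unfold main_Reg at *; omega, ?_⟩
  rw [main_mx23, show main_sq (Fintype.card G) A.card C.card B.card =
    main_sq (Fintype.card G) A.card B.card C.card by unfold main_sq; ring]
  exact h3

theorem main_goc {A B C : Finset G} (h : main_Go A B C) : main_Go A Bᶜ Cᶜ := by
  obtain ⟨h1, h2, h3⟩ := h
  have hB := main_cc B
  have hC := main_cc C
  refine ⟨by rwa [Gam_compl], by unfold main_Reg at *; omega, ?_⟩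
  rw [hB, hC, main_mxc, show main_sq (Fintype.card G) A.card (Fintype.card G - B.card)
    (Fintype.card G - C.card) = main_sq (Fintype.card G) A.card B.card C.card by
      unfold main_sq; ring]
  exact h3

theorem main_gosh {A B C : Finset G} (e : G) (h : main_Go A B C) :
    main_Go A (sh B e) (sh C (-e)) := by
  obtain ⟨h1, h2, h3⟩ := h
  refine ⟨by rwa [Gam_sh], ?_, ?_⟩
  · unfold main_Reg at *
    rwa [card_sh, card_sh]
  · rwa [card_sh, card_sh]

theorem main_hc {A B C : Finset G} (h : HasSt A Bᶜ Cᶜ) : HasSt A B C := by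
  simpa only [compl_compl] using HasSt_compl h

theorem main_hsh {A B C : Finset G} (e : G) (h : HasSt A (sh B e) (sh C (-e))) : HasSt A B C := by
  have key : ∀ (X : Finset G) (a : G), sh (sh X a) (-a) = X := fun X a => by
    ext x
    simp [mem_sh]
  simpa only [key] using HasSt_sh h (-e) (- -e)

section Step

variable (hU : ∀ A B C : Finset G, 1 ≤ Gam A B C → HasSt A B C →
      ∃ (Q : Type u) (_ : AddCommGroup Q) (_ : Fintype Q) (_ : DecidableEq Q) (f : G →+ Q)
        (W₁ W₂ W₃ : Finset Q), Top f W₁ W₂ W₃ ∧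
        1 ≤ Psi A B C f.ker (pre f W₁) (pre f W₂) (pre f W₃) ∧
        Gam A B C ≤ Psi A B C f.ker (pre f W₁) (pre f W₂) (pre f W₃) ^ 2) (hP : PB.{u})
include hU hP

/-- The move. -/
theorem main_move {A B C : Finset G} (h : main_Go A B C) (h1 : (A \ B).Nonempty)
    (h2 : (B \ A).Nonempty) (h3 : (A \ B).card + (B \ A).card ≤ C.card) : HasSt A B C := by
  obtain ⟨hg, hr, hy⟩ := h
  have hd : 0 ≤ dfc A B C := by unfold dfc; positivity
  have hg' : 2 ≤ Gam (A ∪ B) (A ∩ B) C := by linarith [Gam_move A B C]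
  have e1 := card_sdiff_add_card_inter A B
  have e2 := card_sdiff_add_card_inter B A
  have e3 := card_union_add_card_inter A B
  rw [inter_comm B A] at e2
  have p1 := h1.card_pos
  have p2 := h2.card_pos
  have hS : S (A ∪ B) (A ∩ B) C := by
    refine hy _ _ _ (Or.inr ⟨by unfold main_mx; omega, ?_⟩)
    have f1 : (A.card : ℤ) = (A \ B).card + (A ∩ B).card := by omega
    have f2 : (B.card : ℤ) = (B \ A).card + (A ∩ B).card := by omega
    have f3 : ((A ∪ B).card : ℤ) = (A \ B).card + (B \ A).card + (A ∩ B).card := by omega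
    have q1 : (0 : ℤ) < (A \ B).card := by omega
    have q2 : (0 : ℤ) < (B \ A).card := by omega
    unfold main_sq
    rw [f1, f2, f3]
    nlinarith [mul_pos q1 q2]
  obtain ⟨Q, _, _, _, f, W₁, W₂, W₃, ⟨t1, t2, t3, -, t5, t6⟩, hp, -⟩ :=
    hU _ _ _ (by linarith) (HasSt_of_S hS hg')
  obtain ⟨r1, r2, r3, r4⟩ := hr
  refine hP G Q f A B C W₁ W₂ W₃ ⟨t1, t3, t5, t6, t2, hp, hg, by omega, h3, by omega⟩
    fun X Y R hlt => hy X Y R (Or.inl ?_)
  exact hlt.trans_le ((le_max_right _ _).trans (le_max_right _ _))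

/-- The move, or the move after complementing two sets. -/
theorem main_four {A B C : Finset G} (h : main_Go A B C) (h1 : (A \ B).Nonempty)
    (h2 : (B \ A).Nonempty) (h3 : (A ∩ B).Nonempty) (h4 : (A ∪ B)ᶜ.Nonempty) : HasSt A B C := by
  by_cases hc : (A \ B).card + (B \ A).card ≤ C.card
  · exact main_move hU hP h h1 h2 hc
  · have e1 : Aᶜ \ B = (A ∪ B)ᶜ := by ext x; simp
    have e2 : B \ Aᶜ = A ∩ B := by ext x; simp [and_comm]
    refine HasSt_swap12 (main_hc (HasSt_swap12 (main_move hU hP (main_go12 (main_goc (main_go12 h)))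
      (e1 ▸ h4) (e2 ▸ h3) ?_)))
    rw [e1, e2]
    have f1 := card_sdiff_add_card_inter A B
    have f2 := card_sdiff_add_card_inter B A
    have f3 := card_union_add_card_inter A B
    rw [inter_comm B A] at f2
    have f4 := main_cc (A ∪ B)
    have f5 := main_cc C
    omega

/-- A translate of the second set that is neither inside nor outside the first set. -/
theorem main_cut {A B C : Finset G} (h : main_Go A B C) (hb : B.card ≤ A.card)
    (hn : A.card + B.card ≤ Fintype.card G) {x y z : G} (hx : x ∈ A) (hy : y ∈ B) (hz : z ∈ B)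
    (hxz : x + (z - y) ∉ A) : HasSt A B C := by
  have m1 : x ∈ sh B (x - y) := by simpa [sh] using hy
  have m2 : x + (z - y) ∈ sh B (x - y) := by
    have : x + (z - y) - (x - y) = z := by abel
    simp only [sh, mem_filter, mem_univ, true_and, this, hz]
  have c := card_sh B (x - y)
  refine main_hsh (x - y) ?_
  have h' := main_gosh (x - y) h
  generalize sh B (x - y) = B' at *
  have n2 : (B' \ A).Nonempty := ⟨_, mem_sdiff.2 ⟨m2, hxz⟩⟩
  have n3 : (A ∩ B').Nonempty := ⟨_, mem_inter.2 ⟨hx, m1⟩⟩
  have f1 := card_sdiff_add_card_inter A B'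
  have f2 := card_sdiff_add_card_inter B' A
  have f3 := card_union_add_card_inter A B'
  rw [inter_comm B' A] at f2
  have f4 := main_cc (A ∪ B')
  have p2 := n2.card_pos
  have p3 := n3.card_pos
  exact main_four hU hP h' (card_pos.1 (by omega)) n2 n3 (card_pos.1 (by omega))

end Step

/-- The stabiliser of a set. -/
def main_stab (A : Finset G) : AddSubgroup G where
  carrier := {h | ∀ x, x + h ∈ A ↔ x ∈ A}
  add_mem' := fun {a b} ha hb x => by rw [← add_assoc, hb, ha]
  zero_mem' := fun x => by rw [add_zero]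
  neg_mem' := fun {a} ha x => by rw [← ha (x + -a), neg_add_cancel_right]

open Classical in
/-- A coset that contains a set whose differences lie in a subgroup. -/
theorem main_coset (K : AddSubgroup G) {B : Finset G} (hne : B.Nonempty)
    (h : ∀ y ∈ B, ∀ z ∈ B, z - y ∈ K) :
    ∃ P : Finset G, Per K P ∧ B ⊆ P ∧ P.card = Nat.card K := by
  obtain ⟨y, hy⟩ := hne
  refine ⟨sh (univ.filter fun x => x ∈ K) y, fun x hx k hk => ?_, fun z hz => ?_, ?_⟩
  · simp only [sh, mem_filter, mem_univ, true_and] at hx ⊢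
    rw [add_sub_right_comm]
    exact K.add_mem hx hk
  · simp only [sh, mem_filter, mem_univ, true_and]
    exact h y hy z hz
  · rw [card_sh, Nat.card_eq_fintype_card, Fintype.card_subtype]

/-- The periodic case. -/
theorem main_per {A B C : Finset G} (hr : main_Reg A B C)
    (hB : ∀ x ∈ A, ∀ y ∈ B, ∀ z ∈ B, x + (z - y) ∈ A)
    (hC : ∀ x ∈ A, ∀ y ∈ C, ∀ z ∈ C, x + (z - y) ∈ A) : HasSt A B C := by
  obtain ⟨r1, r2, r3, r4⟩ := hr
  have key : ∀ D : Finset G, (∀ x ∈ A, ∀ y ∈ D, ∀ z ∈ D, x + (z - y) ∈ A) →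
      ∀ y ∈ D, ∀ z ∈ D, z - y ∈ main_stab A := by
    intro D hD y hy z hz x
    refine ⟨fun hx => ?_, fun hx => hD x hx y hy z hz⟩
    have := hD _ hx z hz y hy
    rwa [show x + (z - y) + (y - z) = x by abel] at this
  obtain ⟨P₂, a2, b2, c2⟩ := main_coset (main_stab A) (card_pos.1 (by omega)) (key B hB)
  obtain ⟨P₃, a3, b3, c3⟩ := main_coset (main_stab A) (card_pos.1 (by omega)) (key C hC)
  have a1 : Per (main_stab A) A := fun x hx k hk => (hk x).2 hx
  have l2 := card_le_card b2
  have l3 := card_le_card b3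
  obtain ⟨t, ht⟩ := per_dvd a1
  have ht1 : t = 1 := by
    have h0 : t ≠ 0 := by
      rintro rfl
      omega
    by_contra h1
    have h2 : 2 ≤ t := by omega
    have := Nat.mul_le_mul_left (Nat.card (main_stab A)) h2
    omega
  subst ht1
  refine ⟨main_stab A, A, P₂, P₃, fun h => ?_, ⟨a1, a2, a3, 3, by decide, by omega⟩, ?_⟩
  · rw [h, AddSubgroup.card_bot] at ht
    omega
  · unfold Psi sig
    rw [symmDiff_self, symmDiff_of_le b2, symmDiff_of_le b3, card_sdiff_of_subset b2,
      card_sdiff_of_subset b3, bot_eq_empty, card_empty]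
    omega

theorem main_top (A : Finset G) : Per ⊤ (univ : Finset G) ∧ Per ⊤ (∅ : Finset G) ∧
    ((A ∆ univ).card : ℤ) = Fintype.card G - A.card ∧ (A ∆ ∅).card = A.card ∧
    Nat.card (⊤ : AddSubgroup G) = Fintype.card G := by
  refine ⟨fun _ _ _ _ => mem_univ _, fun x hx => absurd hx (notMem_empty x), ?_, ?_, ?_⟩
  · rw [← main_cc, ← top_eq_univ, symmDiff_top, hnot_eq_compl]
  · rw [← bot_eq_empty, symmDiff_bot]
  · rw [AddSubgroup.card_top, Nat.card_eq_fintype_card]

theorem main_small {g s : ℤ} (h : g ≤ s ^ 2) (hg : 2 ≤ g) (hs : s < 2) : 1 ≤ -s := by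
  by_contra h1
  have h2 : s = 0 ∨ s = 1 := by omega
  rcases h2 with rfl | rfl <;> omega

theorem main_outp {A B C : Finset G} (h : A.card + B.card < C.card + 2) : S A B C := by
  intro hg
  obtain ⟨u1, u2, -, a, u5⟩ := main_top A
  obtain ⟨-, -, -, b, -⟩ := main_top B
  obtain ⟨-, -, c, -, -⟩ := main_top C
  have e : Psi A B C ⊤ ∅ ∅ univ = -((A.card : ℤ) + B.card - C.card) := by
    unfold Psi sig
    omega
  refine ⟨⊤, ∅, ∅, univ, ⟨u2, u2, u1, 1, odd_one, by simp⟩, ?_, ?_⟩
  · rw [e]
    exact main_small (Gam_le_p A B C) hg (by omega)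
  · rw [e, neg_sq]
    exact Gam_le_p A B C

theorem main_outw {A B C : Finset G} (h : 2 * Fintype.card G < A.card + B.card + C.card + 2) :
    S A B C := by
  intro hg
  obtain ⟨u1, u2, a, -, u5⟩ := main_top A
  obtain ⟨-, -, b, -, -⟩ := main_top B
  obtain ⟨-, -, c, -, -⟩ := main_top C
  have e : Psi A B C ⊤ univ univ univ =
      -(2 * (Fintype.card G : ℤ) - A.card - B.card - C.card) := by
    unfold Psi sig
    omega
  refine ⟨⊤, univ, univ, univ, ⟨u1, u1, u1, 3, by decide, by rw [u5, card_univ]; ring⟩, ?_, ?_⟩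
  · rw [e]
    exact main_small (Gam_le_w A B C) hg (by omega)
  · rw [e, neg_sq]
    exact Gam_le_w A B C

/-- Triples with a small slack. -/
theorem main_out {A B C : Finset G} (h : ¬ main_Reg A B C) : S A B C := by
  unfold main_Reg at h
  by_cases h1 : A.card + B.card < C.card + 2
  · exact main_outp h1
  by_cases h2 : A.card + C.card < B.card + 2
  · exact S_swap23 (main_outp h2)
  by_cases h3 : B.card + C.card < A.card + 2
  · exact S_swap12 (S_swap23 (main_outp h3))
  exact main_outw (by omega)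

section Step2

variable (hU : ∀ A B C : Finset G, 1 ≤ Gam A B C → HasSt A B C →
      ∃ (Q : Type u) (_ : AddCommGroup Q) (_ : Fintype Q) (_ : DecidableEq Q) (f : G →+ Q)
        (W₁ W₂ W₃ : Finset Q), Top f W₁ W₂ W₃ ∧
        1 ≤ Psi A B C f.ker (pre f W₁) (pre f W₂) (pre f W₃) ∧
        Gam A B C ≤ Psi A B C f.ker (pre f W₁) (pre f W₂) (pre f W₃) ^ 2) (hP : PB.{u})
include hU hP

theorem main_amax {A B C : Finset G} (h : main_Go A B C) (hb : B.card ≤ A.card)
    (hc : C.card ≤ A.card) (nb : A.card + B.card ≤ Fintype.card G)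
    (nc : A.card + C.card ≤ Fintype.card G) : HasSt A B C := by
  by_cases hB : ∀ x ∈ A, ∀ y ∈ B, ∀ z ∈ B, x + (z - y) ∈ A
  · by_cases hC : ∀ x ∈ A, ∀ y ∈ C, ∀ z ∈ C, x + (z - y) ∈ A
    · exact main_per h.2.1 hB hC
    · push Not at hC
      obtain ⟨x, hx, y, hy, z, hz, hn⟩ := hC
      exact HasSt_swap23 (main_cut hU hP (main_go23 h) hc nc hx hy hz hn)
  · push Not at hB
    obtain ⟨x, hx, y, hy, z, hz, hn⟩ := hB
    exact main_cut hU hP h hb nb hx hy hz hn

theorem main_wmax {A B C : Finset G} (h : main_Go A B C) (n1 : A.card + B.card ≤ Fintype.card G)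
    (n2 : A.card + C.card ≤ Fintype.card G) (n3 : B.card + C.card ≤ Fintype.card G) :
    HasSt A B C := by
  by_cases h1 : B.card ≤ A.card ∧ C.card ≤ A.card
  · exact main_amax hU hP h h1.1 h1.2 n1 n2
  by_cases h2 : A.card ≤ B.card ∧ C.card ≤ B.card
  · exact HasSt_swap12 (main_amax hU hP (main_go12 h) h2.1 h2.2 (by omega) n3)
  exact HasSt_swap23 (HasSt_swap12 (main_amax hU hP (main_go12 (main_go23 h)) (by omega) (by omega)
    (by omega) (by omega)))

theorem main_rmax {A B C : Finset G} (h : main_Go A B C) (n1 : A.card ≤ B.card)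
    (n2 : A.card ≤ C.card) (n3 : Fintype.card G ≤ B.card + C.card) : HasSt A B C := by
  have hB := main_cc B
  have hC := main_cc C
  exact main_hc (main_wmax hU hP (main_goc h) (by omega) (by omega) (by omega))

theorem main_all {A B C : Finset G} (h : main_Go A B C) : HasSt A B C := by
  by_cases h0 : A.card + B.card ≤ Fintype.card G ∧ A.card + C.card ≤ Fintype.card G ∧
      B.card + C.card ≤ Fintype.card G
  · exact main_wmax hU hP h h0.1 h0.2.1 h0.2.2
  by_cases h1 : A.card ≤ B.card ∧ A.card ≤ C.card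
  · exact main_rmax hU hP h h1.1 h1.2 (by omega)
  by_cases h2 : B.card ≤ A.card ∧ B.card ≤ C.card
  · exact HasSt_swap12 (main_rmax hU hP (main_go12 h) h2.1 h2.2 (by omega))
  exact HasSt_swap23 (HasSt_swap12 (main_rmax hU hP (main_go12 (main_go23 h)) (by omega) (by omega)
    (by omega)))

theorem main_step {A B C : Finset G}
    (h : main_Hyp G (main_mx (Fintype.card G) A.card B.card C.card)
      (main_sq (Fintype.card G) A.card B.card C.card)) : S A B C := by
  by_cases hr : main_Reg A B C
  · intro hg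
    obtain ⟨Q, _, _, _, f, W₁, W₂, W₃, ⟨t1, -, t3, -⟩, hp, hq⟩ :=
      hU _ _ _ (by linarith) (main_all hU hP ⟨hg, hr, h⟩)
    exact ⟨_, _, _, _, St_ker t1 t3, hp, hq⟩
  · exact main_out hr

end Step2

theorem main_bd {A B C : Finset G} (h : main_Reg A B C) :
    main_mx (Fintype.card G) A.card B.card C.card ≤ 2 * Fintype.card G ∧
      main_sq (Fintype.card G) A.card B.card C.card ≤ 4 * (Fintype.card G : ℤ) ^ 2 := by
  obtain ⟨r1, r2, r3, r4⟩ := h
  refine ⟨by unfold main_mx; omega, ?_⟩
  have p : (0 : ℤ) ≤ A.card + B.card - C.card := by omega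
  have q : (0 : ℤ) ≤ A.card + C.card - B.card := by omega
  have r : (0 : ℤ) ≤ B.card + C.card - A.card := by omega
  have w : (0 : ℤ) ≤ 2 * (Fintype.card G : ℤ) - A.card - B.card - C.card := by omega
  unfold main_sq
  nlinarith [mul_nonneg p q, mul_nonneg p r, mul_nonneg p w, mul_nonneg q r, mul_nonneg q w,
    mul_nonneg r w]

theorem ss (hU : UP.{u}) (hP : PB.{u}) : SS.{u} := by
  have main : ∀ (n : ℕ) (G : Type u) [AddCommGroup G] [Fintype G] [DecidableEq G],
      Fintype.card G = n → ∀ A B C : Finset G, S A B C := by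
    intro n
    induction n using Nat.strong_induction_on with
    | _ n ih =>
    intro G _ _ _ hn
    have hU' := hU G fun Q _ _ _ hQ => ih _ (hn ▸ hQ) Q rfl
    have outer : ∀ (i j : ℕ) (A B C : Finset G),
        (2 * (Fintype.card G : ℤ) - main_mx (Fintype.card G) A.card B.card C.card).toNat = i →
        (4 * (Fintype.card G : ℤ) ^ 2 - main_sq (Fintype.card G) A.card B.card C.card).toNat = j →
        S A B C := by
      intro i
      induction i using Nat.strong_induction_on with
      | _ i ihi =>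
      intro j
      induction j using Nat.strong_induction_on with
      | _ j ihj =>
      intro A B C hi hj
      refine main_step hU' hP fun X Y Z hlt => ?_
      by_cases hr : main_Reg X Y Z
      · obtain ⟨b1, b2⟩ := main_bd hr
        by_cases hm : main_mx (Fintype.card G) A.card B.card C.card <
            main_mx (Fintype.card G) X.card Y.card Z.card
        · exact ihi _ (by omega) _ X Y Z rfl rfl
        · exact ihj _ (by omega) X Y Z (by omega) rfl
      · exact main_out hr
    exact fun A B C => outer _ _ A B C rfl rfl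
  exact fun G _ _ _ => main _ G rfl

end Pool.Agent.MP_ed46bc_co.SP
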