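import Pool.Agent.MP_ed46bc_co.SP.Spec

/-! Row PB0: first consequences of the standing hypotheses of the pull-back. -/

set_option linter.unusedSectionVars false

namespace Pool.Agent.MP_ed46bc_co.SP

open Finset
open scoped symmDiff

universe u

section

variable {G : Type u} [AddCommGroup G] [Fintype G] [DecidableEq G]
variable {Q : Type u} [AddCommGroup Q] [Fintype Q] [DecidableEq Q]

theorem pb0_sum_ind (A : Finset G) : ∑ x, ind A x = A.card := by
  simp [ind]

theorem pb0_swap (g g' h : G → ℤ) : T3 g g' h = T3 g' g h := by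
  unfold T3
  rw [sum_comm]
  refine sum_congr rfl fun x _ => sum_congr rfl fun y _ => ?_
  rw [show -y - x = -x - y by abel]
  ring

theorem pb0_add (g₁ g₂ g' h : G → ℤ) : T3 (g₁ + g₂) g' h = T3 g₁ g' h + T3 g₂ g' h := by
  simp only [T3, Pi.add_apply, add_mul, sum_add_distrib]

theorem pb0_dfc (A B C : Finset G) :
    T (A \ B) (B \ A) C = ((A \ B).card : ℤ) * (B \ A).card - dfc A B C := by
  have h1 : dfc A B C = ∑ x, ∑ y, ind (A \ B) x * ind (B \ A) y * (1 - ind C (-x - y)) := by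
    rw [dfc, card_filter, Nat.cast_sum, sum_product, ← sum_subset (subset_univ (A \ B))]
    · refine sum_congr rfl fun x hx => ?_
      rw [← sum_subset (subset_univ (B \ A))]
      · refine sum_congr rfl fun y hy => ?_
        simp only [ind, if_pos hx, if_pos hy]
        split_ifs <;> simp
      · intro y _ hy
        simp only [ind, if_neg hy]
        ring
    · intro x _ hx
      simp only [ind, if_neg hx, zero_mul, sum_const_zero]
  rw [h1, ← pb0_sum_ind, ← pb0_sum_ind, sum_mul_sum, ← sum_sub_distrib, T, T3]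
  refine sum_congr rfl fun x _ => ?_
  rw [← sum_sub_distrib]
  exact sum_congr rfl fun y _ => by ring

theorem pb0_move (A B C : Finset G) : Gam A B C = Gam (A ∪ B) (A ∩ B) C - 4 * dfc A B C := by
  have e1 : ind A = ind (A ∩ B) + ind (A \ B) := by
    funext x; by_cases h : x ∈ A <;> by_cases h' : x ∈ B <;> simp [ind, h, h']
  have e2 : ind B = ind (A ∩ B) + ind (B \ A) := by
    funext x; by_cases h : x ∈ A <;> by_cases h' : x ∈ B <;> simp [ind, h, h']
  have e3 : ind (A ∪ B) = ind (A ∩ B) + ind (A \ B) + ind (B \ A) := by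
    funext x; by_cases h : x ∈ A <;> by_cases h' : x ∈ B <;> simp [ind, h, h']
  have c1 : (A.card : ℤ) = (A ∩ B).card + (A \ B).card := by
    simp only [← pb0_sum_ind, ← sum_add_distrib]; rw [e1]; rfl
  have c2 : (B.card : ℤ) = (A ∩ B).card + (B \ A).card := by
    simp only [← pb0_sum_ind, ← sum_add_distrib]; rw [e2]; rfl
  have c3 : ((A ∪ B).card : ℤ) = (A ∩ B).card + (A \ B).card + (B \ A).card := by
    simp only [← pb0_sum_ind, ← sum_add_distrib]; rw [e3]; rfl
  have hT : T A B C = T (A ∪ B) (A ∩ B) C + T (A \ B) (B \ A) C := by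
    have a1 := pb0_add (ind (A ∩ B)) (ind (A \ B)) (ind B) (ind C)
    have a2 := pb0_add (ind (A ∩ B)) (ind (B \ A)) (ind (A ∩ B)) (ind C)
    have a3 := pb0_add (ind (A ∩ B)) (ind (B \ A)) (ind (A \ B)) (ind C)
    rw [← e1] at a1
    rw [← e2] at a2 a3
    unfold T
    rw [e3, pb0_add, pb0_add, a1, pb0_swap _ (ind B), pb0_swap (ind (A \ B)) (ind B), a2, a3,
      pb0_swap (ind (A ∩ B)) (ind (A \ B)), pb0_swap (ind (B \ A)) (ind (A \ B))]
    ring
  unfold Gam
  rw [hT, pb0_dfc, c3, c1, c2]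
  ring

theorem pb0_fib (f : G →+ Q) (hf : Function.Surjective f) (i : Q) :
    (univ.filter fun x => f x = i).card = Nat.card f.ker := by
  obtain ⟨a, rfl⟩ := hf i
  rw [← Nat.card_eq_finsetCard]
  refine Nat.card_congr ⟨fun x => ⟨x.1 - a, ?_⟩, fun y => ⟨y.1 + a, ?_⟩, fun x => ?_, fun y => ?_⟩
  · have := x.2
    simp only [mem_filter, mem_univ, true_and] at this
    rw [AddMonoidHom.mem_ker, map_sub, this, sub_self]
  · have := y.2
    rw [AddMonoidHom.mem_ker] at this
    simp [this]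
  · simp
  · simp

theorem pb0_pre (f : G →+ Q) (hf : Function.Surjective f) (W : Finset Q) :
    (pre f W).card = Nat.card f.ker * W.card := by
  rw [card_eq_sum_card_fiberwise (f := f) (t := W) fun x hx => by simpa [pre] using hx,
    sum_congr rfl (g := fun _ => Nat.card f.ker), sum_const, smul_eq_mul, mul_comm]
  intro i hi
  rw [← pb0_fib f hf i]
  congr 1
  ext x
  simp only [pre, mem_filter, mem_univ, true_and, and_iff_right_iff_imp]
  rintro rfl
  exact hi

theorem pb0_dev (X P : Finset G) :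
    X.card ≤ P.card + (X ∆ P).card ∧ P.card ≤ X.card + (X ∆ P).card := by
  constructor
  · refine le_trans (card_le_card fun x hx => ?_) (card_union_le _ _)
    simp only [mem_union, mem_symmDiff]; tauto
  · refine le_trans (card_le_card fun x hx => ?_) (card_union_le _ _)
    simp only [mem_union, mem_symmDiff]; tauto

theorem pb0_slack {k s : ℤ} (hk : 0 < k) (h : -k < k * s) : 0 ≤ s := by
  by_contra hs
  nlinarith

end

theorem pb0 (h : ACC.{u, u}) : PB0.{u} := by
  rintro G _ _ _ Q _ _ _ f A B C W₁ W₂ W₃ ⟨hf, hodd, hG, hgood, -, hP, h2, hc1, hc2, hc3⟩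
  have hP' := hP
  unfold P0 Psi sig at hP'
  have hk : (0 : ℤ) < Nat.card f.ker := by exact_mod_cast Nat.card_pos
  have hsub : W₂ ⊆ W₁ := by
    intro i hi
    by_contra hi'
    have h1 : (univ.filter fun x => f x = i) ⊆ (A ∪ B) ∆ pre f W₁ ∪ (A ∩ B) ∆ pre f W₂ := by
      intro x hx
      obtain rfl : f x = i := by simpa using hx
      simp only [mem_union, mem_symmDiff, mem_inter, pre, mem_filter, mem_univ, true_and]
      tauto
    have h3 := (card_le_card h1).trans (card_union_le _ _)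
    rw [pb0_fib f hf] at h3
    omega
  have d1 := pb0_dev (A ∪ B) (pre f W₁)
  have d2 := pb0_dev (A ∩ B) (pre f W₂)
  have d3 := pb0_dev C (pre f W₃)
  have dn : Fintype.card G = Nat.card f.ker * Fintype.card Q := by
    rw [← card_univ (α := Q), ← pb0_pre f hf, ← card_univ]
    simp [pre]
  rw [pb0_pre f hf] at d1 d2 d3
  have u1 := card_union_add_card_inter A B
  have u2 := card_sdiff_add_card_inter A B
  have u3 := card_sdiff_add_card_inter B A
  rw [inter_comm B A] at u3
  zify at d1 d2 d3 dn u1 u2 u3 hc1 hc2 hc3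
  have s1 : 0 ≤ (W₁.card : ℤ) + W₂.card - W₃.card := pb0_slack hk (by linarith [d1.1, d2.1, d3.2])
  have s2 : 0 ≤ (W₁.card : ℤ) + W₃.card - W₂.card := pb0_slack hk (by
    have : (0 : ℤ) ≤ C.card := by positivity
    have : (0 : ℤ) ≤ (A \ B).card := by positivity
    have : (0 : ℤ) ≤ (B \ A).card := by positivity
    linarith [d1.1, d2.2, d3.1])
  have s3 : 0 ≤ (W₂.card : ℤ) + W₃.card - W₁.card := pb0_slack hk (by linarith [d1.2, d2.1, d3.1])
  have s4 : 0 ≤ 2 * (Fintype.card Q : ℤ) - W₁.card - W₂.card - W₃.card :=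
    pb0_slack hk (by linarith [d1.2, d2.2, d3.2])
  obtain ⟨t, ht⟩ := hodd
  have hex : ∀ {e : ℤ}, e = 0 ∨ 4 ≤ e → 0 ≤ e := fun he => by omega
  refine ⟨hsub, card_pos.1 (by omega), card_pos.1 (by omega),
    card_pos.1 (by rw [card_compl]; omega), fun i hi => ?_, ?_⟩
  · by_contra hno
    push Not at hno
    have g1 := hex (hgood.1 i)
    have g2 := hex (hgood.2.1 i)
    rw [mem_sdiff] at hi
    rw [ex, if_pos hi.1] at g1
    rw [ex, if_neg hi.2] at g2
    have e : L W₁ W₃ i - L W₂ W₃ i = (W₁.card : ℤ) - W₂.card := by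
      rw [L, L, ← pb0_sum_ind, ← pb0_sum_ind, ← sum_sub_distrib, ← sum_sub_distrib]
      refine sum_congr rfl fun y _ => ?_
      by_cases y2 : y ∈ W₂
      · simp [ind, y2, hsub y2]
      · by_cases y1 : y ∈ W₁
        · simp [ind, y1, y2, hno y (mem_sdiff.2 ⟨y1, y2⟩)]
        · simp [ind, y1, y2]
    linarith
  · have a := h G Q f (A ∪ B) (A ∩ B) C W₁ W₂ W₃ hf
    have m := pb0_move A B C
    have b1 : 0 ≤ ∑ x ∈ (A ∪ B) ∆ pre f W₁, ex W₁ W₂ W₃ (f x) :=
      sum_nonneg fun x _ => hex (hgood.1 _)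
    have b2 : 0 ≤ ∑ x ∈ (A ∩ B) ∆ pre f W₂, ex W₂ W₁ W₃ (f x) :=
      sum_nonneg fun x _ => hex (hgood.2.1 _)
    have b3 : 0 ≤ ∑ x ∈ C ∆ pre f W₃, ex W₃ W₁ W₂ (f x) :=
      sum_nonneg fun x _ => hex (hgood.2.2 _)
    have n0 : ∀ X P : Finset G, 0 ≤ NN X P := fun X P => by unfold NN; positivity
    have f0 : ∀ X P Y P' Z : Finset G, 0 ≤ Fr X P Y P' Z := fun X P Y P' Z => by
      unfold Fr; positivity
    have b4 := mul_nonneg hk.le (add_nonneg (add_nonneg b1 b2) b3)
    rw [hG] at a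
    unfold P0 Psi
    linarith [n0 (A ∪ B) (pre f W₁), n0 (A ∩ B) (pre f W₂), n0 C (pre f W₃),
      f0 (A ∪ B) (pre f W₁) (A ∩ B) (pre f W₂) (pre f W₃),
      f0 (A ∪ B) (pre f W₁) C (pre f W₃) (A ∩ B),
      f0 (A ∩ B) (pre f W₂) C (pre f W₃) (pre f W₁)]

end Pool.Agent.MP_ed46bc_co.SP
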