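import Pool.Agent.MP_ed46bc_co.SP.Spec

/-! Row PB1: the deviation of the pulled-back base, counted point by point. -/

namespace Pool.Agent.MP_ed46bc_co.SP

open Finset
open scoped symmDiff

universe u

theorem pb1_card {G : Type u} [Fintype G] [DecidableEq G] (X : Finset G) :
    (X.card : ℤ) = ∑ x, if x ∈ X then 1 else 0 := by simp

theorem pb1 : PB1.{u} := by
  intro G _ _ _ Q _ _ _ f A B W₁ W₂ J h₂ hJ
  obtain ⟨p, hp⟩ : ∃ p : Q → Prop, ∀ i, p i ↔ cnt f (B \ A) i ≤ cnt f (A \ B) i :=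
    ⟨_, fun _ => Iff.rfl⟩
  classical
  have e : ∑ i ∈ (W₁ \ W₂) \ J, mm f A B i = ∑ x, if f x ∈ (W₁ \ W₂) \ J then
      (if p (f x) then (if x ∈ B \ A then 1 else 0) else if x ∈ A \ B then 1 else 0) else 0 := by
    rw [← sum_filter, ← sum_fiberwise_of_maps_to (g := f) (t := (W₁ \ W₂) \ J)
      fun x hx => (mem_filter.1 hx).2]
    refine sum_congr rfl fun i hi => ?_
    have c : ∀ X : Finset G, cnt f X i = ∑ x ∈ (univ.filter fun x => f x ∈ (W₁ \ W₂) \ J).filter
        fun x => f x = i, if x ∈ X then 1 else 0 := fun X => by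
      rw [sum_boole, cnt]
      congr 2
      ext x
      simp only [mem_filter, mem_univ, true_and]
      exact ⟨fun h => ⟨⟨h.2 ▸ hi, h.2⟩, h.1⟩, fun h => ⟨h.2, h.1.2⟩⟩
    by_cases h : p i
    · rw [mm, min_eq_right ((hp i).1 h), c]
      exact sum_congr rfl fun x hx => by rw [(mem_filter.1 hx).2, if_pos h]
    · rw [mm, min_eq_left (not_le.1 (mt (hp i).2 h)).le, c]
      exact sum_congr rfl fun x hx => by rw [(mem_filter.1 hx).2, if_neg h]
  rw [e, dJ]
  simp only [pb1_card, mul_sum, ← sum_add_distrib, ← sum_sub_distrib]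
  refine sum_congr rfl fun x _ => ?_
  have a := @h₂ (f x)
  have b := @hJ (f x)
  simp only [mem_symmDiff, mem_sdiff, mem_union, mem_inter, pre, mem_filter, mem_univ, true_and,
    ← not_le, ← hp] at a b ⊢
  clear e hp h₂ hJ
  by_cases c1 : x ∈ A <;> by_cases c2 : x ∈ B <;> by_cases c3 : f x ∈ W₁ <;>
    by_cases c4 : f x ∈ W₂ <;> by_cases c5 : f x ∈ J <;> by_cases c6 : p (f x) <;>
    simp_all

end Pool.Agent.MP_ed46bc_co.SP
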