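import Pool.Agent.MP_ed46bc_co.SP.Spec

/-!
# Row PB2a: facts on the light fibres
-/

namespace Pool.Agent.MP_ed46bc_co.SP

open Finset
open scoped symmDiff

universe u

section PB2aAux

variable {G : Type u} [AddCommGroup G] [Fintype G] [DecidableEq G]
variable {Q : Type u} [AddCommGroup Q] [Fintype Q] [DecidableEq Q]

/-- The defect over one ordered pair of fibres. -/
def pb2a_df (f : G →+ Q) (X Y C : Finset G) (p : Q × Q) : ℤ :=
  (((X ×ˢ Y).filter fun q : G × G => f q.1 = p.1 ∧ f q.2 = p.2 ∧ -q.1 - q.2 ∉ C).card : ℤ)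

omit [Fintype G] [Fintype Q] in
lemma pb2a_cnt_nonneg (f : G →+ Q) (X : Finset G) (i : Q) : 0 ≤ cnt f X i := by
  unfold cnt
  positivity

omit [Fintype G] [Fintype Q] in
lemma pb2a_row (f : G →+ Q) (Y C : Finset G) (x : G) (l : Q) :
    cnt f Y l - cnt f C (-f x - l) ≤ ((Y.filter fun y => f y = l ∧ -x - y ∉ C).card : ℤ) := by
  have h1 : (Y.filter fun y => f y = l).card ≤
      (Y.filter fun y => f y = l ∧ -x - y ∉ C).card +
        (Y.filter fun y => f y = l ∧ -x - y ∈ C).card := by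
    refine le_trans (card_le_card ?_) (card_union_le _ _)
    intro y hy
    simp only [mem_filter, mem_union] at hy ⊢
    by_cases hc : -x - y ∈ C
    · exact Or.inr ⟨hy.1, hy.2, hc⟩
    · exact Or.inl ⟨hy.1, hy.2, hc⟩
  have h2 : (Y.filter fun y => f y = l ∧ -x - y ∈ C).card ≤
      (C.filter fun z => f z = -f x - l).card := by
    refine card_le_card_of_injOn (fun y => -x - y) ?_ ?_
    · intro y hy
      simp only [coe_filter, Set.mem_ofPred_eq] at hy ⊢
      refine ⟨hy.2.2, ?_⟩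
      rw [map_sub, map_neg, hy.2.1]
    · intro y _ y' _ h
      simpa using h
  unfold cnt
  have h1' : ((Y.filter fun y => f y = l).card : ℤ) ≤
      ((Y.filter fun y => f y = l ∧ -x - y ∉ C).card : ℤ) +
        ((Y.filter fun y => f y = l ∧ -x - y ∈ C).card : ℤ) := by exact_mod_cast h1
  have h2' : ((Y.filter fun y => f y = l ∧ -x - y ∈ C).card : ℤ) ≤
      ((C.filter fun z => f z = -f x - l).card : ℤ) := by exact_mod_cast h2
  linarith

omit [Fintype G] [Fintype Q] in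
lemma pb2a_df_left (f : G →+ Q) (X Y C : Finset G) (i l : Q) :
    cnt f X i * (cnt f Y l - cnt f C (-i - l)) ≤ pb2a_df f X Y C (i, l) := by
  have h1 : pb2a_df f X Y C (i, l) =
      ∑ x ∈ X.filter (fun x => f x = i),
        ((Y.filter fun y => f y = l ∧ -x - y ∉ C).card : ℤ) := by
    unfold pb2a_df
    rw [card_filter, sum_product, sum_filter]
    push_cast
    refine sum_congr rfl fun x _ => ?_
    by_cases hx : f x = i
    · simp only [hx, true_and, if_true]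
      rw [card_filter]
      push_cast
      rfl
    · simp [hx]
  rw [h1]
  have h2 : cnt f X i * (cnt f Y l - cnt f C (-i - l)) =
      ∑ _x ∈ X.filter (fun x => f x = i), (cnt f Y l - cnt f C (-i - l)) := by
    rw [sum_const, nsmul_eq_mul]
    rfl
  rw [h2]
  refine sum_le_sum fun x hx => ?_
  have := pb2a_row f Y C x l
  rw [(mem_filter.1 hx).2] at this
  exact this

omit [Fintype G] [Fintype Q] in
lemma pb2a_df_swap (f : G →+ Q) (X Y C : Finset G) (i l : Q) :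
    pb2a_df f X Y C (i, l) = pb2a_df f Y X C (l, i) := by
  unfold pb2a_df
  congr 1
  refine card_bij (fun q _ => q.swap) ?_ ?_ ?_
  · intro q hq
    simp only [mem_filter, mem_product, Prod.fst_swap, Prod.snd_swap] at hq ⊢
    refine ⟨⟨hq.1.2, hq.1.1⟩, hq.2.2.1, hq.2.1, ?_⟩
    have : -q.2 - q.1 = -q.1 - q.2 := by abel
    rw [this]
    exact hq.2.2.2
  · intro q _ q' _ h
    exact Prod.swap_injective h
  · intro q hq
    refine ⟨q.swap, ?_, by simp⟩
    simp only [mem_filter, mem_product, Prod.fst_swap, Prod.snd_swap] at hq ⊢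
    refine ⟨⟨hq.1.2, hq.1.1⟩, hq.2.2.1, hq.2.1, ?_⟩
    have : -q.2 - q.1 = -q.1 - q.2 := by abel
    rw [this]
    exact hq.2.2.2

omit [Fintype G] [Fintype Q] in
lemma pb2a_df_right (f : G →+ Q) (X Y C : Finset G) (i l : Q) :
    cnt f Y l * (cnt f X i - cnt f C (-i - l)) ≤ pb2a_df f X Y C (i, l) := by
  rw [pb2a_df_swap]
  have := pb2a_df_left f Y X C l i
  have e : -l - i = -i - l := by abel
  rw [e] at this
  exact this

omit [Fintype G] [Fintype Q] in
lemma pb2a_df_le (f : G →+ Q) (A B C : Finset G) (p : Q × Q) :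
    pb2a_df f (A \ B) (B \ A) C p ≤ dfc A B C := by
  unfold pb2a_df dfc
  have : (((A \ B) ×ˢ (B \ A)).filter
      fun q : G × G => f q.1 = p.1 ∧ f q.2 = p.2 ∧ -q.1 - q.2 ∉ C) ⊆
      (((A \ B) ×ˢ (B \ A)).filter fun p : G × G => -p.1 - p.2 ∉ C) := by
    intro q hq
    simp only [mem_filter] at hq ⊢
    exact ⟨hq.1, hq.2.2.2⟩
  exact_mod_cast card_le_card this

omit [Fintype G] [Fintype Q] in
lemma pb2a_sum_le (f : G →+ Q) (A B C : Finset G) (E : Finset Q) (g : Q → Q × Q)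
    (hg : Set.InjOn g E) (hE : ∀ i ∈ E, (g i).1 ∈ E ∧ (g i).2 ∈ E) :
    ∑ i ∈ E, pb2a_df f (A \ B) (B \ A) C (g i) ≤ dfcOn f A B C E := by
  unfold pb2a_df dfcOn
  rw [← Nat.cast_sum, ← card_biUnion]
  · refine Nat.cast_le.2 (card_le_card ?_)
    intro q hq
    simp only [mem_biUnion, mem_filter] at hq ⊢
    obtain ⟨i, hi, h1, h2, h3, h4⟩ := hq
    exact ⟨h1, h2 ▸ (hE i hi).1, h3 ▸ (hE i hi).2, h4⟩
  · intro i hi j hj hij
    simp only [Function.onFun]
    rw [disjoint_left]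
    intro q hq hq'
    simp only [mem_filter] at hq hq'
    apply hij
    apply hg hi hj
    exact Prod.ext (hq.2.1.symm.trans hq'.2.1) (hq.2.2.1.symm.trans hq'.2.2.1)

omit [Fintype Q] in
lemma pb2a_fib (f : G →+ Q) (hf : Function.Surjective f) (l : Q) :
    Nat.card f.ker = (univ.filter fun x => f x = l).card := by
  obtain ⟨x₀, rfl⟩ := hf l
  have e : f.ker ≃ {x // x ∈ univ.filter fun x => f x = f x₀} :=
    { toFun := fun h => ⟨x₀ + h.1, by
        have := (AddMonoidHom.mem_ker).1 h.2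
        simp [this]⟩
      invFun := fun x => ⟨x.1 - x₀, by
        have := (mem_filter.1 x.2).2
        rw [AddMonoidHom.mem_ker, map_sub, this, sub_self]⟩
      left_inv := fun h => by simp
      right_inv := fun x => by simp }
  rw [Nat.card_congr e, Nat.card_eq_fintype_card, Fintype.card_coe]

/-- (F1), first form. -/
lemma pb2a_F1 (f : G →+ Q) (hf : Function.Surjective f) (A B C : Finset G) (W₁ W₂ W₃ : Finset Q)
    (l : Q) (hl : l ∈ W₁ \ W₂) (m : Q) (hm : m ∉ W₃) :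
    P0 f A B C W₁ W₂ W₃ ≤ cnt f (A \ B) l + cnt f (B \ A) l - cnt f C m := by
  have h1 : (univ.filter fun x => f x = l) ⊆
      ((((A \ B).filter fun x => f x = l) ∪ ((B \ A).filter fun x => f x = l)) ∪
        ((A ∪ B) ∆ pre f W₁)) ∪ ((A ∩ B) ∆ pre f W₂) := by
    intro x hx
    have hx' := (mem_filter.1 hx).2
    have hl1 := (mem_sdiff.1 hl).1
    have hl2 := (mem_sdiff.1 hl).2
    simp only [mem_union, mem_filter, mem_sdiff, mem_symmDiff, mem_inter, pre, mem_univ, true_and,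
      hx', hl1, hl2]
    tauto
  have h2 : (univ.filter fun x => f x = l).card ≤
      ((A \ B).filter fun x => f x = l).card + ((B \ A).filter fun x => f x = l).card +
        ((A ∪ B) ∆ pre f W₁).card + ((A ∩ B) ∆ pre f W₂).card := by
    refine le_trans (card_le_card h1) (le_trans (card_union_le _ _) ?_)
    refine Nat.add_le_add_right (le_trans (card_union_le _ _) ?_) _
    exact Nat.add_le_add_right (card_union_le _ _) _
  have h3 : (C.filter fun x => f x = m).card ≤ (C ∆ pre f W₃).card := by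
    refine card_le_card fun x hx => ?_
    have hx' := mem_filter.1 hx
    simp only [mem_symmDiff, pre, mem_filter, mem_univ, true_and, hx'.2, hm, hx'.1]
    tauto
  unfold P0 Psi sig cnt
  rw [pb2a_fib f hf l]
  have h2' : ((univ.filter fun x => f x = l).card : ℤ) ≤
      (((A \ B).filter fun x => f x = l).card : ℤ) + (((B \ A).filter fun x => f x = l).card : ℤ) +
        (((A ∪ B) ∆ pre f W₁).card : ℤ) + (((A ∩ B) ∆ pre f W₂).card : ℤ) := by exact_mod_cast h2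
  have h3' : ((C.filter fun x => f x = m).card : ℤ) ≤ ((C ∆ pre f W₃).card : ℤ) := by
    exact_mod_cast h3
  linarith

lemma pb2a_sq {P a b d : ℤ} (hP : 1 ≤ P) (ha : P ≤ 2 * a) (hb : P ≤ 2 * b) (hd : a * b ≤ d) :
    P ^ 2 ≤ 4 * d := by
  nlinarith

end PB2aAux

theorem pb2a : PB2a.{u} := by
  intro G _ _ _ Q _ _ _ f A B C W₁ W₂ W₃ hC h0
  obtain ⟨hf, -, -, -, -, hP, -⟩ := hC
  obtain ⟨-, -, -, -, hN, hd⟩ := h0
  have hJ : ∀ i, i ∈ JJ f A B C W₁ W₂ W₃ ↔
      i ∈ W₁ \ W₂ ∧ P0 f A B C W₁ W₂ W₃ < 2 * mm f A B i := by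
    intro i
    unfold JJ
    rw [mem_filter]
  -- (F1) for light fibres
  have F1x : ∀ l ∈ W₁ \ W₂, l ∉ JJ f A B C W₁ W₂ W₃ → ∀ m ∉ W₃,
      cnt f (B \ A) l ≤ cnt f (A \ B) l →
      P0 f A B C W₁ W₂ W₃ ≤ 2 * (cnt f (A \ B) l - cnt f C m) := by
    intro l hl hlJ m hm hxy
    have h1 := pb2a_F1 f hf A B C W₁ W₂ W₃ l hl m hm
    have h2 : ¬ P0 f A B C W₁ W₂ W₃ < 2 * mm f A B l := fun h => hlJ ((hJ l).2 ⟨hl, h⟩)
    unfold mm at h2
    rw [min_eq_right hxy] at h2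
    linarith
  have F1y : ∀ l ∈ W₁ \ W₂, l ∉ JJ f A B C W₁ W₂ W₃ → ∀ m ∉ W₃,
      cnt f (A \ B) l ≤ cnt f (B \ A) l →
      P0 f A B C W₁ W₂ W₃ ≤ 2 * (cnt f (B \ A) l - cnt f C m) := by
    intro l hl hlJ m hm hxy
    have h1 := pb2a_F1 f hf A B C W₁ W₂ W₃ l hl m hm
    have h2 : ¬ P0 f A B C W₁ W₂ W₃ < 2 * mm f A B l := fun h => hlJ ((hJ l).2 ⟨hl, h⟩)
    unfold mm at h2
    rw [min_eq_left hxy] at h2
    linarith
  -- (F2)
  have F2 : ∀ j ∈ JJ f A B C W₁ W₂ W₃, ∀ l ∈ W₁ \ W₂, -j - l ∉ W₃ →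
      l ∈ JJ f A B C W₁ W₂ W₃ := by
    intro j hj l hl hb
    by_contra hlJ
    have hj2 := ((hJ j).1 hj).2
    unfold mm at hj2
    have hjx : P0 f A B C W₁ W₂ W₃ ≤ 2 * cnt f (A \ B) j := by
      have := min_le_left (cnt f (A \ B) j) (cnt f (B \ A) j)
      linarith
    have hjy : P0 f A B C W₁ W₂ W₃ ≤ 2 * cnt f (B \ A) j := by
      have := min_le_right (cnt f (A \ B) j) (cnt f (B \ A) j)
      linarith
    rcases le_total (cnt f (B \ A) l) (cnt f (A \ B) l) with hxy | hxy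
    · have e : -l - j = -j - l := by abel
      have h1 := F1x l hl hlJ _ hb hxy
      have h2 := pb2a_df_right f (A \ B) (B \ A) C l j
      rw [e] at h2
      have h3 := pb2a_sq hP hjy h1 (le_trans h2 (pb2a_df_le f A B C _))
      linarith
    · have h1 := F1y l hl hlJ _ hb hxy
      have h2 := pb2a_df_left f (A \ B) (B \ A) C j l
      have h3 := pb2a_sq hP hjx h1 (le_trans h2 (pb2a_df_le f A B C _))
      linarith
  refine ⟨F2, ?_⟩
  -- (F3)
  have opp : ∀ i ∈ (W₁ \ W₂) \ JJ f A B C W₁ W₂ W₃, ∀ l ∈ (W₁ \ W₂) \ JJ f A B C W₁ W₂ W₃,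
      -i - l ∉ W₃ → cnt f (B \ A) i ≤ cnt f (A \ B) i → cnt f (B \ A) l ≤ cnt f (A \ B) l := by
    intro i hi l hl hb hxy
    by_contra hlt
    have hlt' : cnt f (A \ B) l ≤ cnt f (B \ A) l := le_of_lt (not_le.1 hlt)
    have h1 := F1x i (mem_sdiff.1 hi).1 (mem_sdiff.1 hi).2 _ hb hxy
    have h2 := F1y l (mem_sdiff.1 hl).1 (mem_sdiff.1 hl).2 _ hb hlt'
    have h3 := pb2a_df_left f (A \ B) (B \ A) C i l
    have h4 := pb2a_cnt_nonneg f C (-i - l)
    have h5 : P0 f A B C W₁ W₂ W₃ ≤ 2 * cnt f (A \ B) i := by linarith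
    have h6 := pb2a_sq hP h5 h2 (le_trans h3 (pb2a_df_le f A B C _))
    linarith
  have hσ : ∀ i, ∃ l, i ∈ (W₁ \ W₂) \ JJ f A B C W₁ W₂ W₃ →
      l ∈ (W₁ \ W₂) \ JJ f A B C W₁ W₂ W₃ ∧ -i - l ∉ W₃ := by
    intro i
    by_cases hi : i ∈ (W₁ \ W₂) \ JJ f A B C W₁ W₂ W₃
    · obtain ⟨l, hl, hb⟩ := hN i (mem_sdiff.1 hi).1
      refine ⟨l, fun _ => ⟨mem_sdiff.2 ⟨hl, fun hlJ => ?_⟩, hb⟩⟩
      have e : -l - i = -i - l := by abel
      exact (mem_sdiff.1 hi).2 (F2 l hlJ i (mem_sdiff.1 hi).1 (e ▸ hb))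
    · exact ⟨i, fun h => absurd h hi⟩
  choose σ hσ using hσ
  have same : ∀ i ∈ (W₁ \ W₂) \ JJ f A B C W₁ W₂ W₃,
      (cnt f (B \ A) i ≤ cnt f (A \ B) i ↔ cnt f (B \ A) (σ i) ≤ cnt f (A \ B) (σ i)) := by
    intro i hi
    have e : -σ i - i = -i - σ i := by abel
    exact ⟨opp i hi _ (hσ i hi).1 (hσ i hi).2, opp _ (hσ i hi).1 i hi (e ▸ (hσ i hi).2)⟩
  let g : Q → Q × Q := fun i =>
    if cnt f (B \ A) i ≤ cnt f (A \ B) i then (σ i, i) else (i, σ i)
  have hg : Set.InjOn g (((W₁ \ W₂) \ JJ f A B C W₁ W₂ W₃ : Finset Q) : Set Q) := by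
    intro i hi j hj hij
    have hi' : i ∈ (W₁ \ W₂) \ JJ f A B C W₁ W₂ W₃ := hi
    have hj' : j ∈ (W₁ \ W₂) \ JJ f A B C W₁ W₂ W₃ := hj
    simp only [g] at hij
    by_cases h1 : cnt f (B \ A) i ≤ cnt f (A \ B) i <;>
      by_cases h2 : cnt f (B \ A) j ≤ cnt f (A \ B) j
    · rw [if_pos h1, if_pos h2] at hij
      exact (Prod.ext_iff.1 hij).2
    · rw [if_pos h1, if_neg h2] at hij
      have e : σ i = j := (Prod.ext_iff.1 hij).1
      exact absurd (e ▸ (same i hi').1 h1) h2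
    · rw [if_neg h1, if_pos h2] at hij
      have e : σ j = i := (Prod.ext_iff.1 hij).1.symm
      exact absurd (e ▸ (same j hj').1 h2) h1
    · rw [if_neg h1, if_neg h2] at hij
      exact (Prod.ext_iff.1 hij).1
  have hE : ∀ i ∈ (W₁ \ W₂) \ JJ f A B C W₁ W₂ W₃,
      (g i).1 ∈ (W₁ \ W₂) \ JJ f A B C W₁ W₂ W₃ ∧ (g i).2 ∈ (W₁ \ W₂) \ JJ f A B C W₁ W₂ W₃ := by
    intro i hi
    simp only [g]
    split_ifs
    · exact ⟨(hσ i hi).1, hi⟩
    · exact ⟨hi, (hσ i hi).1⟩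
  have hsum := pb2a_sum_le f A B C _ g hg hE
  have hpt : ∀ i ∈ (W₁ \ W₂) \ JJ f A B C W₁ W₂ W₃,
      mm f A B i * P0 f A B C W₁ W₂ W₃ ≤ 2 * pb2a_df f (A \ B) (B \ A) C (g i) := by
    intro i hi
    have hs := (hσ i hi).1
    have hb := (hσ i hi).2
    simp only [g]
    unfold mm
    split_ifs with h1
    · rw [min_eq_right h1]
      have e : -σ i - i = -i - σ i := by abel
      have h2 := F1x _ (mem_sdiff.1 hs).1 (mem_sdiff.1 hs).2 _ hb ((same i hi).1 h1)
      have h3 := pb2a_df_right f (A \ B) (B \ A) C (σ i) i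
      rw [e] at h3
      have h4 := pb2a_cnt_nonneg f (B \ A) i
      nlinarith
    · rw [min_eq_left (le_of_lt (not_le.1 h1))]
      have h1' : cnt f (A \ B) (σ i) ≤ cnt f (B \ A) (σ i) :=
        le_of_lt (not_le.1 fun h => h1 ((same i hi).2 h))
      have h2 := F1y _ (mem_sdiff.1 hs).1 (mem_sdiff.1 hs).2 _ hb h1'
      have h3 := pb2a_df_left f (A \ B) (B \ A) C i (σ i)
      have h4 := pb2a_cnt_nonneg f (A \ B) i
      nlinarith
  unfold muL
  rw [sum_mul]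
  refine le_trans (sum_le_sum hpt) ?_
  rw [← mul_sum]
  linarith

end Pool.Agent.MP_ed46bc_co.SP
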