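import Pool.Agent.MP_ed46bc_co.SP.Spec

/-! Row PB2b: the heavy fibres of the pull-back. -/

namespace Pool.Agent.MP_ed46bc_co.SP

open Finset
open scoped symmDiff

universe u

section

variable {G : Type u} [AddCommGroup G] [Fintype G] [DecidableEq G]
variable {Q : Type u} [AddCommGroup Q] [Fintype Q] [DecidableEq Q]

theorem pb2b_T (X Y R : Finset G) :
    T X Y R = (((X ×ˢ Y).filter fun p : G × G => -p.1 - p.2 ∈ R).card : ℤ) := by
  have e : ((X ×ˢ Y).filter fun p : G × G => -p.1 - p.2 ∈ R) =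
      univ.filter fun p : G × G => p.1 ∈ X ∧ p.2 ∈ Y ∧ -p.1 - p.2 ∈ R := by
    ext p
    simp [and_assoc]
  rw [e, card_filter, Fintype.sum_prod_type]
  push_cast
  refine sum_congr rfl fun x _ => sum_congr rfl fun y _ => ?_
  by_cases a : x ∈ X <;> by_cases b : y ∈ Y <;> by_cases c : -x - y ∈ R <;> simp [ind, a, b, c]

omit [Fintype Q] [DecidableEq G] in
theorem pb2b_fib (f : G →+ Q) (h : Function.Surjective f) (j : Q) :
    (univ.filter fun x => f x = j).card = Nat.card f.ker := by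
  rw [AddMonoidHom.card_fiber_eq_of_mem_range f (h j) (h 0)]
  exact (Nat.subtype_card _ (by simp [AddMonoidHom.mem_ker])).symm

omit [Fintype G] [Fintype Q] in
/-- the defect of one pair of fibres -/
theorem pb2b_def (f : G →+ Q) (A B C : Finset G) (j l : Q) :
    cnt f (B \ A) l * (cnt f (A \ B) j - cnt f C (-j - l)) ≤ dfc A B C ∧
      cnt f (A \ B) j * (cnt f (B \ A) l - cnt f C (-j - l)) ≤ dfc A B C := by
  set X := (A \ B).filter fun x => f x = j with hX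
  set Y := (B \ A).filter fun x => f x = l with hY
  set Z := C.filter fun x => f x = -j - l with hZ
  have s := card_filter_add_card_filter_not (s := X ×ˢ Y) fun p : G × G => -p.1 - p.2 ∈ C
  rw [card_product] at s
  have m : ∀ p ∈ (X ×ˢ Y).filter fun p : G × G => -p.1 - p.2 ∈ C,
      p.1 ∈ X ∧ p.2 ∈ Y ∧ -p.1 - p.2 ∈ Z := by
    intro p hp
    obtain ⟨a, c⟩ := mem_filter.1 hp
    obtain ⟨a, b⟩ := mem_product.1 a
    refine ⟨a, b, mem_filter.2 ⟨c, ?_⟩⟩
    rw [map_sub, map_neg, (mem_filter.1 a).2, (mem_filter.1 b).2]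
  have a1 : ((X ×ˢ Y).filter fun p : G × G => -p.1 - p.2 ∈ C).card ≤ (Y ×ˢ Z).card := by
    refine card_le_card_of_injOn (fun p => (p.2, -p.1 - p.2))
      (fun p hp => mem_coe.2 (mem_product.2 (m p hp).2)) fun p _ q _ e => ?_
    obtain ⟨e1, e2⟩ := Prod.mk.inj e
    rw [e1] at e2
    exact Prod.ext (neg_injective (sub_left_injective e2)) e1
  have a2 : ((X ×ˢ Y).filter fun p : G × G => -p.1 - p.2 ∈ C).card ≤ (X ×ˢ Z).card := by
    refine card_le_card_of_injOn (fun p => (p.1, -p.1 - p.2))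
      (fun p hp => mem_coe.2 (mem_product.2 ⟨(m p hp).1, (m p hp).2.2⟩)) fun p _ q _ e => ?_
    obtain ⟨e1, e2⟩ := Prod.mk.inj e
    rw [e1] at e2
    exact Prod.ext e1 (sub_right_injective e2)
  have a3 : ((X ×ˢ Y).filter fun p : G × G => ¬ -p.1 - p.2 ∈ C).card ≤
      (((A \ B) ×ˢ (B \ A)).filter fun p : G × G => -p.1 - p.2 ∉ C).card :=
    card_le_card (filter_subset_filter _ (product_subset_product (filter_subset _ _)
      (filter_subset _ _)))
  rw [card_product] at a1 a2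
  simp only [cnt, dfc, ← hX, ← hY, ← hZ]
  zify at s a1 a2 a3
  constructor <;> linarith

omit [Fintype Q] in
/-- the deviation over one fibre of `J` -/
theorem pb2b_dj (f : G →+ Q) (h : Function.Surjective f) (A B : Finset G) (J : Finset Q) {j : Q}
    (hj : j ∈ J) : (Nat.card f.ker : ℤ) - cnt f (A \ B) j - cnt f (B \ A) j ≤ dJ f A B J := by
  have a : (univ.filter fun x => f x = j) ⊆ ((pre f J \ (A ∪ B)) ∪ (A ∩ B ∩ pre f J)) ∪
      (((A \ B).filter fun x => f x = j) ∪ (B \ A).filter fun x => f x = j) := by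
    intro x hx
    have e := (mem_filter.1 hx).2
    by_cases a : x ∈ A <;> by_cases b : x ∈ B <;> simp [pre, a, b, e, hj]
  have b := (card_le_card a).trans ((card_union_le _ _).trans
    (add_le_add (card_union_le _ _) (card_union_le _ _)))
  rw [pb2b_fib f h] at b
  simp only [cnt, dJ]
  zify at b
  linarith

omit [Fintype Q] in
theorem pb2b_sig (f : G →+ Q) (A B C : Finset G) (W₁ W₂ W₃ J : Finset Q) (hJ : J ⊆ W₁ \ W₂)
    {k k' : Q} (e : k ≠ k') (hk : k ∉ W₃) (hk' : k' ∉ W₃) :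
    dJ f A B J + cnt f C k + cnt f C k' ≤ sig (A ∪ B) (A ∩ B) C (pre f W₁) (pre f W₂) (pre f W₃) := by
  have a1 : pre f J \ (A ∪ B) ⊆ (A ∪ B) ∆ pre f W₁ := by
    intro x hx
    obtain ⟨a, b⟩ := mem_sdiff.1 hx
    have := mem_sdiff.1 (hJ (mem_filter.1 a).2)
    exact mem_symmDiff.2 (Or.inr ⟨mem_filter.2 ⟨mem_univ _, this.1⟩, b⟩)
  have a2 : A ∩ B ∩ pre f J ⊆ (A ∩ B) ∆ pre f W₂ := by
    intro x hx
    obtain ⟨a, b⟩ := mem_inter.1 hx
    have := mem_sdiff.1 (hJ (mem_filter.1 b).2)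
    exact mem_symmDiff.2 (Or.inl ⟨a, fun y => this.2 (mem_filter.1 y).2⟩)
  have a3 : (C.filter fun x => f x = k) ∪ (C.filter fun x => f x = k') ⊆ C ∆ pre f W₃ := by
    intro x hx
    rcases mem_union.1 hx with a | a <;> obtain ⟨a, b⟩ := mem_filter.1 a
    · exact mem_symmDiff.2 (Or.inl ⟨a, fun y => hk (b ▸ (mem_filter.1 y).2)⟩)
    · exact mem_symmDiff.2 (Or.inl ⟨a, fun y => hk' (b ▸ (mem_filter.1 y).2)⟩)
  have b3 := card_le_card a3
  rw [card_union_of_disjoint (disjoint_filter.2 fun x _ a b => e (a.symm.trans b))] at b3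
  have b1 := card_le_card a1
  have b2 := card_le_card a2
  simp only [cnt, dJ, sig]
  zify at b1 b2 b3
  linarith

omit [Fintype Q] in
theorem pb2b_on (f : G →+ Q) (A B C : Finset G) (D J : Finset Q) (k : Q) :
    T ((A \ B) ∩ pre f J) ((B \ A) ∩ pre f J) (pre f {k} \ C) + dfcOn f A B C (D \ J) ≤
      dfc A B C := by
  rw [pb2b_T, dfcOn, dfc, ← Nat.cast_add, ← card_union_of_disjoint]
  · refine Nat.cast_le.2 (card_le_card fun p hp => ?_)
    rcases mem_union.1 hp with a | a <;> obtain ⟨a, b⟩ := mem_filter.1 a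
    · obtain ⟨a1, a2⟩ := mem_product.1 a
      exact mem_filter.2 ⟨mem_product.2 ⟨(mem_inter.1 a1).1, (mem_inter.1 a2).1⟩, (mem_sdiff.1 b).2⟩
    · exact mem_filter.2 ⟨a, b.2.2⟩
  · refine disjoint_left.2 fun p a b => ?_
    exact (mem_sdiff.1 (mem_filter.1 b).2.1).2
      (mem_filter.1 (mem_inter.1 (mem_product.1 (mem_filter.1 a).1).1).2).2

end

theorem pb2b : PB2b.{u} := by
  intro G _ _ _ Q _ _ _ f A B C W₁ W₂ W₃ h h0 hL hm
  obtain ⟨hf, -, -, -, -, p1, -⟩ := h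
  obtain ⟨-, -, -, -, n1, n2⟩ := h0
  obtain ⟨l1, l2⟩ := hL
  have hs : JJ f A B C W₁ W₂ W₃ ⊆ W₁ \ W₂ := filter_subset _ _
  have on := pb2b_on f A B C (W₁ \ W₂) (JJ f A B C W₁ W₂ W₃)
  have key : ∀ j ∈ JJ f A B C W₁ W₂ W₃, ∀ l ∈ JJ f A B C W₁ W₂ W₃,
      sig (A ∪ B) (A ∩ B) C (pre f W₁) (pre f W₂) (pre f W₃) - dJ f A B (JJ f A B C W₁ W₂ W₃) <
        2 * cnt f C (-j - l) := by
    intro j hj l hl
    have a1 := (pb2b_def f A B C j l).1
    have a2 := (pb2b_def f A B C l j).2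
    rw [show -l - j = -j - l by abel] at a2
    have a3 := pb2b_dj f hf A B _ hj
    have a4 : P0 f A B C W₁ W₂ W₃ < 2 * mm f A B l := (mem_filter.1 hl).2
    have a5 : mm f A B l ≤ cnt f (A \ B) l := min_le_left _ _
    have a6 : mm f A B l ≤ cnt f (B \ A) l := min_le_right _ _
    have e : P0 f A B C W₁ W₂ W₃ = (Nat.card f.ker : ℤ) -
      sig (A ∪ B) (A ∩ B) C (pre f W₁) (pre f W₂) (pre f W₃) := rfl
    have b1 : 2 * (cnt f (A \ B) j - cnt f C (-j - l)) < P0 f A B C W₁ W₂ W₃ := by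
      by_contra x
      nlinarith
    have b2 : 2 * (cnt f (B \ A) j - cnt f C (-j - l)) < P0 f A B C W₁ W₂ W₃ := by
      by_contra x
      nlinarith
    linarith
  obtain ⟨j₀, hj₀⟩ : (JJ f A B C W₁ W₂ W₃).Nonempty := by
    by_contra x
    have e := not_nonempty_iff_eq_empty.1 x
    have o := on 0
    rw [pb2b_T] at o
    have m : muL f A B C W₁ W₂ W₃ = ∑ i ∈ W₁ \ W₂, mm f A B i := by rw [muL, e, sdiff_empty]
    rw [← m] at hm
    have z := Nat.cast_nonneg (α := ℤ) ((((A \ B) ∩ pre f (JJ f A B C W₁ W₂ W₃)) ×ˢ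
      ((B \ A) ∩ pre f (JJ f A B C W₁ W₂ W₃))).filter
      fun p : G × G => -p.1 - p.2 ∈ pre f {0} \ C).card
    nlinarith
  obtain ⟨l₀, d₀, w₀⟩ := n1 j₀ (hs hj₀)
  have k₀ := key j₀ hj₀ l₀ (l1 j₀ hj₀ l₀ d₀ w₀)
  have un : ∀ j ∈ JJ f A B C W₁ W₂ W₃, ∀ l ∈ W₁ \ W₂, -j - l ∉ W₃ → -j - l = -j₀ - l₀ := by
    intro j hj l hl w
    by_contra x
    have a := key j hj l (l1 j hj l hl w)
    have b := pb2b_sig f A B C W₁ W₂ W₃ _ hs x w w₀
    linarith
  refine ⟨-j₀ - l₀, w₀, fun j hj => ?_, un, k₀, by linarith [on (-j₀ - l₀)]⟩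
  obtain ⟨l, d, w⟩ := n1 j (hs hj)
  rw [← un j hj l d w, show -(-j - l) - j = l by abel]
  exact l1 j hj l d w

end Pool.Agent.MP_ed46bc_co.SP
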