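import Pool.Agent.MP_ed46bc_co.SP.Spec

/-!
# Row PB3: the star inequality
-/

namespace Pool.Agent.MP_ed46bc_co.SP

open Finset
open scoped symmDiff

universe u

section Aux

variable {G : Type u} [AddCommGroup G] [Fintype G] [DecidableEq G]
variable {Q : Type u} [AddCommGroup Q] [Fintype Q] [DecidableEq Q]

omit [DecidableEq G] [Fintype Q] in
theorem pb3_mem_pre (f : G →+ Q) (W : Finset Q) (x : G) : x ∈ pre f W ↔ f x ∈ W := by
  simp [pre]

theorem pb3_swap (X Y Z : Finset G) : T X Y Z = T Y X Z := by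
  unfold T T3
  rw [Finset.sum_comm]
  refine Finset.sum_congr rfl fun y _ => Finset.sum_congr rfl fun x _ => ?_
  have h : -x - y = -y - x := by abel
  rw [h]; ring

theorem pb3_add1 (X X₁ X₂ Y Z : Finset G) (h : ∀ x, ind X x = ind X₁ x + ind X₂ x) :
    T X Y Z = T X₁ Y Z + T X₂ Y Z := by
  unfold T T3
  rw [← Finset.sum_add_distrib]
  refine Finset.sum_congr rfl fun x _ => ?_
  rw [← Finset.sum_add_distrib]
  refine Finset.sum_congr rfl fun y _ => ?_
  rw [h x]; ring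

theorem pb3_add2 (X Y Y₁ Y₂ Z : Finset G) (h : ∀ x, ind Y x = ind Y₁ x + ind Y₂ x) :
    T X Y Z = T X Y₁ Z + T X Y₂ Z := by
  rw [pb3_swap X Y, pb3_add1 Y Y₁ Y₂ X Z h, pb3_swap Y₁ X, pb3_swap Y₂ X]

omit [AddCommGroup G] in
theorem pb3_card_sum (X : Finset G) : (X.card : ℤ) = ∑ x, ind X x := by
  unfold ind
  rw [Finset.sum_ite_mem, Finset.univ_inter]
  simp

omit [AddCommGroup G] in
theorem pb3_card_add (X X₁ X₂ : Finset G) (h : ∀ x, ind X x = ind X₁ x + ind X₂ x) :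
    (X.card : ℤ) = X₁.card + X₂.card := by
  rw [pb3_card_sum X, pb3_card_sum X₁, pb3_card_sum X₂, ← Finset.sum_add_distrib]
  exact Finset.sum_congr rfl fun x _ => h x

theorem pb3_T_card (X Y Z : Finset G) :
    T X Y Z = (((X ×ˢ Y).filter fun p : G × G => -p.1 - p.2 ∈ Z).card : ℤ) := by
  have h1 : ∀ g : G → ℤ, ∀ S : Finset G, ∑ x, ind S x * g x = ∑ x ∈ S, g x := by
    intro g S
    simp [ind, Finset.sum_ite_mem]
  unfold T T3
  rw [Finset.card_filter, Nat.cast_sum, Finset.sum_product, ← h1 _ X]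
  refine Finset.sum_congr rfl fun x _ => ?_
  rw [← h1 _ Y, Finset.mul_sum]
  refine Finset.sum_congr rfl fun y _ => ?_
  rw [mul_assoc]
  congr 2
  unfold ind
  split_ifs <;> simp

theorem pb3_T_nonneg (X Y Z : Finset G) : 0 ≤ T X Y Z := by
  rw [pb3_T_card]; positivity

theorem pb3_T_le (X Y Z : Finset G) : T X Y Z ≤ (X.card : ℤ) * Y.card := by
  rw [pb3_T_card]
  have h := Finset.card_filter_le (X ×ˢ Y) fun p : G × G => -p.1 - p.2 ∈ Z
  rw [Finset.card_product] at h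
  exact_mod_cast h

theorem pb3_dfc (A B C : Finset G) :
    dfc A B C = ((A \ B).card : ℤ) * (B \ A).card - T (A \ B) (B \ A) C := by
  rw [pb3_T_card]
  unfold dfc
  have h := Finset.card_filter_add_card_filter_not (s := (A \ B) ×ˢ (B \ A))
    fun p : G × G => -p.1 - p.2 ∈ C
  rw [Finset.card_product] at h
  have h' := congrArg (Nat.cast : ℕ → ℤ) h
  push_cast at h'
  linarith

theorem pb3_move (A B C : Finset G) : Gam A B C = Gam (A ∪ B) (A ∩ B) C - 4 * dfc A B C := by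
  have hA : ∀ x, ind A x = ind (A ∩ B) x + ind (A \ B) x := by
    intro x; by_cases a : x ∈ A <;> by_cases b : x ∈ B <;> simp [ind, a, b]
  have hB : ∀ x, ind B x = ind (A ∩ B) x + ind (B \ A) x := by
    intro x; by_cases a : x ∈ A <;> by_cases b : x ∈ B <;> simp [ind, a, b]
  have hU : ∀ x, ind (A ∪ B) x = ind A x + ind (B \ A) x := by
    intro x; by_cases a : x ∈ A <;> by_cases b : x ∈ B <;> simp [ind, a, b]
  have t1 := pb3_add2 A B _ _ C hB
  have t2 := pb3_add1 A _ _ (B \ A) C hA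
  have t3 := pb3_add1 (A ∪ B) _ _ (A ∩ B) C hU
  have t4 := pb3_swap (B \ A) (A ∩ B) C
  have c1 := pb3_card_add _ _ _ hA
  have c2 := pb3_card_add _ _ _ hB
  have c3 := pb3_card_add _ _ _ hU
  rw [pb3_dfc]
  unfold Gam
  rw [t1, t2, t3, t4, c3, c2, c1]
  ring

omit [DecidableEq G] [Fintype Q] in
theorem pb3_card_fib (f : G →+ Q) (hf : Function.Surjective f) (k : Q) :
    (pre f {k}).card = Nat.card f.ker := by
  obtain ⟨x₀, hx₀⟩ := hf k
  have h1 : Nat.card f.ker = (pre f {0}).card :=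
    Nat.subtype_card _ fun x => by simp [pre, AddMonoidHom.mem_ker]
  rw [h1]
  symm
  refine Finset.card_equiv (Equiv.addRight x₀) fun x => ?_
  simp [pre, hx₀]

omit [Fintype Q] in
theorem pb3_T_full (f : G →+ Q) (J : Finset Q) (k : Q) (hJ : ∀ j ∈ J, -k - j ∈ J)
    (X R : Finset G) (hX : ∀ x ∈ X, f x ∈ J) (hR : ∀ r ∈ R, f r = k) :
    T X (pre f J) R = (X.card : ℤ) * R.card := by
  rw [pb3_card_sum X, Finset.sum_mul]
  unfold T T3
  refine Finset.sum_congr rfl fun x _ => ?_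
  rw [pb3_card_sum R, Finset.mul_sum, ← Equiv.sum_comp (Equiv.subLeft (-x))]
  refine Finset.sum_congr rfl fun y _ => ?_
  have e : -x - (Equiv.subLeft (-x)) y = y := by simp
  rw [e]
  by_cases a : x ∈ X
  · by_cases b : y ∈ R
    · have hm : (Equiv.subLeft (-x)) y ∈ pre f J := by
        rw [pb3_mem_pre]
        have := hJ _ (hX x a)
        rw [← hR y b] at this
        have e2 : f ((Equiv.subLeft (-x)) y) = -f y - f x := by
          simp only [Equiv.subLeft_apply, map_sub, map_neg]; abel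
        rw [e2]; exact this
      simp only [ind, a, b, hm, if_true, mul_one]
    · simp [ind, b]
  · simp [ind, a]

omit [Fintype Q] in
/-- The frustrated pairs over the heavy fibres. -/
theorem pb3_fr (f : G →+ Q) (U I C : Finset G) (W₁ W₂ W₃ J : Finset Q) (k : Q)
    (hJ : J ⊆ W₁ \ W₂) (hk : k ∉ W₃)
    (hb : ∀ j ∈ J, ∀ l ∈ W₁ \ W₂, -j - l ∉ W₃ → -j - l = k) :
    ((pre f J \ U).card : ℤ) * (I ∩ pre f J).card
      ≤ Fr U (pre f W₁) I (pre f W₂) (pre f W₃) + Fr U (pre f W₁) C (pre f W₃) I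
        + T (pre f J \ U) (I ∩ pre f J) (pre f {k} \ C) := by
  set S := (pre f J \ U) ×ˢ (I ∩ pre f J) with hS
  have hmem : ∀ p ∈ S, f p.1 ∈ J ∧ p.1 ∉ U ∧ p.2 ∈ I ∧ f p.2 ∈ J := by
    intro p hp
    rw [hS, Finset.mem_product, Finset.mem_sdiff, Finset.mem_inter, pb3_mem_pre,
      pb3_mem_pre] at hp
    exact ⟨hp.1.1, hp.1.2, hp.2.1, hp.2.2⟩
  have hsub : S ⊆ (S.filter fun p : G × G => -p.1 - p.2 ∈ pre f W₃) ∪
      (S.filter fun p : G × G => -p.1 - p.2 ∈ C ∩ pre f {k}) ∪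
      (S.filter fun p : G × G => -p.1 - p.2 ∈ pre f {k} \ C) := by
    intro p hp
    obtain ⟨h1, _, _, h4⟩ := hmem p hp
    have e : f (-p.1 - p.2) = -f p.1 - f p.2 := by simp
    simp only [Finset.mem_union, Finset.mem_filter, Finset.mem_inter, Finset.mem_sdiff,
      pb3_mem_pre, Finset.mem_singleton, e]
    by_cases h3 : -f p.1 - f p.2 ∈ W₃
    · exact Or.inl (Or.inl ⟨hp, h3⟩)
    · have hkk := hb _ h1 _ (hJ h4) h3
      by_cases hc : -p.1 - p.2 ∈ C
      · exact Or.inl (Or.inr ⟨hp, hc, hkk⟩)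
      · exact Or.inr ⟨hp, hkk, hc⟩
  have h1 : ((S.filter fun p : G × G => -p.1 - p.2 ∈ pre f W₃).card : ℤ)
      ≤ Fr U (pre f W₁) I (pre f W₂) (pre f W₃) := by
    unfold Fr
    refine Nat.cast_le.mpr (Finset.card_le_card fun p hp => ?_)
    rw [Finset.mem_filter] at hp
    obtain ⟨a1, a2, a3, a4⟩ := hmem p hp.1
    have b1 := Finset.mem_sdiff.mp (hJ a1)
    have b4 := Finset.mem_sdiff.mp (hJ a4)
    rw [Finset.mem_filter, Finset.mem_product, Finset.mem_symmDiff, Finset.mem_symmDiff,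
      pb3_mem_pre f W₁, pb3_mem_pre f W₂]
    refine ⟨⟨Or.inr ⟨b1.1, a2⟩, Or.inl ⟨a3, b4.2⟩⟩, ?_⟩
    have := hp.2
    tauto
  have h2 : ((S.filter fun p : G × G => -p.1 - p.2 ∈ C ∩ pre f {k}).card : ℤ)
      ≤ Fr U (pre f W₁) C (pre f W₃) I := by
    unfold Fr
    refine Nat.cast_le.mpr (Finset.card_le_card_of_injOn
      (fun p : G × G => (p.1, -p.1 - p.2)) (fun p hp => ?_) ?_)
    · rw [Finset.mem_coe, Finset.mem_filter, Finset.mem_inter, pb3_mem_pre,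
        Finset.mem_singleton] at hp
      obtain ⟨a1, a2, a3, a4⟩ := hmem p hp.1
      have b1 := Finset.mem_sdiff.mp (hJ a1)
      have e : -p.1 - (-p.1 - p.2) = p.2 := by abel
      rw [Finset.mem_coe, Finset.mem_filter, Finset.mem_product, Finset.mem_symmDiff,
        Finset.mem_symmDiff, pb3_mem_pre f W₁, pb3_mem_pre f W₃]
      dsimp only
      rw [e, hp.2.2]
      refine ⟨⟨Or.inr ⟨b1.1, a2⟩, Or.inl ⟨hp.2.1, hk⟩⟩, ?_⟩
      have := hp.2.1
      tauto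
    · intro p _ q _ hpq
      have e1 : p.1 = q.1 := (Prod.ext_iff.mp hpq).1
      have e2 : -p.1 - p.2 = -q.1 - q.2 := (Prod.ext_iff.mp hpq).2
      rw [e1] at e2
      exact Prod.ext e1 (sub_right_injective e2)
  have h3 := pb3_T_card (pre f J \ U) (I ∩ pre f J) (pre f {k} \ C)
  rw [← hS] at h3
  have h4 := (Finset.card_le_card hsub).trans ((Finset.card_union_le _ _).trans
    (Nat.add_le_add_right (Finset.card_union_le _ _) _))
  have h5 : (S.card : ℤ) = ((pre f J \ U).card : ℤ) * (I ∩ pre f J).card := by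
    rw [hS, Finset.card_product]; push_cast; rfl
  have h6 := (Nat.cast_le (α := ℤ)).mpr h4
  push_cast at h6
  linarith

omit [Fintype Q] in
/-- The gain of the star triple. -/
theorem pb3_star (f : G →+ Q) (A B R : Finset G) (J : Finset Q) (k : Q)
    (hJ : ∀ j ∈ J, -k - j ∈ J) (hR : ∀ r ∈ R, f r = k) :
    Gam (A ∩ pre f J) (pre f J \ B) R = ((R.card : ℤ) - dJ f A B J) ^ 2
      - 4 * (((pre f J \ (A ∪ B)).card : ℤ) * (A ∩ B ∩ pre f J).card)
      - 4 * T ((A \ B) ∩ pre f J) ((B \ A) ∩ pre f J) R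
      + 4 * T (pre f J \ (A ∪ B)) (A ∩ B ∩ pre f J) R := by
  set P := pre f J with hP
  have hA : ∀ x, ind (A ∩ P) x = ind (A ∩ B ∩ P) x + ind ((A \ B) ∩ P) x := by
    intro x
    by_cases a : x ∈ A <;> by_cases b : x ∈ B <;> by_cases c : x ∈ P <;> simp [ind, a, b, c]
  have hY : ∀ x, ind (P \ B) x = ind ((A \ B) ∩ P) x + ind (P \ (A ∪ B)) x := by
    intro x
    by_cases a : x ∈ A <;> by_cases b : x ∈ B <;> by_cases c : x ∈ P <;> simp [ind, a, b, c]
  have hQ : ∀ x, ind P x = ind (P \ B) x + ind (B ∩ P) x := by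
    intro x
    by_cases b : x ∈ B <;> by_cases c : x ∈ P <;> simp [ind, b, c]
  have hB : ∀ x, ind (B ∩ P) x = ind (A ∩ B ∩ P) x + ind ((B \ A) ∩ P) x := by
    intro x
    by_cases a : x ∈ A <;> by_cases b : x ∈ B <;> by_cases c : x ∈ P <;> simp [ind, a, b, c]
  have t0 := pb3_T_full f J k hJ ((A \ B) ∩ P) R
    (fun x hx => (pb3_mem_pre f J x).mp (Finset.mem_inter.mp hx).2) hR
  rw [← hP] at t0
  have t1 := pb3_add1 _ _ _ (P \ B) R hA
  have t2 := pb3_add2 (A ∩ B ∩ P) _ _ _ R hY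
  have t3 := pb3_add2 ((A \ B) ∩ P) _ _ _ R hQ
  have t4 := pb3_add2 ((A \ B) ∩ P) _ _ _ R hB
  have t5 := pb3_swap (A ∩ B ∩ P) ((A \ B) ∩ P) R
  have t6 := pb3_swap (A ∩ B ∩ P) (P \ (A ∪ B)) R
  have c1 := pb3_card_add _ _ _ hA
  have c2 := pb3_card_add _ _ _ hY
  have t7 : T (A ∩ P) (P \ B) R = (((A \ B) ∩ P).card : ℤ) * R.card
      - T ((A \ B) ∩ P) ((B \ A) ∩ P) R + T (P \ (A ∪ B)) (A ∩ B ∩ P) R := by linarith
  unfold Gam dJ
  rw [← hP, t7, c1, c2]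
  ring

end Aux

theorem pb3 (h : ACC.{u, u}) : PB3.{u} := by
  intro G _ _ _ Q _ _ _ f A B C W₁ W₂ W₃ k hc hh
  obtain ⟨hf, -, hg, hgood, -⟩ := hc
  obtain ⟨hk, hJ, hb, -, hlast⟩ := hh
  set J := JJ f A B C W₁ W₂ W₃ with hJdef
  have hJs : J ⊆ W₁ \ W₂ := Finset.filter_subset _ _
  have hR : ∀ r ∈ pre f {k} \ C, f r = k := fun r hr => by
    have := (Finset.mem_sdiff.mp hr).1
    rwa [pb3_mem_pre, Finset.mem_singleton] at this
  have hstar := pb3_star f A B (pre f {k} \ C) J k hJ hR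
  have hfr := pb3_fr f (A ∪ B) (A ∩ B) C W₁ W₂ W₃ J k hJs hk hb
  have hacc := h G Q f (A ∪ B) (A ∩ B) C W₁ W₂ W₃ hf
  have hmove := pb3_move A B C
  have e1 : 0 ≤ ∑ x ∈ (A ∪ B) ∆ pre f W₁, ex W₁ W₂ W₃ (f x) :=
    Finset.sum_nonneg fun x _ => by rcases hgood.1 (f x) with a | a <;> omega
  have e2 : 0 ≤ ∑ x ∈ (A ∩ B) ∆ pre f W₂, ex W₂ W₁ W₃ (f x) :=
    Finset.sum_nonneg fun x _ => by rcases hgood.2.1 (f x) with a | a <;> omega
  have e3 : 0 ≤ ∑ x ∈ C ∆ pre f W₃, ex W₃ W₁ W₂ (f x) :=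
    Finset.sum_nonneg fun x _ => by rcases hgood.2.2 (f x) with a | a <;> omega
  have e4 := mul_nonneg (Nat.cast_nonneg (α := ℤ) (Nat.card f.ker))
    (add_nonneg (add_nonneg e1 e2) e3)
  have n1 : 0 ≤ NN (A ∪ B) (pre f W₁) := by unfold NN; positivity
  have n2 : 0 ≤ NN (A ∩ B) (pre f W₂) := by unfold NN; positivity
  have n3 : 0 ≤ NN C (pre f W₃) := by unfold NN; positivity
  have n4 : 0 ≤ Fr (A ∩ B) (pre f W₂) C (pre f W₃) (pre f W₁) := by unfold Fr; positivity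
  have hP : P0 f A B C W₁ W₂ W₃
      = (Nat.card f.ker : ℤ) - sig (A ∪ B) (A ∩ B) C (pre f W₁) (pre f W₂) (pre f W₃) := rfl
  have hP2 : P0 f A B C W₁ W₂ W₃ ^ 2 = (Nat.card f.ker : ℤ) ^ 2
      - 2 * (Nat.card f.ker : ℤ) * sig (A ∪ B) (A ∩ B) C (pre f W₁) (pre f W₂) (pre f W₃)
      + sig (A ∪ B) (A ∩ B) C (pre f W₁) (pre f W₂) (pre f W₃) ^ 2 := by rw [hP]; ring
  rw [hg, mul_one] at hacc
  refine ⟨?_, ?_, ?_⟩
  · rw [mul_assoc 2 (muL f A B C W₁ W₂ W₃)]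
    linarith
  · have a1 := pb3_T_nonneg ((A \ B) ∩ pre f J) ((B \ A) ∩ pre f J) (pre f {k} \ C)
    have a2 := pb3_T_le (pre f J \ (A ∪ B)) (A ∩ B ∩ pre f J) (pre f {k} \ C)
    linarith
  · have s1 : (pre f J \ (A ∪ B)).card ≤ ((A ∪ B) ∆ pre f W₁).card := by
      refine Finset.card_le_card fun x hx => ?_
      rw [Finset.mem_sdiff, pb3_mem_pre] at hx
      rw [Finset.mem_symmDiff, pb3_mem_pre]
      exact Or.inr ⟨(Finset.mem_sdiff.mp (hJs hx.1)).1, hx.2⟩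
    have s2 : (A ∩ B ∩ pre f J).card ≤ ((A ∩ B) ∆ pre f W₂).card := by
      refine Finset.card_le_card fun x hx => ?_
      rw [Finset.mem_inter, pb3_mem_pre] at hx
      rw [Finset.mem_symmDiff, pb3_mem_pre]
      exact Or.inl ⟨hx.1, (Finset.mem_sdiff.mp (hJs hx.2)).2⟩
    have s3 : (pre f {k} ∩ C).card ≤ (C ∆ pre f W₃).card := by
      refine Finset.card_le_card fun x hx => ?_
      rw [Finset.mem_inter, pb3_mem_pre, Finset.mem_singleton] at hx
      rw [Finset.mem_symmDiff, pb3_mem_pre, hx.1]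
      exact Or.inl ⟨hx.2, hk⟩
    have s4 := Finset.card_sdiff_add_card_inter (pre f {k}) C
    rw [pb3_card_fib f hf k] at s4
    rw [hP]
    unfold sig dJ
    omega

end Pool.Agent.MP_ed46bc_co.SP
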