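import Pool.Agent.MP_ed46bc_co.SP.Spec

/-! Row PB4: the star triple has a larger maximal slack. -/

namespace Pool.Agent.MP_ed46bc_co.SP

open Finset
open scoped symmDiff

universe u

section
variable {G Q : Type u} [AddCommGroup G] [Fintype G] [DecidableEq G]
  [AddCommGroup Q] [Fintype Q] [DecidableEq Q]

omit [AddCommGroup G] in
theorem pb4_ind (S : Finset G) : (S.card : ℤ) = ∑ x, if x ∈ S then 1 else 0 := by simp

omit [AddCommGroup G] [DecidableEq G] in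
theorem pb4_univ : (Fintype.card G : ℤ) = ∑ _x : G, 1 := by simp

omit [DecidableEq G] [Fintype Q] in
theorem pb4_mem (f : G →+ Q) (W : Finset Q) (x : G) : x ∈ pre f W ↔ f x ∈ W := by simp [pre]

omit [DecidableEq G] [Fintype Q] in
theorem pb4_fib (f : G →+ Q) (hf : Function.Surjective f) (i : Q) :
    (pre f {i}).card = Nat.card f.ker := by
  rw [Nat.subtype_card (p := fun x => x ∈ f.ker) (univ.filter fun x => f x = 0) (by simp),
    ← AddMonoidHom.card_fiber_eq_of_mem_range f (hf i) ⟨0, map_zero f⟩]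
  simp [pre]

omit [DecidableEq G] [Fintype Q] in
theorem pb4_le (f : G →+ Q) (hf : Function.Surjective f) {W : Finset Q} (h : W.Nonempty) :
    (Nat.card f.ker : ℤ) ≤ (pre f W).card := by
  obtain ⟨i, hi⟩ := h
  rw [← pb4_fib f hf i]
  exact_mod_cast card_le_card fun x hx => by
    rw [pb4_mem] at hx ⊢
    rwa [mem_singleton.1 hx]

omit [AddCommGroup G] in
theorem pb4_pt (A B D P₁ P₂ Z : Finset G) (h : ∀ x, (x ∈ D → x ∈ P₁ ∧ x ∉ P₂) ∧
    (x ∈ P₂ → x ∈ P₁) ∧ (x ∈ Z → x ∉ P₁)) :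
    ((A ∩ D).card : ℤ) = (A ∩ B ∩ D).card + ((A \ B) ∩ D).card ∧
    ((D \ B).card : ℤ) = ((A \ B) ∩ D).card + (D \ (A ∪ B)).card ∧
    3 * ((A ∩ B ∩ D).card : ℤ) + ((A \ B) ∩ D).card + ((B \ A) ∩ D).card + 2 * P₂.card
      + (D \ (A ∪ B)).card ≤ A.card + B.card + ((A ∪ B) ∆ P₁).card + ((A ∩ B) ∆ P₂).card ∧
    ((A ∩ D).card : ℤ) + P₂.card ≤ A.card + ((A ∩ B) ∆ P₂).card ∧
    ((D \ B).card : ℤ) + B.card ≤ Fintype.card G ∧
    ((A ∩ B ∩ D).card : ℤ) + ((B \ A) ∩ D).card + P₂.card ≤ B.card + ((A ∩ B) ∆ P₂).card ∧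
    (A.card : ℤ) + ((B \ A) ∩ D).card + (D \ (A ∪ B)).card ≤ Fintype.card G ∧
    (A.card : ℤ) + B.card + ((A \ B) ∩ D).card + ((B \ A) ∩ D).card + 3 * (D \ (A ∪ B)).card
      + (A ∩ B ∩ D).card + 2 * Z.card
      ≤ 2 * Fintype.card G + ((A ∪ B) ∆ P₁).card + ((A ∩ B) ∆ P₂).card ∧
    ((A ∩ B ∩ D).card : ℤ) ≤ ((A ∩ B) ∆ P₂).card ∧
    ((D \ (A ∪ B)).card : ℤ) ≤ ((A ∪ B) ∆ P₁).card := by
  simp only [pb4_ind, pb4_univ, mul_sum, ← sum_add_distrib, mem_inter, mem_sdiff, mem_union,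
    mem_symmDiff]
  refine ⟨?_, ?_, ?_, ?_, ?_, ?_, ?_, ?_, ?_, ?_⟩ <;>
    first
    | refine sum_congr rfl fun x _ => ?_
    | refine sum_le_sum fun x _ => ?_
  all_goals
    have := h x
    by_cases x ∈ A <;> by_cases x ∈ B <;> by_cases x ∈ D <;> by_cases x ∈ P₂ <;>
      by_cases x ∈ P₁ <;> by_cases x ∈ Z <;> simp_all

omit [AddCommGroup G] in
theorem pb4_pc (C F P₃ : Finset G) (h : ∀ x ∈ F, x ∉ P₃) :
    ((F \ C).card : ℤ) + (C ∩ F).card = F.card ∧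
    2 * ((C ∩ F).card : ℤ) + P₃.card ≤ C.card + (C ∆ P₃).card ∧
    ((F \ C).card : ℤ) + C.card ≤ Fintype.card G := by
  simp only [pb4_ind, pb4_univ, mul_sum, ← sum_add_distrib, mem_inter, mem_sdiff, mem_symmDiff]
  refine ⟨?_, ?_, ?_⟩ <;>
    first
    | refine sum_congr rfl fun x _ => ?_
    | refine sum_le_sum fun x _ => ?_
  all_goals
    have := h x
    by_cases x ∈ C <;> by_cases x ∈ F <;> by_cases x ∈ P₃ <;> simp_all

end

theorem pb4 : PB4.{u} := by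
  intro G _ _ _ Q _ _ _ f A B C W₁ W₂ W₃ k c c0 cH hX
  obtain ⟨hf, -, -, -, -, p0, -⟩ := c
  obtain ⟨s21, n2, n3, n1, -⟩ := c0
  obtain ⟨k3, -, -, hs, -⟩ := cH
  have sJ : JJ f A B C W₁ W₂ W₃ ⊆ W₁ \ W₂ := filter_subset _ _
  generalize JJ f A B C W₁ W₂ W₃ = J at hs hX sJ ⊢
  obtain ⟨a1, a2, a3, a4, a5, a6, a7, a8, a9, a10⟩ :=
    pb4_pt A B (pre f J) (pre f W₁) (pre f W₂) (pre f W₁ᶜ) fun x => by
      simp only [pb4_mem, mem_compl]
      exact ⟨fun h => mem_sdiff.1 (sJ h), fun h => s21 h, id⟩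
  obtain ⟨b1, b2, b3⟩ := pb4_pc C (pre f {k}) (pre f W₃) fun x hx => by
    rw [pb4_mem] at hx ⊢
    rwa [mem_singleton.1 hx]
  have e : cnt f C k = (C ∩ pre f {k}).card := by
    rw [cnt]
    congr 2
    ext x
    simp [pb4_mem]
  have l1 := pb4_le f hf n1
  have l2 := pb4_le f hf n2
  have l3 := pb4_le f hf n3
  rw [pb4_fib f hf k] at b1
  simp only [P0, Psi, sig, dJ, e] at p0 hs
  simp only [maxs, max_lt_iff]
  omega

end Pool.Agent.MP_ed46bc_co.SP
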