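import Pool.Agent.MP_ed46bc_co.SP.Spec

/-!
# Row PB5: restriction of a state to a subgroup whose coset contains the third set
-/

namespace Pool.Agent.MP_ed46bc_co.SP

open Finset
open scoped symmDiff

universe u

section Aux

variable {G : Type u} [AddCommGroup G] [Fintype G] [DecidableEq G]

omit [DecidableEq G] in
lemma pb5_card (H : AddSubgroup G) [DecidablePred (· ∈ H)] :
    Nat.card H = (univ.filter fun x : G => x ∈ H).card := by
  rw [Nat.card_eq_fintype_card, Fintype.card_subtype]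

lemma pb5_dvd (H : AddSubgroup G) (P : Finset G) (hP : Per H P) : Nat.card H ∣ P.card := by
  classical
  rw [card_eq_sum_card_image (fun x : G => (x : G ⧸ H)) P]
  refine dvd_sum fun q hq => ?_
  obtain ⟨x0, hx0, rfl⟩ := mem_image.1 hq
  have e : (P.filter fun x : G => (x : G ⧸ H) = (x0 : G ⧸ H))
      = (univ.filter fun x : G => x ∈ H).image (fun h => x0 + h) := by
    ext x
    simp only [mem_filter, mem_image, mem_univ, true_and]
    constructor
    · rintro ⟨_, h⟩
      exact ⟨-x0 + x, QuotientAddGroup.eq.1 h.symm, by abel⟩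
    · rintro ⟨h, hh, rfl⟩
      refine ⟨hP _ hx0 _ hh, ?_⟩
      symm
      apply QuotientAddGroup.eq.2
      simpa using hh
  rw [e, card_image_of_injective _ (add_right_injective x0), ← pb5_card]

omit [AddCommGroup G] [Fintype G] in
lemma pb5_tri (X V : Finset G) : X.card ≤ V.card + (X ∆ V).card := by
  refine le_trans (card_le_card ?_) (card_union_le V (X ∆ V))
  intro x hx
  by_cases h : x ∈ V
  · exact mem_union_left _ h
  · exact mem_union_right _ (mem_symmDiff.2 (Or.inl ⟨hx, h⟩))

omit [AddCommGroup G] [Fintype G] in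
lemma pb5_tri' (X V : Finset G) : V.card ≤ X.card + (X ∆ V).card := by
  rw [symmDiff_comm]
  exact pb5_tri V X

omit [AddCommGroup G] [Fintype G] in
lemma pb5_split (R V U : Finset G) (hU : U ⊆ V) (hR : ∀ x ∈ R, x ∈ V → x ∈ U) :
    (R ∆ V).card + U.card = (R ∆ U).card + V.card := by
  have e : R ∆ V = (R ∆ U) ∪ (V \ U) := by
    ext x
    have h1 := @hU x
    have h2 := hR x
    simp only [mem_union, mem_symmDiff, mem_sdiff]
    tauto
  have d : Disjoint (R ∆ U) (V \ U) := by
    rw [disjoint_left]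
    intro x h1 h2
    have h3 := hR x
    simp only [mem_symmDiff, mem_sdiff] at h1 h2
    tauto
  have c := card_sdiff_add_card_eq_card hU
  rw [e, card_union_of_disjoint d]
  omega

/-- Each `H'`-coset has at most `|H' ⊓ H|` points in one coset of `H`. -/
lemma pb5_count (H H' : AddSubgroup G) (V U : Finset G) (hV : Per H' V) (hU : U ⊆ V)
    (hH : ∀ x ∈ U, ∀ y ∈ U, x - y ∈ H) :
    U.card * Nat.card H' ≤ Nat.card (H' ⊓ H : AddSubgroup G) * V.card := by
  classical
  rw [pb5_card H', ← card_product]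
  refine card_le_mul_card_image_of_maps_to (f := fun p : G × G => p.1 + p.2) ?_ _ ?_
  · intro p hp
    rw [mem_product, mem_filter] at hp
    exact hV _ (hU hp.1) _ hp.2.2
  · intro v _
    rcases (((U ×ˢ univ.filter fun x : G => x ∈ H').filter
      fun p : G × G => p.1 + p.2 = v)).eq_empty_or_nonempty with h | ⟨q, hq⟩
    · rw [h]
      exact Nat.zero_le _
    · rw [pb5_card (H' ⊓ H)]
      simp only [mem_filter, mem_product, mem_univ, true_and] at hq
      refine card_le_card_of_injOn (fun p : G × G => p.1 - q.1) ?_ ?_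
      · intro p hp
        simp only [coe_filter, mem_product, mem_filter, mem_univ, true_and,
          Set.mem_ofPred_eq] at hp ⊢
        refine ⟨?_, hH _ hp.1.1 _ hq.1.1⟩
        have e : p.1 - q.1 = q.2 - p.2 := by
          rw [sub_eq_sub_iff_add_eq_add, hp.2, add_comm, hq.2]
        rw [e]
        exact H'.sub_mem hq.1.2 hp.1.2
      · intro p hp p' hp' e
        simp only [coe_filter, Set.mem_ofPred_eq] at hp hp'
        have e1 : p.1 = p'.1 := sub_left_injective e
        have e2 : p.2 = p'.2 := by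
          have e3 := hp.2.trans hp'.2.symm
          rw [e1] at e3
          exact add_left_cancel e3
        exact Prod.ext e1 e2

end Aux

theorem pb5 : PB5.{u} := by
  intro G _ _ _ X Y R H H' V₁ V₂ V₃ hR h1 h2 hS hP
  classical
  by_cases hle : H' ≤ H
  · exact ⟨H', V₃, hle, hS, le_rfl⟩
  obtain ⟨p1, p2, p3, t, ht, hsum⟩ := hS
  have hpos : 0 < Nat.card H' := Nat.card_pos
  have kpos : 0 < Nat.card (H' ⊓ H : AddSubgroup G) := Nat.card_pos
  obtain ⟨m, hm⟩ : Nat.card (H' ⊓ H : AddSubgroup G) ∣ Nat.card H' :=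
    AddSubgroup.card_dvd_of_le inf_le_left
  have hm2 : 2 ≤ m := by
    by_contra hc
    have h01 : m = 0 ∨ m = 1 := by omega
    rcases h01 with h | h
    · rw [h] at hm
      omega
    · rw [h, mul_one] at hm
      have e : (H' ⊓ H : AddSubgroup G) = H' :=
        AddSubgroup.eq_of_le_of_card_ge inf_le_left hm.le
      exact hle (e ▸ inf_le_right)
  have hsig : (X ∆ V₁).card + (Y ∆ V₂).card + (R ∆ V₃).card < Nat.card H' := by
    unfold Psi sig at hP
    omega
  obtain ⟨u1, e1⟩ := pb5_dvd H' V₁ p1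
  obtain ⟨u2, e2⟩ := pb5_dvd H' V₂ p2
  obtain ⟨u3, e3⟩ := pb5_dvd H' V₃ p3
  have hu : u1 + u2 + u3 = t := by
    apply Nat.eq_of_mul_eq_mul_left hpos
    rw [mul_comm _ t, ← hsum, e1, e2, e3]
    ring
  have a1 := pb5_tri X V₁
  have a2 := pb5_tri' X V₁
  have b1 := pb5_tri Y V₂
  have b2 := pb5_tri' Y V₂
  have c1 := pb5_tri R V₃
  have c2 := pb5_tri' R V₃
  have hu3 : 1 ≤ u3 := by
    by_contra hc
    have z : u3 = 0 := by omega
    rw [z, mul_zero] at e3
    obtain ⟨s, hs⟩ := ht
    rcases Nat.lt_or_ge u1 u2 with h | h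
    · have h3 : Nat.card H' * (u1 + 1) ≤ Nat.card H' * u2 := Nat.mul_le_mul_left _ h
      rw [mul_add, mul_one] at h3
      omega
    · have h4 : u2 + 1 ≤ u1 := by omega
      have h3 : Nat.card H' * (u2 + 1) ≤ Nat.card H' * u1 := Nat.mul_le_mul_left _ h4
      rw [mul_add, mul_one] at h3
      omega
  have hV3 : Nat.card H' ≤ V₃.card := by
    rw [e3]
    exact Nat.le_mul_of_pos_right _ hu3
  obtain ⟨r0, hr0⟩ : R.Nonempty := by
    rw [← card_pos]
    omega
  have hsub : (V₃.filter fun x => x - r0 ∈ H) ⊆ V₃ := filter_subset _ _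
  have hsp := pb5_split R V₃ _ hsub fun x hx hv => mem_filter.2 ⟨hv, hR x hx r0 hr0⟩
  have hco := pb5_count H H' V₃ _ p3 hsub fun x hx y hy => by
    have e : x - y = (x - r0) - (y - r0) := by abel
    rw [e]
    exact H.sub_mem (mem_filter.1 hx).2 (mem_filter.1 hy).2
  have pU : Per (H' ⊓ H) (V₃.filter fun x => x - r0 ∈ H) := by
    intro x hx h hh
    refine mem_filter.2 ⟨p3 x (hsub hx) h hh.1, ?_⟩
    have e : x + h - r0 = (x - r0) + h := by abel
    rw [e]
    exact H.add_mem (mem_filter.1 hx).2 hh.2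
  obtain ⟨w, ew⟩ := pb5_dvd _ _ pU
  refine ⟨H' ⊓ H, V₃.filter fun x => x - r0 ∈ H, inf_le_right, ?_⟩
  unfold St Psi sig
  generalize (V₃.filter fun x => x - r0 ∈ H) = U at hsp hco pU ew ⊢
  generalize hk : Nat.card (H' ⊓ H : AddSubgroup G) = k at kpos hm hco ew ⊢
  generalize Nat.card H' = n at hpos hm hsig e1 e2 e3 hV3 hco hsum ⊢
  have hU1 : U.card ≤ k * u3 := by
    apply Nat.le_of_mul_le_mul_right _ hpos
    rw [mul_assoc, mul_comm u3 n, ← e3]
    exact hco
  have hk2 : 2 * k ≤ n := by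
    rw [hm, mul_comm]
    exact Nat.mul_le_mul_left _ hm2
  have hu31 : u3 = 1 := by
    by_contra hc
    obtain ⟨j, rfl⟩ : ∃ j, u3 = j + 2 := ⟨u3 - 2, by omega⟩
    have h5 : k * j ≤ n * j := Nat.mul_le_mul_right _ (by omega)
    rw [mul_add] at e3 hU1
    omega
  rw [hu31, mul_one] at e3 hU1
  have hUk : U.card = k := by
    have h6 : 0 < U.card := by omega
    have h7 : 1 ≤ w := by
      by_contra hc
      have z : w = 0 := by omega
      rw [z, mul_zero] at ew
      omega
    have h8 : k ≤ U.card := by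
      rw [ew]
      exact Nat.le_mul_of_pos_right _ h7
    omega
  refine ⟨⟨fun x hx h hh => p1 x hx h hh.1, fun x hx h hh => p2 x hx h hh.1, pU, ?_⟩, by omega⟩
  obtain ⟨s, hs⟩ := ht
  refine ⟨2 * (s * m) + 1, ⟨_, rfl⟩, ?_⟩
  have h9 : t * n = 2 * (s * m) * k + n := by
    rw [hs, add_mul, one_mul, hm]
    ring
  rw [add_mul, one_mul]
  omega

end Pool.Agent.MP_ed46bc_co.SP
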