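import Pool.Agent.MP_ed46bc_co.SP.Spec

/-! Row PB6: the pull-back lemma, assembled from the rows PB0 to PB5. -/

set_option autoImplicit false
set_option linter.unusedSectionVars false

namespace Pool.Agent.MP_ed46bc_co.SP

open Finset
open scoped symmDiff

universe u v

section Aux

variable {G : Type u} [AddCommGroup G] [Fintype G] [DecidableEq G]
variable {Q : Type v} [AddCommGroup Q] [Fintype Q] [DecidableEq Q]

theorem pb6_mem {f : G →+ Q} {W : Finset Q} {x : G} : x ∈ pre f W ↔ f x ∈ W := by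
  simp [pre]

theorem pb6_fib (f : G →+ Q) (hf : Function.Surjective f) (i : Q) :
    (univ.filter fun x => f x = i).card = Nat.card f.ker := by
  have h0 : Nat.card f.ker = (univ.filter fun x => f x = 0).card :=
    Nat.subtype_card _ fun x => by simp [AddMonoidHom.mem_ker]
  rw [h0]
  exact AddMonoidHom.card_fiber_eq_of_mem_range f (hf i) (hf 0)

theorem pb6_card_pre (f : G →+ Q) (hf : Function.Surjective f) (W : Finset Q) :
    (pre f W).card = Nat.card f.ker * W.card := by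
  rw [card_eq_sum_card_fiberwise (f := f) (s := pre f W) (t := W)
    (fun x hx => by simpa using pb6_mem.1 hx), mul_comm, ← smul_eq_mul, ← sum_const]
  refine sum_congr rfl fun i hi => ?_
  rw [← pb6_fib f hf i]
  congr 1
  ext x
  simp only [mem_filter, pb6_mem, mem_univ, true_and, and_iff_right_iff_imp]
  rintro rfl
  exact hi

theorem pb6_dvd {H : AddSubgroup G} {P : Finset G} (h : Per H P) : Nat.card H ∣ P.card := by
  classical
  have : Fintype (G ⧸ H) := Fintype.ofFinite _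
  have e : P = pre (QuotientAddGroup.mk' H) (P.image (QuotientAddGroup.mk' H)) := by
    ext x
    rw [pb6_mem, mem_image]
    refine ⟨fun hx => ⟨x, hx, rfl⟩, ?_⟩
    rintro ⟨y, hy, hxy⟩
    have := h y hy _ (QuotientAddGroup.eq.1 hxy)
    simpa using this
  rw [e, pb6_card_pre _ (QuotientAddGroup.mk'_surjective H), QuotientAddGroup.ker_mk']
  exact Dvd.intro _ rfl

theorem pb6_per_pre {K : AddSubgroup G} (f : G →+ Q) (hK : K ≤ f.ker) (W : Finset Q) :
    Per K (pre f W) := by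
  intro x hx h hh
  rw [pb6_mem] at hx ⊢
  rwa [map_add, (AddMonoidHom.mem_ker).1 (hK hh), add_zero]

theorem pb6_per_sdiff {H : AddSubgroup G} {P P' : Finset G} (h : Per H P) (h' : Per H P') :
    Per H (P \ P') := by
  intro x hx a ha
  rw [mem_sdiff] at hx ⊢
  refine ⟨h x hx.1 a ha, fun hc => hx.2 ?_⟩
  simpa using h' _ hc _ (H.neg_mem ha)

theorem pb6_per_union {H : AddSubgroup G} {P P' : Finset G} (h : Per H P) (h' : Per H P') :
    Per H (P ∪ P') := by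
  intro x hx a ha
  rw [mem_union] at hx ⊢
  exact hx.imp (fun hx => h x hx a ha) fun hx => h' x hx a ha

theorem pb6_subset {H : AddSubgroup G} {D V X : Finset G} (hD : Per H D) (hV : Per H V)
    (hX : X ⊆ D) (h : (X ∆ V).card < Nat.card H) : V ⊆ D := by
  by_contra hc
  have hne : (V \ D).Nonempty := sdiff_nonempty.2 hc
  have h1 := Nat.le_of_dvd hne.card_pos (pb6_dvd (pb6_per_sdiff hV hD))
  have h2 : V \ D ⊆ X ∆ V := fun x hx => by
    rw [mem_sdiff] at hx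
    rw [mem_symmDiff]
    exact Or.inr ⟨hx.1, fun hx' => hx.2 (hX hx')⟩
  have := card_le_card h2
  omega

theorem pb6_gam (A B C : Finset G) : Gam B A C = Gam A B C := by
  have h : T B A C = T A B C := by
    unfold T T3
    rw [sum_comm]
    refine sum_congr rfl fun x _ => sum_congr rfl fun y _ => ?_
    rw [show -y - x = -x - y by abel]
    ring
  unfold Gam
  rw [h]
  ring

theorem pb6_hasSt {A B C : Finset G} (h : HasSt B A C) : HasSt A B C := by
  obtain ⟨H, P₁, P₂, P₃, h0, ⟨a, b, c, t, ht, e⟩, h1⟩ := h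
  refine ⟨H, P₂, P₁, P₃, h0, ⟨b, a, c, t, ht, by omega⟩, ?_⟩
  unfold Psi sig at h1 ⊢
  linarith

theorem pb6_P0 (f : G →+ Q) (A B C : Finset G) (W₁ W₂ W₃ : Finset Q) :
    P0 f B A C W₁ W₂ W₃ = P0 f A B C W₁ W₂ W₃ := by
  unfold P0
  rw [union_comm, inter_comm]

theorem pb6_mm (f : G →+ Q) (A B : Finset G) (i : Q) : mm f B A i = mm f A B i := min_comm _ _

theorem pb6_JJ (f : G →+ Q) (A B C : Finset G) (W₁ W₂ W₃ : Finset Q) :
    JJ f B A C W₁ W₂ W₃ = JJ f A B C W₁ W₂ W₃ := by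
  unfold JJ
  simp only [pb6_P0 f A B C, pb6_mm f A B]

theorem pb6_ctx {f : G →+ Q} {A B C : Finset G} {W₁ W₂ W₃ : Finset Q}
    (h : Ctx f A B C W₁ W₂ W₃) : Ctx f B A C W₁ W₂ W₃ := by
  obtain ⟨a, b, c, d, e, g, i, j, k, l⟩ := h
  refine ⟨a, b, c, d, e, ?_, ?_, by omega, by omega, by omega⟩
  · rwa [pb6_P0]
  · rwa [pb6_gam]

theorem pb6_maxs (A B C : Finset G) : maxs B A C = maxs A B C := by
  unfold maxs
  omega

theorem pb6_mm_nonneg (f : G →+ Q) (A B : Finset G) (i : Q) : 0 ≤ mm f A B i :=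
  le_min (Int.natCast_nonneg _) (Int.natCast_nonneg _)

/-- counting the fibres of the pulled-back base -/
theorem pb6_count {W₁ W₂ J : Finset Q} (h : W₂ ⊆ W₁) (hJ : J ⊆ W₁ \ W₂) (x y : Q → ℤ) :
    (W₂ ∪ ((W₁ \ W₂) \ J).filter fun i => y i ≤ x i).card +
      (W₂ ∪ ((W₁ \ W₂) \ J).filter fun i => x i < y i).card + J.card = W₁.card + W₂.card := by
  have hd : ∀ p : Q → Prop, ∀ [DecidablePred p], Disjoint W₂ (((W₁ \ W₂) \ J).filter p) := by
    intro p _
    rw [disjoint_left]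
    intro a ha hb
    exact (mem_sdiff.1 (mem_sdiff.1 (mem_filter.1 hb).1).1).2 ha
  rw [card_union_of_disjoint (hd _), card_union_of_disjoint (hd _)]
  have h1 := card_filter_add_card_filter_not (s := (W₁ \ W₂) \ J) fun i => y i ≤ x i
  simp only [not_le] at h1
  have h2 := card_sdiff_add_card_eq_card hJ
  have h3 := card_sdiff_add_card_eq_card h
  omega

theorem pb6_dev1 {A D P V : Finset G} (hV : V ⊆ D) (hP : Disjoint P D) :
    (A ∆ (P ∪ V)).card ≤ ((A \ D) ∆ P).card + ((A ∩ D) ∆ V).card := by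
  refine le_trans (card_le_card fun x hx => ?_) (card_union_le _ _)
  have h1 := @hV x
  have h2 := @disjoint_left.1 hP x
  simp only [mem_symmDiff, mem_union, mem_sdiff, mem_inter] at hx ⊢
  tauto

theorem pb6_dev2 {B D P V : Finset G} (hP : Disjoint P D) (hV : V ⊆ D) :
    (B ∆ (P ∪ (D \ V))).card ≤ ((B \ D) ∆ P).card + ((D \ B) ∆ V).card := by
  refine le_trans (card_le_card fun x hx => ?_) (card_union_le _ _)
  have h1 := @hV x
  have h2 := @disjoint_left.1 hP x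
  simp only [mem_symmDiff, mem_union, mem_sdiff] at hx ⊢
  tauto

theorem pb6_dev3 {C D P V : Finset G} (hP : Disjoint P D) (hV : V ⊆ D) :
    (C ∆ (P ∪ (D \ V))).card + (C ∩ D).card ≤ (C ∆ P).card + ((D \ C) ∆ V).card := by
  have h1 := pb6_dev2 (B := C) hP hV
  have h2 : ((C \ D) ∆ P).card + (C ∩ D).card ≤ (C ∆ P).card := by
    rw [← card_union_of_disjoint]
    · refine card_le_card fun x hx => ?_
      have h2 := @disjoint_left.1 hP x
      simp only [mem_symmDiff, mem_union, mem_sdiff, mem_inter] at hx ⊢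
      tauto
    · rw [disjoint_left]
      intro x hx hx'
      have h2 := @disjoint_left.1 hP x
      simp only [mem_symmDiff, mem_sdiff, mem_inter] at hx hx'
      tauto
  omega

theorem pb6_num {g g' p p0 ψ μ : ℤ} (h2 : 2 ≤ g) (h0 : 1 ≤ p0) (hp : p0 ≤ p) (hμ : 0 ≤ μ)
    (hψ : 1 ≤ ψ) (h : g ≤ p0 ^ 2 - p ^ 2 + g' - 2 * μ * p0) (ha : g' ≤ p ^ 2) (hb : g' ≤ ψ ^ 2) :
    p - p0 + 2 * μ < ψ := by
  by_contra hc
  have hc' : ψ ≤ p - p0 + 2 * μ := not_lt.1 hc
  have h3 : 2 * μ ≤ p0 := by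
    by_contra h4
    have h5 : p0 < 2 * μ := not_le.1 h4
    nlinarith
  have h4 : ψ ^ 2 ≤ (p - p0 + 2 * μ) ^ 2 := pow_le_pow_left₀ (by linarith) hc' 2
  have h5 : 0 ≤ (p0 - 2 * μ) * (p - p0 + μ) := mul_nonneg (by linarith) (by linarith)
  nlinarith

end Aux

section Core

variable {G : Type u} [AddCommGroup G] [Fintype G] [DecidableEq G]
variable {Q : Type u} [AddCommGroup Q] [Fintype Q] [DecidableEq Q]

theorem pb6_light (h0 : PB0.{u}) (h1 : PB1.{u}) {f : G →+ Q} {A B C : Finset G}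
    {W₁ W₂ W₃ : Finset Q} (h : Ctx f A B C W₁ W₂ W₃)
    (hl : 2 * ∑ i ∈ W₁ \ W₂, mm f A B i < P0 f A B C W₁ W₂ W₃) : HasSt A B C := by
  have hsub := (h0 G Q f A B C W₁ W₂ W₃ h).1
  obtain ⟨hf, hodd, -, -, hker, -⟩ := h
  have e := h1 G Q f A B W₁ W₂ ∅ hsub (empty_subset _)
  have hc := pb6_count hsub (empty_subset (W₁ \ W₂)) (cnt f (A \ B)) (cnt f (B \ A))
  have hpe : pre f (∅ : Finset Q) = ∅ := by ext x; simp [pb6_mem]
  have hd : dJ f A B ∅ = 0 := by simp [dJ, hpe]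
  rw [hpe, hd, sdiff_empty (s := A), sdiff_empty (s := B)] at e
  refine ⟨f.ker, _, _, pre f W₃, hker, ⟨pb6_per_pre f le_rfl
    (W₂ ∪ ((W₁ \ W₂) \ ∅).filter fun i => cnt f (B \ A) i ≤ cnt f (A \ B) i),
    pb6_per_pre f le_rfl (W₂ ∪ ((W₁ \ W₂) \ ∅).filter fun i => cnt f (A \ B) i < cnt f (B \ A) i),
    pb6_per_pre f le_rfl W₃, _, hodd, ?_⟩, ?_⟩
  · rw [pb6_card_pre f hf, pb6_card_pre f hf, pb6_card_pre f hf, ← mul_add, ← mul_add, mul_comm]
    rw [card_empty, add_zero] at hc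
    rw [hc]
  · have e2 : ∑ i ∈ (W₁ \ W₂) \ ∅, mm f A B i = ∑ i ∈ W₁ \ W₂, mm f A B i := by
      rw [sdiff_empty]
    unfold P0 Psi sig at hl
    unfold Psi sig
    omega

theorem pb6_heavy (h0 : PB0.{u}) (h1 : PB1.{u}) (h2a : PB2a.{u}) (h2b : PB2b.{u}) (h3 : PB3.{u})
    (h4 : PB4.{u}) (h5 : PB5.{u}) {f : G →+ Q} {A B C : Finset G}
    {W₁ W₂ W₃ : Finset Q} (h : Ctx f A B C W₁ W₂ W₃)
    (hS : ∀ X Y R : Finset G,
      maxs A B C < 2 * (Fintype.card G : ℤ) - X.card - Y.card - R.card → S X Y R)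
    (hl : P0 f A B C W₁ W₂ W₃ ≤ 2 * ∑ i ∈ W₁ \ W₂, mm f A B i)
    (hw : ((A \ B) ∩ pre f (JJ f A B C W₁ W₂ W₃)).card ≤
      ((B \ A) ∩ pre f (JJ f A B C W₁ W₂ W₃)).card) : HasSt A B C := by
  have c0 := h0 G Q f A B C W₁ W₂ W₃ h
  have cL := h2a G Q f A B C W₁ W₂ W₃ h c0
  obtain ⟨k, cH⟩ := h2b G Q f A B C W₁ W₂ W₃ h c0 cL hl
  obtain ⟨s1, s2, s3⟩ := h3 G Q f A B C W₁ W₂ W₃ k h cH
  have hS' := hS _ _ _ (h4 G Q f A B C W₁ W₂ W₃ k h c0 cH hw)
  have hJ : JJ f A B C W₁ W₂ W₃ ⊆ W₁ \ W₂ := filter_subset _ _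
  have e := h1 G Q f A B W₁ W₂ _ c0.1 hJ
  have hc := pb6_count c0.1 hJ (cnt f (A \ B)) (cnt f (B \ A))
  have hμ : 0 ≤ muL f A B C W₁ W₂ W₃ := sum_nonneg fun i _ => pb6_mm_nonneg f A B i
  have hk := cH.1
  obtain ⟨hf, hodd, -, -, -, hP0, hG, -⟩ := h
  change _ = _ + 2 * muL f A B C W₁ W₂ W₃ at e
  generalize muL f A B C W₁ W₂ W₃ = μ at *
  clear cH cL hS hl hw
  generalize JJ f A B C W₁ W₂ W₃ = J at *
  have hdis : ∀ p : Q → Prop, ∀ [DecidablePred p],
      Disjoint (pre f (W₂ ∪ ((W₁ \ W₂) \ J).filter p)) (pre f J) := by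
    intro p _
    rw [disjoint_left]
    intro x hx hx'
    rw [pb6_mem] at hx hx'
    rcases mem_union.1 hx with hx | hx
    · exact (mem_sdiff.1 (hJ hx')).2 hx
    · exact (mem_sdiff.1 (mem_filter.1 hx).1).2 hx'
  have d1 := hdis fun i => cnt f (B \ A) i ≤ cnt f (A \ B) i
  have d2 := hdis fun i => cnt f (A \ B) i < cnt f (B \ A) i
  generalize (W₂ ∪ ((W₁ \ W₂) \ J).filter fun i => cnt f (B \ A) i ≤ cnt f (A \ B) i) = Z₁ at *
  generalize (W₂ ∪ ((W₁ \ W₂) \ J).filter fun i => cnt f (A \ B) i < cnt f (B \ A) i) = Z₂ at *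
  have d3 : Disjoint (pre f W₃) (pre f {k}) := by
    rw [disjoint_left]
    intro x hx hx'
    rw [pb6_mem] at hx hx'
    exact hk (mem_singleton.1 hx' ▸ hx)
  have hG' : 2 ≤ Gam (A ∩ pre f J) (pre f J \ B) (pre f {k} \ C) := by
    nlinarith [mul_nonneg hμ (le_trans zero_le_one hP0),
      pow_le_pow_left₀ (le_trans zero_le_one hP0) s3 2]
  obtain ⟨H', V₁, V₂, V₃, hst, hψ, hψ'⟩ := hS' hG'
  have hnum := pb6_num hG hP0 s3 hμ hψ s1 s2 hψ'
  have hψ2 : 2 ≤ Psi (A ∩ pre f J) (pre f J \ B) (pre f {k} \ C) H' V₁ V₂ V₃ := by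
    by_contra hh
    have : Psi (A ∩ pre f J) (pre f J \ B) (pre f {k} \ C) H' V₁ V₂ V₃ = 1 := by omega
    rw [this] at hψ'
    omega
  have y1 : (pre f J \ B).card ≤ (A ∩ pre f J).card + (pre f J \ (A ∪ B)).card := by
    refine le_trans (card_le_card fun x hx => ?_) (card_union_le _ _)
    simp only [mem_union, mem_sdiff, mem_inter] at hx ⊢
    tauto
  have y2 : (A ∩ pre f J).card ≤ (pre f J \ B).card + (A ∩ B ∩ pre f J).card := by
    refine le_trans (card_le_card fun x hx => ?_) (card_union_le _ _)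
    simp only [mem_union, mem_sdiff, mem_inter] at hx ⊢
    tauto
  have hdJ : dJ f A B J = ((pre f J \ (A ∪ B)).card : ℤ) + ((A ∩ B ∩ pre f J).card : ℤ) := rfl
  obtain ⟨K, U₃, hK, ⟨p1, p2, p3, t, ht, et⟩, hψ3⟩ := h5 G _ _ _ f.ker H' V₁ V₂ V₃
    (fun r hr r' hr' => by
      rw [AddMonoidHom.mem_ker, map_sub, mem_singleton.1 (pb6_mem.1 (mem_sdiff.1 hr).1),
        mem_singleton.1 (pb6_mem.1 (mem_sdiff.1 hr').1), sub_self])
    (by omega) (by omega) hst hψ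
  generalize Psi (A ∩ pre f J) (pre f J \ B) (pre f {k} \ C) H' V₁ V₂ V₃ = ψ at *
  unfold Psi sig at hψ3
  have v1 : V₁ ⊆ pre f J :=
    pb6_subset (X := A ∩ pre f J) (pb6_per_pre f hK J) p1 inter_subset_right (by omega)
  have v2 : V₂ ⊆ pre f J :=
    pb6_subset (X := pre f J \ B) (pb6_per_pre f hK J) p2 sdiff_subset (by omega)
  have v3 : U₃ ⊆ pre f {k} :=
    pb6_subset (X := pre f {k} \ C) (pb6_per_pre f hK {k}) p3 sdiff_subset (by omega)
  have q1 := pb6_per_union (pb6_per_pre f hK Z₁) p1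
  have q2 := pb6_per_union (pb6_per_pre f hK Z₂) (pb6_per_sdiff (pb6_per_pre f hK J) p2)
  have q3 := pb6_per_union (pb6_per_pre f hK W₃) (pb6_per_sdiff (pb6_per_pre f hK {k}) p3)
  have cfib : (pre f {k}).card = Nat.card f.ker := by
    rw [pb6_card_pre f hf, card_singleton, mul_one]
  refine ⟨K, _, _, _, ?_, ⟨q1, q2, q3, ?_⟩, ?_⟩
  · rintro rfl
    rw [AddSubgroup.card_bot] at hψ3
    omega
  · obtain ⟨a1, ea1⟩ := pb6_dvd q1
    obtain ⟨a2, ea2⟩ := pb6_dvd q2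
    obtain ⟨a3, ea3⟩ := pb6_dvd q3
    obtain ⟨b1, eb1⟩ := pb6_dvd p1
    obtain ⟨b2, eb2⟩ := pb6_dvd p2
    obtain ⟨b3, eb3⟩ := pb6_dvd p3
    obtain ⟨m, em⟩ := AddSubgroup.card_dvd_of_le hK
    obtain ⟨o, eo⟩ := hodd
    obtain ⟨t', rfl⟩ := ht
    have hpos : 0 < Nat.card K := Nat.card_pos
    have z1 := card_union_of_disjoint (d1.mono_right v1)
    have z2 := card_union_of_disjoint (d2.mono_right (sdiff_subset (t := V₂)))
    have z3 := card_union_of_disjoint (d3.mono_right (sdiff_subset (t := U₃)))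
    have z4 := card_sdiff_add_card_eq_card v2
    have z5 := card_sdiff_add_card_eq_card v3
    rw [pb6_card_pre f hf] at z1 z2 z3 z4
    have z6 : Nat.card f.ker * Z₁.card + Nat.card f.ker * Z₂.card + Nat.card f.ker * J.card +
        Nat.card f.ker * W₃.card + Nat.card f.ker = Nat.card K * (2 * (m * (o + 1))) := by
      have : Z₁.card + Z₂.card + J.card + W₃.card + 1 = 2 * (o + 1) := by omega
      calc _ = Nat.card f.ker * (Z₁.card + Z₂.card + J.card + W₃.card + 1) := by ring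
        _ = _ := by rw [this, em]; ring
    have z7 : a1 + a2 + a3 + b2 + b3 = 2 * (m * (o + 1)) + b1 := by
      refine Nat.eq_of_mul_eq_mul_left hpos ?_
      rw [mul_add, mul_add, mul_add, mul_add, mul_add, ← ea1, ← ea2, ← ea3, ← eb1, ← eb2, ← eb3,
        ← z6]
      omega
    have z8 : b1 + b2 + b3 = 2 * t' + 1 := by
      refine Nat.eq_of_mul_eq_mul_left hpos ?_
      rw [mul_add, mul_add, ← eb1, ← eb2, ← eb3, et, mul_comm]
    refine ⟨a1 + a2 + a3, Nat.odd_iff.2 (by omega), ?_⟩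
    rw [ea1, ea2, ea3]
    ring
  · have w1 := pb6_dev1 (A := A) v1 d1
    have w2 := pb6_dev2 (B := B) d2 v2
    have w3 := pb6_dev3 (C := C) d3 v3
    have w4 : (pre f {k} \ C).card + (C ∩ pre f {k}).card = Nat.card f.ker := by
      rw [← cfib, inter_comm, card_sdiff_add_card_inter]
    unfold P0 Psi sig at hnum
    unfold Psi sig
    omega

end Core

theorem pb (h0 : PB0.{u}) (h1 : PB1.{u}) (h2a : PB2a.{u}) (h2b : PB2b.{u}) (h3 : PB3.{u})
    (h4 : PB4.{u}) (h5 : PB5.{u}) : PB.{u} := by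
  intro G _ _ _ Q _ _ _ f A B C W₁ W₂ W₃ h hS
  rcases lt_or_ge (2 * ∑ i ∈ W₁ \ W₂, mm f A B i) (P0 f A B C W₁ W₂ W₃) with hl | hl
  · exact pb6_light h0 h1 h hl
  · rcases le_total ((A \ B) ∩ pre f (JJ f A B C W₁ W₂ W₃)).card
      ((B \ A) ∩ pre f (JJ f A B C W₁ W₂ W₃)).card with hw | hw
    · exact pb6_heavy h0 h1 h2a h2b h3 h4 h5 h hS hl hw
    · refine pb6_hasSt (pb6_heavy h0 h1 h2a h2b h3 h4 h5 (pb6_ctx h) ?_ ?_ ?_)
      · rwa [pb6_maxs]
      · rw [pb6_P0]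
        simpa only [pb6_mm f A B] using hl
      · rwa [pb6_JJ]

end Pool.Agent.MP_ed46bc_co.SP
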