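import Pool.Agent.MP_ed46bc_co.SP.ACC
import Pool.Agent.MP_ed46bc_co.SP.U
import Pool.Agent.MP_ed46bc_co.SP.PB0
import Pool.Agent.MP_ed46bc_co.SP.PB1
import Pool.Agent.MP_ed46bc_co.SP.PB2a
import Pool.Agent.MP_ed46bc_co.SP.PB2b
import Pool.Agent.MP_ed46bc_co.SP.PB3
import Pool.Agent.MP_ed46bc_co.SP.PB4
import Pool.Agent.MP_ed46bc_co.SP.PB5
import Pool.Agent.MP_ed46bc_co.SP.PB6
import Pool.Agent.MP_ed46bc_co.SP.MAIN
import Pool.Agent.MP_ed46bc_co.SP.ZG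
import Pool.Agent.MP_ed46bc_co.SP.M
import Pool.Agent.MP_ed46bc_co.SP.EX
import Pool.Agent.MP_ed46bc_co.SP.INT
import Pool.Agent.MP_ed46bc_co.SP.C12
import Pool.Agent.MP_ed46bc_co.SP.LB
import Pool.Agent.MP_ed46bc_co.SP.Fin

/-!
# Assembly
-/

namespace Pool.Agent.MP_ed46bc_co.SP

universe u

theorem all_up : UP.{u} := up acc

theorem all_ss : SS.{u} :=
  ss all_up (pb (pb0 acc) pb1 pb2a pb2b (pb3 acc) pb4 pb5)

theorem all_zg : ZG.{u} := zg acc all_up all_ss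

theorem all_mm : MM.{u} := mm_thm acc all_up all_ss all_zg

theorem all_ub : UB.{u} := ub all_mm

theorem all_lb : LB.{u} := lb ex_thm (c1 acc int_thm) c2

end Pool.Agent.MP_ed46bc_co.SP
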