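import Pool.Agent.MP_ed46bc_co.SP.Spec

/-!
# Basic lemmas on `T3`, `T`, `L`, `Gam`
-/

namespace Pool.Agent.MP_ed46bc_co.SP

open Finset
open scoped symmDiff

universe u

variable {G : Type u} [AddCommGroup G] [Fintype G] [DecidableEq G]

@[simp] lemma mem_ng {W : Finset G} {x : G} : x ∈ ng W ↔ -x ∈ W := by simp [ng]

@[simp] lemma mem_sh {W : Finset G} {e x : G} : x ∈ sh W e ↔ x - e ∈ W := by simp [sh]

lemma card_ng (W : Finset G) : (ng W).card = W.card := by
  refine card_bij (fun x _ => -x) (fun x hx => mem_ng.1 hx) (fun x _ y _ h => neg_injective h) ?_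
  intro y hy
  exact ⟨-y, by simpa using hy, neg_neg y⟩

lemma card_sh (W : Finset G) (e : G) : (sh W e).card = W.card := by
  refine card_bij (fun x _ => x - e) (fun x hx => mem_sh.1 hx)
    (fun x _ y _ h => sub_left_injective h) ?_
  intro y hy
  exact ⟨y + e, by simpa using hy, add_sub_cancel_right y e⟩

lemma ng_ng (W : Finset G) : ng (ng W) = W := by ext x; simp

lemma ng_compl (W : Finset G) : ng Wᶜ = (ng W)ᶜ := by ext x; simp

lemma ng_symmDiff (X Y : Finset G) : ng (X ∆ Y) = ng X ∆ ng Y := by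
  ext x; simp [mem_symmDiff]

lemma sh_symmDiff (X Y : Finset G) (e : G) : sh (X ∆ Y) e = sh X e ∆ sh Y e := by
  ext x; simp [mem_symmDiff]

lemma sh_sh_neg (X : Finset G) (e : G) : sh (sh X e) (-e) = X := by ext x; simp

lemma sh_neg_sh (X : Finset G) (e : G) : sh (sh X (-e)) e = X := by ext x; simp

omit [AddCommGroup G] [Fintype G] in
lemma ind_of_mem {A : Finset G} {x : G} (h : x ∈ A) : ind A x = 1 := by simp [ind, h]

omit [AddCommGroup G] [Fintype G] in
lemma ind_of_not_mem {A : Finset G} {x : G} (h : x ∉ A) : ind A x = 0 := by simp [ind, h]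

omit [AddCommGroup G] [Fintype G] in
lemma ind_nonneg (A : Finset G) (x : G) : 0 ≤ ind A x := by unfold ind; split_ifs <;> simp

omit [AddCommGroup G] [Fintype G] in
lemma ind_le_one (A : Finset G) (x : G) : ind A x ≤ 1 := by unfold ind; split_ifs <;> simp

omit [AddCommGroup G] in
lemma sum_ind (A : Finset G) : ∑ x, ind A x = A.card := by simp [ind]

omit [AddCommGroup G] in
lemma sum_ind_mul (A : Finset G) (g : G → ℤ) : ∑ x, ind A x * g x = ∑ x ∈ A, g x := by
  simp [ind]

omit [AddCommGroup G] in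
lemma ind_compl (A : Finset G) : ind Aᶜ = fun x => 1 - ind A x := by
  funext x; by_cases h : x ∈ A <;> simp [ind, h]

omit [AddCommGroup G] in
lemma card_compl_int (A : Finset G) : ((Aᶜ).card : ℤ) = Fintype.card G - A.card := by
  have := card_add_card_compl A
  omega

omit [DecidableEq G] in
lemma sum_refl (g : G → ℤ) (x : G) : ∑ y, g (-x - y) = ∑ y, g y :=
  Equiv.sum_comp (Equiv.subLeft (-x)) g

omit [DecidableEq G] in
lemma T3_swap12 (f g h : G → ℤ) : T3 f g h = T3 g f h := by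
  unfold T3
  rw [sum_comm]
  refine sum_congr rfl fun y _ => sum_congr rfl fun x _ => ?_
  have : -x - y = -y - x := by abel
  rw [this]; ring

omit [DecidableEq G] in
lemma T3_swap23 (f g h : G → ℤ) : T3 f g h = T3 f h g := by
  unfold T3
  refine sum_congr rfl fun x _ => ?_
  rw [← sum_refl (fun y => f x * g y * h (-x - y)) x]
  refine sum_congr rfl fun y _ => ?_
  have : -x - (-x - y) = y := by abel
  rw [this]; ring

omit [DecidableEq G] in
lemma T3_add1 (f f' g h : G → ℤ) : T3 (fun x => f x + f' x) g h = T3 f g h + T3 f' g h := by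
  simp only [T3, add_mul, sum_add_distrib]

omit [DecidableEq G] in
lemma T3_add2 (f g g' h : G → ℤ) : T3 f (fun x => g x + g' x) h = T3 f g h + T3 f g' h := by
  simp only [T3, add_mul, mul_add, sum_add_distrib]

omit [DecidableEq G] in
lemma T3_add3 (f g h h' : G → ℤ) : T3 f g (fun x => h x + h' x) = T3 f g h + T3 f g h' := by
  simp only [T3, mul_add, sum_add_distrib]

omit [DecidableEq G] in
lemma T3_sub1 (f f' g h : G → ℤ) : T3 (fun x => f x - f' x) g h = T3 f g h - T3 f' g h := by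
  simp only [T3, sub_mul, sum_sub_distrib]

omit [DecidableEq G] in
lemma T3_sub2 (f g g' h : G → ℤ) : T3 f (fun x => g x - g' x) h = T3 f g h - T3 f g' h := by
  simp only [T3, sub_mul, mul_sub, sum_sub_distrib]

omit [DecidableEq G] in
lemma T3_sub3 (f g h h' : G → ℤ) : T3 f g (fun x => h x - h' x) = T3 f g h - T3 f g h' := by
  simp only [T3, mul_sub, sum_sub_distrib]

omit [DecidableEq G] in
lemma T3_one3 (f g : G → ℤ) : T3 f g (fun _ => 1) = (∑ x, f x) * ∑ y, g y := by
  simp only [T3, mul_one, sum_mul_sum]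

omit [DecidableEq G] in
lemma T3_one2 (f h : G → ℤ) : T3 f (fun _ => 1) h = (∑ x, f x) * ∑ y, h y := by
  rw [T3_swap23, T3_one3]

omit [DecidableEq G] in
lemma T3_one1 (g h : G → ℤ) : T3 (fun _ => 1) g h = (∑ x, g x) * ∑ y, h y := by
  rw [T3_swap12, T3_one2]

lemma T3_eq_sum_L (f : G → ℤ) (B C : Finset G) :
    T3 f (ind B) (ind C) = ∑ x, f x * L B C x := by
  simp only [T3, L, mul_sum, mul_assoc]

lemma T_swap12 (A B C : Finset G) : T A B C = T B A C := T3_swap12 _ _ _

lemma T_swap23 (A B C : Finset G) : T A B C = T A C B := T3_swap23 _ _ _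

lemma T_eq_sum_L (A B C : Finset G) : T A B C = ∑ x ∈ A, L B C x := by
  rw [T, T3_eq_sum_L, sum_ind_mul]

lemma L_eq_card (B C : Finset G) (x : G) :
    L B C x = ((B.filter fun y => -x - y ∈ C).card : ℤ) := by
  rw [L, sum_ind_mul]; simp [ind]

lemma L_swap (B C : Finset G) (x : G) : L B C x = L C B x := by
  unfold L
  rw [← sum_refl (fun y => ind B y * ind C (-x - y)) x]
  refine sum_congr rfl fun y _ => ?_
  have : -x - (-x - y) = y := by abel
  rw [this]; ring

lemma L_nonneg (B C : Finset G) (x : G) : 0 ≤ L B C x := by rw [L_eq_card]; positivity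

lemma L_le (B C : Finset G) (x : G) : L B C x ≤ B.card := by
  rw [L_eq_card]; exact_mod_cast card_filter_le _ _

lemma ex_swap (A B C : Finset G) (x : G) : ex A B C x = ex A C B x := by
  unfold ex; rw [L_swap B C]; ring

lemma T_eq_card (A B C : Finset G) :
    T A B C = (((A ×ˢ B).filter fun p : G × G => -p.1 - p.2 ∈ C).card : ℤ) := by
  rw [T_eq_sum_L, card_filter, sum_product]
  push_cast
  refine sum_congr rfl fun x _ => ?_
  rw [L_eq_card, card_filter]; push_cast; rfl

lemma T_nonneg (A B C : Finset G) : 0 ≤ T A B C := by rw [T_eq_card]; positivity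

lemma T_le (A B C : Finset G) : T A B C ≤ (A.card : ℤ) * B.card := by
  rw [T_eq_card]
  have := card_filter_le (A ×ˢ B) fun p : G × G => -p.1 - p.2 ∈ C
  rw [card_product] at this
  exact_mod_cast this

lemma T_compl3 (A B C : Finset G) : T A B Cᶜ = (A.card : ℤ) * B.card - T A B C := by
  unfold T; rw [ind_compl, T3_sub3, T3_one3, sum_ind, sum_ind]

lemma T_compl2 (A B C : Finset G) : T A Bᶜ C = (A.card : ℤ) * C.card - T A B C := by
  rw [T_swap23, T_compl3, T_swap23]

lemma T_compl1 (A B C : Finset G) : T Aᶜ B C = (B.card : ℤ) * C.card - T A B C := by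
  rw [T_swap12, T_compl2, T_swap12]

lemma T_union1 {A A' : Finset G} (h : Disjoint A A') (B C : Finset G) :
    T (A ∪ A') B C = T A B C + T A' B C := by
  simp only [T_eq_sum_L, sum_union h]

lemma T_union2 (A : Finset G) {B B' : Finset G} (h : Disjoint B B') (C : Finset G) :
    T A (B ∪ B') C = T A B C + T A B' C := by
  rw [T_swap12, T_union1 h, T_swap12 B, T_swap12 B']

lemma T_union3 (A B : Finset G) {C C' : Finset G} (h : Disjoint C C') :
    T A B (C ∪ C') = T A B C + T A B C' := by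
  rw [T_swap23, T_union2 _ h, T_swap23 A C, T_swap23 A C']

lemma T_sh (A B C : Finset G) (e : G) : T A (sh B e) (sh C (-e)) = T A B C := by
  simp only [T_eq_sum_L]
  refine sum_congr rfl fun x _ => ?_
  unfold L
  rw [← Equiv.sum_comp (Equiv.addRight e)]
  refine sum_congr rfl fun y _ => ?_
  have h1 : -x - (y + e) - -e = -x - y := by abel
  simp only [ind, mem_sh, Equiv.coe_addRight, add_sub_cancel_right, h1]

lemma Gam_swap12 (A B C : Finset G) : Gam A B C = Gam B A C := by
  unfold Gam; rw [T_swap12]; ring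

lemma Gam_swap23 (A B C : Finset G) : Gam A B C = Gam A C B := by
  unfold Gam; rw [T_swap23]; ring

lemma Gam_compl (A B C : Finset G) : Gam A Bᶜ Cᶜ = Gam A B C := by
  unfold Gam
  rw [T_compl3, T_compl2, card_compl_int, card_compl_int]; ring

lemma Gam_compl12 (A B C : Finset G) : Gam Aᶜ Bᶜ C = Gam A B C := by
  unfold Gam
  rw [T_compl1, T_compl2, card_compl_int, card_compl_int]; ring

lemma Gam_compl13 (A B C : Finset G) : Gam Aᶜ B Cᶜ = Gam A B C := by
  rw [Gam_swap12, Gam_compl, Gam_swap12]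

lemma Gam_sh (A B C : Finset G) (e : G) : Gam A (sh B e) (sh C (-e)) = Gam A B C := by
  unfold Gam; rw [T_sh, card_sh, card_sh]

lemma Gam_le_p (A B C : Finset G) : Gam A B C ≤ ((A.card : ℤ) + B.card - C.card) ^ 2 := by
  have := T_le A B C
  unfold Gam; nlinarith

lemma Gam_le_q (A B C : Finset G) : Gam A B C ≤ ((A.card : ℤ) + C.card - B.card) ^ 2 := by
  rw [Gam_swap23]; exact Gam_le_p _ _ _

lemma Gam_le_r (A B C : Finset G) : Gam A B C ≤ ((B.card : ℤ) + C.card - A.card) ^ 2 := by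
  rw [Gam_swap12]; exact Gam_le_q _ _ _

lemma Gam_le_w (A B C : Finset G) :
    Gam A B C ≤ (2 * (Fintype.card G : ℤ) - A.card - B.card - C.card) ^ 2 := by
  have := Gam_le_r A Bᶜ Cᶜ
  rw [Gam_compl, card_compl_int, card_compl_int] at this
  convert this using 2; ring

lemma Gam_mod (A B C : Finset G) :
    ∃ t : ℤ, Gam A B C = ((A.card : ℤ) + B.card + C.card) ^ 2 + 4 * t :=
  ⟨T A B C - ((A.card : ℤ) * B.card + (B.card : ℤ) * C.card + (C.card : ℤ) * A.card), by
    unfold Gam; ring⟩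

lemma Gam_flip (A B C : Finset G) (x : G) : Gam (A ∆ {x}) B C = Gam A B C - ex A B C x - 1 := by
  by_cases hx : x ∈ A
  · have h1 : A ∆ {x} = A.erase x := by
      ext y; simp only [mem_symmDiff, mem_singleton, mem_erase]
      constructor
      · rintro (⟨h, h'⟩ | ⟨h, h'⟩)
        · exact ⟨h', h⟩
        · exact absurd (h ▸ hx) h'
      · rintro ⟨h, h'⟩; exact Or.inl ⟨h', h⟩
    have h2 : ((A.erase x).card : ℤ) = A.card - 1 := by
      have := card_erase_add_one hx; omega
    have h3 : T (A.erase x) B C = T A B C - L B C x := by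
      rw [T_eq_sum_L, T_eq_sum_L, ← add_sum_erase A _ hx]; ring
    rw [h1]; unfold Gam ex; rw [h2, h3, if_pos hx]; ring
  · have h1 : A ∆ {x} = insert x A := by
      ext y; simp only [mem_symmDiff, mem_singleton, mem_insert]
      constructor
      · rintro (⟨h, _⟩ | ⟨h, _⟩)
        · exact Or.inr h
        · exact Or.inl h
      · rintro (h | h)
        · exact Or.inr ⟨h, h ▸ hx⟩
        · exact Or.inl ⟨h, fun e => hx (e ▸ h)⟩
    have h2 : ((insert x A).card : ℤ) = A.card + 1 := by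
      rw [card_insert_of_notMem hx]; push_cast; ring
    have h3 : T (insert x A) B C = T A B C + L B C x := by
      rw [T_eq_sum_L, T_eq_sum_L, sum_insert hx]; ring
    rw [h1]; unfold Gam ex; rw [h2, h3, if_neg hx]; ring

lemma dfc_eq (A B C : Finset G) :
    dfc A B C = ((A \ B).card : ℤ) * (B \ A).card - T (A \ B) (B \ A) C := by
  rw [← T_compl3, T_eq_card]; unfold dfc; simp

omit [Fintype G] in
lemma dfc_nonneg (A B C : Finset G) : 0 ≤ dfc A B C := by unfold dfc; positivity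

lemma T_move (A B C : Finset G) : T A B C = T (A ∪ B) (A ∩ B) C + T (A \ B) (B \ A) C := by
  have d1 : Disjoint (A ∩ B) (A \ B) := by
    rw [disjoint_left]; intro x h1 h2; simp only [mem_inter, mem_sdiff] at h1 h2; tauto
  have d2 : Disjoint (A ∩ B) (B \ A) := by
    rw [disjoint_left]; intro x h1 h2; simp only [mem_inter, mem_sdiff] at h1 h2; tauto
  have d3 : Disjoint A (B \ A) := disjoint_sdiff
  have e1 : A = A ∩ B ∪ A \ B := by ext x; simp only [mem_union, mem_inter, mem_sdiff]; tauto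
  have e2 : B = A ∩ B ∪ B \ A := by ext x; simp only [mem_union, mem_inter, mem_sdiff]; tauto
  have e3 : A ∪ B = A ∪ B \ A := by ext x; simp only [mem_union, mem_sdiff]; tauto
  have h1 : T A B C = T A (A ∩ B) C + T A (B \ A) C := by
    conv_lhs => rw [e2]
    rw [T_union2 _ d2]
  have h2 : T A (B \ A) C = T (A ∩ B) (B \ A) C + T (A \ B) (B \ A) C := by
    conv_lhs => rw [e1]
    rw [T_union1 d1]
    congr 2 <;> rw [← e1]
  have h3 : T (A ∪ B) (A ∩ B) C = T A (A ∩ B) C + T (B \ A) (A ∩ B) C := by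
    rw [e3, T_union1 d3]
  rw [h1, h2, h3, T_swap12 (B \ A)]; ring

omit [AddCommGroup G] [Fintype G] in
lemma card_union_int (A B : Finset G) : ((A ∪ B).card : ℤ) = A.card + (B \ A).card := by
  have := card_sdiff_add_card B A
  rw [union_comm] at this
  omega

omit [AddCommGroup G] [Fintype G] in
lemma card_inter_int (A B : Finset G) : ((A ∩ B).card : ℤ) = B.card - (B \ A).card := by
  have := card_sdiff_add_card_inter B A
  rw [inter_comm] at this
  omega

omit [AddCommGroup G] [Fintype G] in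
lemma card_sdiff_int (A B : Finset G) :
    ((A \ B).card : ℤ) = A.card - B.card + (B \ A).card := by
  have h1 := card_sdiff_add_card_inter B A
  have h2 := card_sdiff_add_card_inter A B
  rw [inter_comm] at h1
  omega

lemma Gam_move (A B C : Finset G) : Gam A B C = Gam (A ∪ B) (A ∩ B) C - 4 * dfc A B C := by
  rw [dfc_eq]; unfold Gam
  rw [T_move A B C, card_union_int, card_inter_int, card_sdiff_int A B]; ring

/-! ### Symmetric differences -/

omit [AddCommGroup G] [Fintype G] in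
lemma card_symmDiff_eq (X Y : Finset G) : (X ∆ Y).card = (X \ Y).card + (Y \ X).card := by
  rw [symmDiff_def, sup_eq_union, card_union_of_disjoint disjoint_sdiff_sdiff]

omit [AddCommGroup G] [Fintype G] in
lemma card_symmDiff_tri (X Y Z : Finset G) : (X ∆ Z).card ≤ (X ∆ Y).card + (Y ∆ Z).card :=
  (card_le_card (symmDiff_triangle X Y Z)).trans (card_union_le _ _)

omit [AddCommGroup G] [Fintype G] in
lemma card_le_add_symmDiff (X Y : Finset G) : X.card ≤ Y.card + (X ∆ Y).card := by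
  have h1 := card_symmDiff_eq X Y
  have h2 := card_sdiff_add_card_inter X Y
  have h3 : (X ∩ Y).card ≤ Y.card := card_le_card inter_subset_right
  omega

omit [AddCommGroup G] in
lemma compl_symmDiff_compl' (X Y : Finset G) : Xᶜ ∆ Yᶜ = X ∆ Y := by
  ext x; simp only [mem_symmDiff, mem_compl]; tauto

/-! ### Periodic sets -/

omit [Fintype G] [DecidableEq G] in
lemma Per.sub_mem {H : AddSubgroup G} {P : Finset G} (hP : Per H P) {x h : G} (hx : x ∈ P)
    (hh : h ∈ H) : x - h ∈ P := by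
  rw [sub_eq_add_neg]; exact hP x hx _ (H.neg_mem hh)

omit [Fintype G] [DecidableEq G] in
lemma Per.mem_iff {H : AddSubgroup G} {P : Finset G} (hP : Per H P) {x y : G}
    (h : x - y ∈ H) : x ∈ P ↔ y ∈ P :=
  ⟨fun hx => by simpa using hP.sub_mem hx h, fun hy => by simpa using hP y hy _ h⟩

omit [Fintype G] [DecidableEq G] in
lemma per_mono {H K : AddSubgroup G} {P : Finset G} (h : K ≤ H) (hP : Per H P) : Per K P :=
  fun x hx y hy => hP x hx y (h hy)

omit [Fintype G] [DecidableEq G] in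
lemma per_empty (H : AddSubgroup G) : Per H (∅ : Finset G) := fun x hx => by simp at hx

omit [DecidableEq G] in
lemma per_univ (H : AddSubgroup G) : Per H (univ : Finset G) := fun _ _ _ _ => mem_univ _

lemma per_compl {H : AddSubgroup G} {P : Finset G} (hP : Per H P) : Per H Pᶜ := by
  intro x hx h hh
  rw [mem_compl] at hx ⊢
  exact fun h' => hx (by simpa using hP.sub_mem h' hh)

omit [Fintype G] in
lemma per_union {H : AddSubgroup G} {P P' : Finset G} (hP : Per H P) (hP' : Per H P') :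
    Per H (P ∪ P') := by
  intro x hx h hh
  rw [mem_union] at hx ⊢
  exact hx.imp (fun a => hP x a h hh) (fun a => hP' x a h hh)

omit [Fintype G] in
lemma per_inter {H : AddSubgroup G} {P P' : Finset G} (hP : Per H P) (hP' : Per H P') :
    Per H (P ∩ P') := by
  intro x hx h hh
  rw [mem_inter] at hx ⊢
  exact ⟨hP x hx.1 h hh, hP' x hx.2 h hh⟩

omit [Fintype G] in
lemma per_sdiff {H : AddSubgroup G} {P P' : Finset G} (hP : Per H P) (hP' : Per H P') :
    Per H (P \ P') := by
  intro x hx h hh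
  rw [mem_sdiff] at hx ⊢
  exact ⟨hP x hx.1 h hh, fun h' => hx.2 (by simpa using hP'.sub_mem h' hh)⟩

omit [Fintype G] in
lemma per_symmDiff {H : AddSubgroup G} {P P' : Finset G} (hP : Per H P) (hP' : Per H P') :
    Per H (P ∆ P') := by
  rw [symmDiff_def, sup_eq_union]
  exact per_union (per_sdiff hP hP') (per_sdiff hP' hP)

lemma per_ng {H : AddSubgroup G} {P : Finset G} (hP : Per H P) : Per H (ng P) := by
  intro x hx h hh
  rw [mem_ng] at hx ⊢
  have := hP.sub_mem hx hh
  rwa [neg_add, ← sub_eq_add_neg]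

lemma per_sh {H : AddSubgroup G} {P : Finset G} (hP : Per H P) (e : G) : Per H (sh P e) := by
  intro x hx h hh
  rw [mem_sh] at hx ⊢
  have := hP _ hx h hh
  rwa [add_sub_right_comm]

/-- The coset `x + H` as a finset. -/
noncomputable def cos (H : AddSubgroup G) (x : G) : Finset G := by
  classical exact univ.filter fun y => y - x ∈ H

@[simp] lemma mem_cos {H : AddSubgroup G} {x y : G} : y ∈ cos H x ↔ y - x ∈ H := by
  simp [cos]

lemma card_cos (H : AddSubgroup G) (x : G) : (cos H x).card = Nat.card H := by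
  rw [← Nat.card_eq_finsetCard]
  refine Nat.card_congr ⟨fun y => ⟨y.1 - x, mem_cos.1 y.2⟩, fun h => ⟨h.1 + x, by simp⟩, ?_, ?_⟩
  · intro y; simp
  · intro h; simp

lemma per_cos (H : AddSubgroup G) (x : G) : Per H (cos H x) := by
  intro y hy h hh
  rw [mem_cos] at hy ⊢
  rw [add_sub_right_comm]; exact H.add_mem hy hh

lemma cos_subset {H : AddSubgroup G} {P : Finset G} (hP : Per H P) {x : G} (hx : x ∈ P) :
    cos H x ⊆ P := fun _ hy => (hP.mem_iff (mem_cos.1 hy)).2 hx

lemma per_le {H : AddSubgroup G} {P : Finset G} (hP : Per H P) (hne : P.Nonempty) :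
    Nat.card H ≤ P.card := by
  obtain ⟨x, hx⟩ := hne
  rw [← card_cos H x]; exact card_le_card (cos_subset hP hx)

omit [DecidableEq G] in
lemma card_sub_pos (H : AddSubgroup G) : 0 < Nat.card H := Nat.card_pos

lemma per_dvd {H : AddSubgroup G} {P : Finset G} (hP : Per H P) : Nat.card H ∣ P.card := by
  induction' hn : P.card using Nat.strong_induction_on with n ih generalizing P
  rcases P.eq_empty_or_nonempty with rfl | ⟨x, hx⟩
  · simp at hn; simp [← hn]
  · have h1 := card_sdiff_add_card_eq_card (cos_subset hP hx)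
    rw [card_cos] at h1
    have h2 := card_sub_pos H
    have h3 := ih (P \ cos H x).card (by omega) (per_sdiff hP (per_cos H x)) rfl
    rw [← hn, ← h1]
    exact Dvd.dvd.add h3 dvd_rfl

lemma per_eq {H : AddSubgroup G} {P P' : Finset G} (hP : Per H P) (hP' : Per H P')
    (h : (P ∆ P').card < Nat.card H) : P = P' := by
  by_contra hne
  have : (P ∆ P').Nonempty := by
    rw [nonempty_iff_ne_empty]
    intro h0
    exact hne (symmDiff_eq_bot.1 h0)
  have := per_le (per_symmDiff hP hP') this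
  omega

lemma per_subset {H : AddSubgroup G} {D V X : Finset G} (hD : Per H D) (hV : Per H V)
    (hX : X ⊆ D) (h : (X ∆ V).card < Nat.card H) : V ⊆ D := by
  by_contra hne
  have h1 : (V \ D).Nonempty := sdiff_nonempty.2 hne
  have h2 := per_le (per_sdiff hV hD) h1
  have h3 : V \ D ⊆ X ∆ V := by
    intro x hx
    rw [mem_sdiff] at hx
    exact mem_symmDiff.2 (Or.inr ⟨hx.1, fun h' => hx.2 (hX h')⟩)
  have := card_le_card h3
  omega

omit [DecidableEq G] in
lemma ne_bot_of_two_le {H : AddSubgroup G} (h : 2 ≤ Nat.card H) : H ≠ ⊥ := by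
  rintro rfl
  simp at h

omit [DecidableEq G] in
lemma two_le_of_ne_bot {H : AddSubgroup G} (h : H ≠ ⊥) : 2 ≤ Nat.card H := by
  have h1 := card_sub_pos H
  have h2 : Nat.card H ≠ 1 := fun h' => h (AddSubgroup.card_eq_one.1 h')
  omega

omit [DecidableEq G] in
lemma card_sub_dvd (H : AddSubgroup G) : Nat.card H ∣ Fintype.card G := by
  rw [← Nat.card_eq_fintype_card]; exact H.card_addSubgroup_dvd_card

/-! ### Transfer of states -/

omit [Fintype G] in
lemma sig_nonneg (A B C P₁ P₂ P₃ : Finset G) : 0 ≤ sig A B C P₁ P₂ P₃ := by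
  unfold sig; positivity

omit [Fintype G] in
lemma sig_tri (A B C X Y Z P₁ P₂ P₃ : Finset G) :
    sig A B C P₁ P₂ P₃ ≤ sig A B C X Y Z + sig X Y Z P₁ P₂ P₃ := by
  have h1 := card_symmDiff_tri A X P₁
  have h2 := card_symmDiff_tri B Y P₂
  have h3 := card_symmDiff_tri C Z P₃
  unfold sig; omega

omit [Fintype G] [DecidableEq G] in
lemma St_swap12 {H : AddSubgroup G} {P₁ P₂ P₃ : Finset G} (h : St H P₁ P₂ P₃) :
    St H P₂ P₁ P₃ := by
  obtain ⟨h1, h2, h3, t, ht, e⟩ := h
  exact ⟨h2, h1, h3, t, ht, by omega⟩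

omit [Fintype G] [DecidableEq G] in
lemma St_swap23 {H : AddSubgroup G} {P₁ P₂ P₃ : Finset G} (h : St H P₁ P₂ P₃) :
    St H P₁ P₃ P₂ := by
  obtain ⟨h1, h2, h3, t, ht, e⟩ := h
  exact ⟨h1, h3, h2, t, ht, by omega⟩

lemma St_sh {H : AddSubgroup G} {P₁ P₂ P₃ : Finset G} (h : St H P₁ P₂ P₃) (e e' : G) :
    St H P₁ (sh P₂ e) (sh P₃ e') := by
  obtain ⟨h1, h2, h3, t, ht, e0⟩ := h
  exact ⟨h1, per_sh h2 e, per_sh h3 e', t, ht, by rw [card_sh, card_sh, e0]⟩

lemma St_compl {H : AddSubgroup G} {P₁ P₂ P₃ : Finset G} (h : St H P₁ P₂ P₃) :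
    St H P₁ P₂ᶜ P₃ᶜ := by
  obtain ⟨h1, h2, h3, t, ht, e0⟩ := h
  obtain ⟨a, ha⟩ := per_dvd h1
  obtain ⟨b, hb⟩ := per_dvd h2
  obtain ⟨c, hc⟩ := per_dvd h3
  obtain ⟨b', hb'⟩ := per_dvd (per_compl h2)
  obtain ⟨c', hc'⟩ := per_dvd (per_compl h3)
  have hk := card_sub_pos H
  have e2 := card_add_card_compl P₂
  have e3 := card_add_card_compl P₃
  have q1 : a + b + c = t := by
    apply Nat.eq_of_mul_eq_mul_left hk
    rw [mul_add, mul_add, ← ha, ← hb, ← hc, e0, mul_comm]
  have q2 : b + b' = c + c' := by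
    apply Nat.eq_of_mul_eq_mul_left hk
    rw [mul_add, mul_add, ← hb, ← hb', ← hc, ← hc', e2, e3]
  refine ⟨h1, per_compl h2, per_compl h3, a + b' + c', ?_, ?_⟩
  · rw [Nat.odd_iff] at ht ⊢; omega
  · rw [ha, hb', hc']; ring

omit [Fintype G] in
lemma Psi_swap12 (A B C : Finset G) (H : AddSubgroup G) (P₁ P₂ P₃ : Finset G) :
    Psi B A C H P₂ P₁ P₃ = Psi A B C H P₁ P₂ P₃ := by unfold Psi sig; ring

omit [Fintype G] in
lemma Psi_swap23 (A B C : Finset G) (H : AddSubgroup G) (P₁ P₂ P₃ : Finset G) :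
    Psi A C B H P₁ P₃ P₂ = Psi A B C H P₁ P₂ P₃ := by unfold Psi sig; ring

lemma Psi_compl (A B C : Finset G) (H : AddSubgroup G) (P₁ P₂ P₃ : Finset G) :
    Psi A Bᶜ Cᶜ H P₁ P₂ᶜ P₃ᶜ = Psi A B C H P₁ P₂ P₃ := by
  unfold Psi sig; rw [compl_symmDiff_compl', compl_symmDiff_compl']

lemma Psi_sh (A B C : Finset G) (H : AddSubgroup G) (P₁ P₂ P₃ : Finset G) (e e' : G) :
    Psi A (sh B e) (sh C e') H P₁ (sh P₂ e) (sh P₃ e') = Psi A B C H P₁ P₂ P₃ := by
  unfold Psi sig; rw [← sh_symmDiff, ← sh_symmDiff, card_sh, card_sh]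

omit [Fintype G] in
lemma HasSt_swap12 {A B C : Finset G} (h : HasSt A B C) : HasSt B A C := by
  obtain ⟨H, P₁, P₂, P₃, h0, h1, h2⟩ := h
  exact ⟨H, P₂, P₁, P₃, h0, St_swap12 h1, by rwa [Psi_swap12]⟩

omit [Fintype G] in
lemma HasSt_swap23 {A B C : Finset G} (h : HasSt A B C) : HasSt A C B := by
  obtain ⟨H, P₁, P₂, P₃, h0, h1, h2⟩ := h
  exact ⟨H, P₁, P₃, P₂, h0, St_swap23 h1, by rwa [Psi_swap23]⟩

lemma HasSt_compl {A B C : Finset G} (h : HasSt A B C) : HasSt A Bᶜ Cᶜ := by
  obtain ⟨H, P₁, P₂, P₃, h0, h1, h2⟩ := h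
  exact ⟨H, P₁, P₂ᶜ, P₃ᶜ, h0, St_compl h1, by rwa [Psi_compl]⟩

lemma HasSt_sh {A B C : Finset G} (h : HasSt A B C) (e e' : G) :
    HasSt A (sh B e) (sh C e') := by
  obtain ⟨H, P₁, P₂, P₃, h0, h1, h2⟩ := h
  exact ⟨H, P₁, sh P₂ e, sh P₃ e', h0, St_sh h1 e e', by rwa [Psi_sh]⟩

lemma S_swap12 {A B C : Finset G} (h : S A B C) : S B A C := by
  intro hg
  rw [← Gam_swap12] at hg ⊢
  obtain ⟨H, P₁, P₂, P₃, h1, h2, h3⟩ := h hg
  exact ⟨H, P₂, P₁, P₃, St_swap12 h1, by rwa [Psi_swap12], by rwa [Psi_swap12]⟩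

lemma S_swap23 {A B C : Finset G} (h : S A B C) : S A C B := by
  intro hg
  rw [← Gam_swap23] at hg ⊢
  obtain ⟨H, P₁, P₂, P₃, h1, h2, h3⟩ := h hg
  exact ⟨H, P₁, P₃, P₂, St_swap23 h1, by rwa [Psi_swap23], by rwa [Psi_swap23]⟩

lemma S_compl {A B C : Finset G} (h : S A B C) : S A Bᶜ Cᶜ := by
  intro hg
  rw [Gam_compl] at hg ⊢
  obtain ⟨H, P₁, P₂, P₃, h1, h2, h3⟩ := h hg
  exact ⟨H, P₁, P₂ᶜ, P₃ᶜ, St_compl h1, by rwa [Psi_compl], by rwa [Psi_compl]⟩

lemma S_sh {A B C : Finset G} (h : S A B C) (e : G) : S A (sh B e) (sh C (-e)) := by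
  intro hg
  rw [Gam_sh] at hg ⊢
  obtain ⟨H, P₁, P₂, P₃, h1, h2, h3⟩ := h hg
  exact ⟨H, P₁, sh P₂ e, sh P₃ (-e), St_sh h1 _ _, by rwa [Psi_sh], by rwa [Psi_sh]⟩

/-- From `S` and `2 ≤ Gam`: a state with `2 ≤ Psi`, so with a nontrivial subgroup. -/
lemma HasSt_of_S {A B C : Finset G} (h : S A B C) (hg : 2 ≤ Gam A B C) : HasSt A B C := by
  obtain ⟨H, P₁, P₂, P₃, h1, h2, h3⟩ := h hg
  refine ⟨H, P₁, P₂, P₃, ne_bot_of_two_le ?_, h1, h2⟩
  have h4 : 2 ≤ Psi A B C H P₁ P₂ P₃ := by nlinarith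
  have h5 := sig_nonneg A B C P₁ P₂ P₃
  unfold Psi at h4
  omega

end Pool.Agent.MP_ed46bc_co.SP
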