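import Pool.Agent.MP_ed46bc_co.SP.Basic

/-!
# Preimages under a surjective homomorphism
-/

namespace Pool.Agent.MP_ed46bc_co.SP

open Finset
open scoped symmDiff

universe u v

variable {G : Type u} [AddCommGroup G] [Fintype G] [DecidableEq G]
variable {Q : Type v} [AddCommGroup Q] [Fintype Q] [DecidableEq Q]

set_option linter.unusedSectionVars false

@[simp] lemma mem_pre {f : G →+ Q} {W : Finset Q} {x : G} : x ∈ pre f W ↔ f x ∈ W := by
  simp [pre]

lemma pre_id (W : Finset G) : pre (AddMonoidHom.id G) W = W := by ext x; simp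

lemma card_ker_id : Nat.card (AddMonoidHom.id G).ker = 1 := by simp

lemma pre_union (f : G →+ Q) (X Y : Finset Q) : pre f (X ∪ Y) = pre f X ∪ pre f Y := by
  ext x; simp

lemma pre_inter (f : G →+ Q) (X Y : Finset Q) : pre f (X ∩ Y) = pre f X ∩ pre f Y := by
  ext x; simp

lemma pre_sdiff (f : G →+ Q) (X Y : Finset Q) : pre f (X \ Y) = pre f X \ pre f Y := by
  ext x; simp

lemma pre_symmDiff (f : G →+ Q) (X Y : Finset Q) : pre f (X ∆ Y) = pre f X ∆ pre f Y := by
  ext x; simp [mem_symmDiff]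

lemma pre_compl (f : G →+ Q) (X : Finset Q) : pre f Xᶜ = (pre f X)ᶜ := by ext x; simp

lemma pre_ng (f : G →+ Q) (X : Finset Q) : pre f (ng X) = ng (pre f X) := by ext x; simp

lemma pre_empty (f : G →+ Q) : pre f ∅ = ∅ := by ext x; simp

lemma pre_univ (f : G →+ Q) : pre f univ = univ := by ext x; simp

lemma pre_mono (f : G →+ Q) {X Y : Finset Q} (h : X ⊆ Y) : pre f X ⊆ pre f Y :=
  fun _ hx => mem_pre.2 (h (mem_pre.1 hx))

lemma pre_inj {f : G →+ Q} (hf : Function.Surjective f) {X Y : Finset Q}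
    (h : pre f X = pre f Y) : X = Y := by
  ext i
  obtain ⟨x, rfl⟩ := hf i
  rw [← mem_pre, h, mem_pre]

lemma ind_pre (f : G →+ Q) (W : Finset Q) (x : G) : ind (pre f W) x = ind W (f x) := by
  simp [ind]

lemma card_fib {f : G →+ Q} (hf : Function.Surjective f) (i : Q) :
    (univ.filter fun x => f x = i).card = Nat.card f.ker := by
  obtain ⟨y, rfl⟩ := hf i
  rw [← card_cos f.ker y]
  congr 1
  ext x
  simp [AddMonoidHom.mem_ker, sub_eq_zero]

lemma card_pre_single {f : G →+ Q} (hf : Function.Surjective f) (i : Q) :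
    (pre f {i}).card = Nat.card f.ker := by
  rw [← card_fib hf i]; congr 1; ext x; simp

lemma sum_comp_hom {f : G →+ Q} (hf : Function.Surjective f) (g : Q → ℤ) :
    ∑ x, g (f x) = (Nat.card f.ker : ℤ) * ∑ i, g i := by
  rw [← sum_fiberwise univ f, mul_sum]
  refine sum_congr rfl fun i _ => ?_
  rw [sum_congr rfl (g := fun _ => g i) (fun x hx => by rw [(mem_filter.1 hx).2]), sum_const,
    card_fib hf, nsmul_eq_mul]

lemma card_pre_int {f : G →+ Q} (hf : Function.Surjective f) (W : Finset Q) :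
    ((pre f W).card : ℤ) = (Nat.card f.ker : ℤ) * W.card := by
  rw [← sum_ind, ← sum_ind, ← sum_comp_hom hf]
  exact sum_congr rfl fun x _ => ind_pre f W x

lemma card_pre {f : G →+ Q} (hf : Function.Surjective f) (W : Finset Q) :
    (pre f W).card = Nat.card f.ker * W.card := by
  exact_mod_cast card_pre_int hf W

lemma card_G {f : G →+ Q} (hf : Function.Surjective f) :
    Fintype.card G = Nat.card f.ker * Fintype.card Q := by
  have := card_pre hf univ
  rwa [pre_univ, card_univ, card_univ] at this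

lemma card_Q_lt {f : G →+ Q} (hf : Function.Surjective f) (h : f.ker ≠ ⊥) :
    Fintype.card Q < Fintype.card G := by
  have h1 := two_le_of_ne_bot h
  have h2 : 0 < Fintype.card Q := Fintype.card_pos
  rw [card_G hf]; nlinarith

lemma cnt_nonneg (f : G →+ Q) (X : Finset G) (i : Q) : 0 ≤ cnt f X i := by
  unfold cnt; positivity

lemma cnt_mono (f : G →+ Q) {X Y : Finset G} (h : X ⊆ Y) (i : Q) : cnt f X i ≤ cnt f Y i := by
  unfold cnt; exact_mod_cast card_le_card (filter_subset_filter _ h)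

lemma cnt_eq_inter (f : G →+ Q) (X : Finset G) (i : Q) :
    cnt f X i = ((X ∩ pre f {i}).card : ℤ) := by
  unfold cnt; congr 2; ext x; simp

lemma cnt_union (f : G →+ Q) {X Y : Finset G} (h : Disjoint X Y) (i : Q) :
    cnt f (X ∪ Y) i = cnt f X i + cnt f Y i := by
  unfold cnt
  rw [filter_union, card_union_of_disjoint (disjoint_filter_filter h)]; push_cast; rfl

lemma cnt_univ {f : G →+ Q} (hf : Function.Surjective f) (i : Q) :
    cnt f univ i = Nat.card f.ker := by
  unfold cnt; rw [card_fib hf]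

lemma cnt_le {f : G →+ Q} (hf : Function.Surjective f) (X : Finset G) (i : Q) :
    cnt f X i ≤ Nat.card f.ker := by
  rw [← cnt_univ hf i]; exact cnt_mono f (subset_univ X) i

lemma cnt_pre {f : G →+ Q} (hf : Function.Surjective f) (W : Finset Q) (i : Q) :
    cnt f (pre f W) i = if i ∈ W then (Nat.card f.ker : ℤ) else 0 := by
  split_ifs with h
  · rw [← cnt_univ hf i]; unfold cnt; congr 2; ext x
    simp only [mem_filter, mem_pre, mem_univ, true_and, and_iff_right_iff_imp]
    rintro rfl; exact h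
  · unfold cnt
    rw [Int.natCast_eq_zero, card_eq_zero, filter_eq_empty_iff]
    rintro x hx rfl
    exact h (mem_pre.1 hx)

lemma card_inter_pre (f : G →+ Q) (X : Finset G) (J : Finset Q) :
    ((X ∩ pre f J).card : ℤ) = ∑ i ∈ J, cnt f X i := by
  rw [card_eq_sum_card_fiberwise (f := f) (t := J) (fun x hx => mem_pre.1 (mem_inter.1 hx).2)]
  push_cast
  refine sum_congr rfl fun i hi => ?_
  unfold cnt; congr 2; ext x
  simp only [mem_filter, mem_inter, mem_pre]
  constructor
  · rintro ⟨⟨a, _⟩, b⟩; exact ⟨a, b⟩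
  · rintro ⟨a, rfl⟩; exact ⟨⟨a, hi⟩, rfl⟩

lemma card_eq_sum_cnt (f : G →+ Q) (X : Finset G) : (X.card : ℤ) = ∑ i, cnt f X i := by
  rw [← card_inter_pre, pre_univ, inter_univ]

lemma L_pre {f : G →+ Q} (hf : Function.Surjective f) (B C : Finset Q) (x : G) :
    L (pre f B) (pre f C) x = (Nat.card f.ker : ℤ) * L B C (f x) := by
  unfold L
  rw [← sum_comp_hom hf]
  refine sum_congr rfl fun y _ => ?_
  rw [ind_pre, ind_pre, map_sub, map_neg]

lemma T_pre {f : G →+ Q} (hf : Function.Surjective f) (A B C : Finset Q) :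
    T (pre f A) (pre f B) (pre f C) = (Nat.card f.ker : ℤ) ^ 2 * T A B C := by
  rw [T, T, T3_eq_sum_L, T3_eq_sum_L, pow_two, mul_assoc, ← sum_comp_hom hf, mul_sum]
  refine sum_congr rfl fun x _ => ?_
  rw [ind_pre, L_pre hf]; ring

lemma Gam_pre {f : G →+ Q} (hf : Function.Surjective f) (A B C : Finset Q) :
    Gam (pre f A) (pre f B) (pre f C) = (Nat.card f.ker : ℤ) ^ 2 * Gam A B C := by
  unfold Gam
  rw [T_pre hf, card_pre_int hf, card_pre_int hf, card_pre_int hf]; ring

lemma per_pre (f : G →+ Q) (W : Finset Q) : Per f.ker (pre f W) := by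
  intro x hx h hh
  rw [mem_pre] at hx ⊢
  rwa [map_add, AddMonoidHom.mem_ker.1 hh, add_zero]

lemma exists_pre (f : G →+ Q) {P : Finset G} (hP : Per f.ker P) :
    ∃ W : Finset Q, P = pre f W := by
  refine ⟨P.image f, ?_⟩
  ext x
  rw [mem_pre, mem_image]
  refine ⟨fun hx => ⟨x, hx, rfl⟩, fun ⟨y, hy, e⟩ => ?_⟩
  exact (hP.mem_iff (x := x) (y := y) (by simp [AddMonoidHom.mem_ker, e])).2 hy

lemma ker_le_comap (f : G →+ Q) (K : AddSubgroup Q) : f.ker ≤ K.comap f := by
  intro x hx
  rw [AddSubgroup.mem_comap, AddMonoidHom.mem_ker.1 hx]; exact K.zero_mem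

lemma card_comap {f : G →+ Q} (hf : Function.Surjective f) (K : AddSubgroup Q) :
    Nat.card (K.comap f) = Nat.card f.ker * Nat.card K := by
  rw [← card_cos K 0, ← card_pre hf, ← card_cos (K.comap f) 0]
  congr 1; ext x; simp

lemma per_pre_comap (f : G →+ Q) {K : AddSubgroup Q} {V : Finset Q} (h : Per K V) :
    Per (K.comap f) (pre f V) := by
  intro x hx y hy
  rw [mem_pre] at hx ⊢
  rw [map_add]; exact h _ hx _ hy

lemma St_pre {f : G →+ Q} (hf : Function.Surjective f) {K : AddSubgroup Q}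
    {V₁ V₂ V₃ : Finset Q} (h : St K V₁ V₂ V₃) :
    St (K.comap f) (pre f V₁) (pre f V₂) (pre f V₃) := by
  obtain ⟨h1, h2, h3, t, ht, e⟩ := h
  refine ⟨per_pre_comap f h1, per_pre_comap f h2, per_pre_comap f h3, t, ht, ?_⟩
  rw [card_pre hf, card_pre hf, card_pre hf, card_comap hf, ← mul_add, ← mul_add, e]; ring

lemma St_ker {f : G →+ Q} (hf : Function.Surjective f) {W₁ W₂ W₃ : Finset Q}
    (h : Odd (W₁.card + W₂.card + W₃.card)) : St f.ker (pre f W₁) (pre f W₂) (pre f W₃) := by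
  refine ⟨per_pre f _, per_pre f _, per_pre f _, _, h, ?_⟩
  rw [card_pre hf, card_pre hf, card_pre hf]; ring

lemma odd_of_St_ker {f : G →+ Q} (hf : Function.Surjective f) {W₁ W₂ W₃ : Finset Q}
    (h : St f.ker (pre f W₁) (pre f W₂) (pre f W₃)) : Odd (W₁.card + W₂.card + W₃.card) := by
  obtain ⟨-, -, -, t, ht, e⟩ := h
  rw [card_pre hf, card_pre hf, card_pre hf, ← mul_add, ← mul_add, mul_comm t] at e
  rwa [Nat.eq_of_mul_eq_mul_left (card_sub_pos f.ker) e]

lemma sig_pre {f : G →+ Q} (hf : Function.Surjective f) (X Y Z V₁ V₂ V₃ : Finset Q) :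
    sig (pre f X) (pre f Y) (pre f Z) (pre f V₁) (pre f V₂) (pre f V₃) =
      (Nat.card f.ker : ℤ) * sig X Y Z V₁ V₂ V₃ := by
  unfold sig
  rw [← pre_symmDiff, ← pre_symmDiff, ← pre_symmDiff, card_pre_int hf, card_pre_int hf,
    card_pre_int hf]; ring

lemma exists_quot (H : AddSubgroup G) :
    ∃ (Q : Type u) (_ : AddCommGroup Q) (_ : Fintype Q) (_ : DecidableEq Q) (f : G →+ Q),
      Function.Surjective f ∧ f.ker = H := by
  classical
  exact ⟨G ⧸ H, inferInstance, Fintype.ofFinite _, inferInstance, QuotientAddGroup.mk' H,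
    QuotientAddGroup.mk'_surjective H, QuotientAddGroup.ker_mk' H⟩

/-- For a good symmetric base, `0` is in the base. -/
lemma zero_mem_of_good {W : Finset G} (h : Good W W (ng W)) : (0 : G) ∈ W := by
  by_contra h0
  have h1 := h.1 0
  have h2 : L W (ng W) 0 = W.card := by
    rw [L_eq_card]; congr 2
    exact filter_true_of_mem fun y hy => by simpa using hy
  unfold ex at h1
  rw [if_neg h0, h2, card_ng] at h1
  omega

lemma Good.ex_nonneg {W₁ W₂ W₃ : Finset G} (h : Good W₁ W₂ W₃) (x : G) :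
    0 ≤ ex W₁ W₂ W₃ x ∧ 0 ≤ ex W₂ W₁ W₃ x ∧ 0 ≤ ex W₃ W₁ W₂ x := by
  have h1 := h.1 x
  have h2 := h.2.1 x
  have h3 := h.2.2 x
  omega

lemma Fr_nonneg (X P Y P' Z : Finset G) : 0 ≤ Fr X P Y P' Z := by unfold Fr; positivity

lemma NN_nonneg (X P : Finset G) : 0 ≤ NN X P := by unfold NN; positivity

end Pool.Agent.MP_ed46bc_co.SP
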