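import Mathlib

/-!
# Sharp Pollard-Kneser structure theorem and Schur triples: definitions and row statements

See the note d13_ed46bc_h75.md. Every row proves one statement of this file from the statements
listed as its hypotheses.
-/

namespace Pool.Agent.MP_ed46bc_co.SP

open Finset
open scoped symmDiff

universe u v

section Defs

variable {G : Type u} [AddCommGroup G] [Fintype G] [DecidableEq G]
variable {Q : Type v} [AddCommGroup Q] [Fintype Q] [DecidableEq Q]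

/-- Indicator function. -/
def ind (A : Finset G) (x : G) : ℤ := if x ∈ A then 1 else 0

/-- The trilinear form counting solutions of `x + y + z = 0`. -/
def T3 (f g h : G → ℤ) : ℤ := ∑ x, ∑ y, f x * g y * h (-x - y)

/-- Number of `(a, b, c) ∈ A × B × C` with `a + b + c = 0`. -/
def T (A B C : Finset G) : ℤ := T3 (ind A) (ind B) (ind C)

/-- The gain over the Pollard bound. -/
def Gam (A B C : Finset G) : ℤ :=
  4 * T A B C - 2 * ((A.card : ℤ) * B.card + (B.card : ℤ) * C.card + (C.card : ℤ) * A.card)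
    + (A.card : ℤ) ^ 2 + (B.card : ℤ) ^ 2 + (C.card : ℤ) ^ 2

/-- `-W`. -/
def ng (W : Finset G) : Finset G := univ.filter fun x => -x ∈ W

/-- `W + e`. -/
def sh (W : Finset G) (e : G) : Finset G := univ.filter fun x => x - e ∈ W

/-- `P` is a union of cosets of `H`. -/
def Per (H : AddSubgroup G) (P : Finset G) : Prop := ∀ x ∈ P, ∀ h ∈ H, x + h ∈ P

/-- A state: three `H`-periodic sets with an odd total number of cosets. -/
def St (H : AddSubgroup G) (P₁ P₂ P₃ : Finset G) : Prop :=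
  Per H P₁ ∧ Per H P₂ ∧ Per H P₃ ∧
    ∃ t : ℕ, Odd t ∧ P₁.card + P₂.card + P₃.card = t * Nat.card H

/-- Total deviation. -/
def sig (A B C P₁ P₂ P₃ : Finset G) : ℤ :=
  ((A ∆ P₁).card : ℤ) + ((B ∆ P₂).card : ℤ) + ((C ∆ P₃).card : ℤ)

/-- `|H|` minus the total deviation. -/
noncomputable def Psi (A B C : Finset G) (H : AddSubgroup G) (P₁ P₂ P₃ : Finset G) : ℤ :=
  (Nat.card H : ℤ) - sig A B C P₁ P₂ P₃

/-- The triple has a state with a nontrivial subgroup and positive `Psi`. -/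
def HasSt (A B C : Finset G) : Prop :=
  ∃ (H : AddSubgroup G) (P₁ P₂ P₃ : Finset G),
    H ≠ ⊥ ∧ St H P₁ P₂ P₃ ∧ 1 ≤ Psi A B C H P₁ P₂ P₃

/-- The structure statement for one triple. -/
def S (A B C : Finset G) : Prop :=
  2 ≤ Gam A B C → ∃ (H : AddSubgroup G) (P₁ P₂ P₃ : Finset G),
    St H P₁ P₂ P₃ ∧ 1 ≤ Psi A B C H P₁ P₂ P₃ ∧ Gam A B C ≤ Psi A B C H P₁ P₂ P₃ ^ 2

/-- Preimage. -/
def pre (f : G →+ Q) (W : Finset Q) : Finset G := univ.filter fun x => f x ∈ W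

/-- `#{y ∈ B : -x - y ∈ C}`. -/
def L (B C : Finset G) (x : G) : ℤ := ∑ y, ind B y * ind C (-x - y)

/-- Excess of the point `x` for the first slot. -/
def ex (A B C : Finset G) (x : G) : ℤ :=
  (if x ∈ A then 1 else -1) * (4 * L B C x - 2 * ((B.card : ℤ) + C.card - A.card)) - 2

/-- All excesses are `0` or at least `4`. -/
def Good (W₁ W₂ W₃ : Finset G) : Prop :=
  (∀ x, ex W₁ W₂ W₃ x = 0 ∨ 4 ≤ ex W₁ W₂ W₃ x) ∧
  (∀ x, ex W₂ W₁ W₃ x = 0 ∨ 4 ≤ ex W₂ W₁ W₃ x) ∧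
  (∀ x, ex W₃ W₁ W₂ x = 0 ∨ 4 ≤ ex W₃ W₁ W₂ x)

/-- Output of the upgrade lemma: a primitive good base in a proper quotient. -/
def Top (f : G →+ Q) (W₁ W₂ W₃ : Finset Q) : Prop :=
  Function.Surjective f ∧ f.ker ≠ ⊥ ∧ Odd (W₁.card + W₂.card + W₃.card) ∧
    ¬ HasSt W₁ W₂ W₃ ∧ Gam W₁ W₂ W₃ = 1 ∧ Good W₁ W₂ W₃

/-- Number of frustrated pairs of deviation points. -/
def Fr (X P Y P' Z : Finset G) : ℤ :=
  ((((X ∆ P) ×ˢ (Y ∆ P')).filter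
    fun p : G × G => ¬ ((p.1 ∈ X ↔ p.2 ∈ Y) ↔ -p.1 - p.2 ∈ Z)).card : ℤ)

/-- Number of pairs of deviation points of opposite sign in one slot. -/
def NN (X P : Finset G) : ℤ := ((X \ P).card : ℤ) * ((P \ X).card : ℤ)

/-- The largest of the four slacks. -/
def maxs (A B C : Finset G) : ℤ :=
  max (max ((A.card : ℤ) + B.card - C.card) ((A.card : ℤ) + C.card - B.card))
    (max ((B.card : ℤ) + C.card - A.card)
      (2 * (Fintype.card G : ℤ) - A.card - B.card - C.card))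

/-- The defect of the move `(A, B) ↦ (A ∪ B, A ∩ B)`. -/
def dfc (A B C : Finset G) : ℤ :=
  ((((A \ B) ×ˢ (B \ A)).filter fun p : G × G => -p.1 - p.2 ∉ C).card : ℤ)

/-- The part of the defect over the fibres in `E × E`. -/
def dfcOn (f : G →+ Q) (A B C : Finset G) (E : Finset Q) : ℤ :=
  ((((A \ B) ×ˢ (B \ A)).filter
    fun p : G × G => f p.1 ∈ E ∧ f p.2 ∈ E ∧ -p.1 - p.2 ∉ C).card : ℤ)

/-- Number of points of `X` in the fibre over `i`. -/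
def cnt (f : G →+ Q) (X : Finset G) (i : Q) : ℤ := ((X.filter fun x => f x = i).card : ℤ)

/-- The minor part of the fibre `i`. -/
def mm (f : G →+ Q) (A B : Finset G) (i : Q) : ℤ := min (cnt f (A \ B) i) (cnt f (B \ A) i)

/-- `Psi` of the moved triple. -/
noncomputable def P0 (f : G →+ Q) (A B C : Finset G) (W₁ W₂ W₃ : Finset Q) : ℤ :=
  Psi (A ∪ B) (A ∩ B) C f.ker (pre f W₁) (pre f W₂) (pre f W₃)

/-- The heavy fibres. -/
noncomputable def JJ (f : G →+ Q) (A B C : Finset G) (W₁ W₂ W₃ : Finset Q) : Finset Q :=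
  (W₁ \ W₂).filter fun i => P0 f A B C W₁ W₂ W₃ < 2 * mm f A B i

/-- Total minor part of the light fibres. -/
noncomputable def muL (f : G →+ Q) (A B C : Finset G) (W₁ W₂ W₃ : Finset Q) : ℤ :=
  ∑ i ∈ (W₁ \ W₂) \ JJ f A B C W₁ W₂ W₃, mm f A B i

/-- Deviation of the moved pair over the fibres in `J`. -/
def dJ (f : G →+ Q) (A B : Finset G) (J : Finset Q) : ℤ :=
  ((pre f J \ (A ∪ B)).card : ℤ) + ((A ∩ B ∩ pre f J).card : ℤ)

/-- Standing hypotheses of the pull-back. -/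
def Ctx (f : G →+ Q) (A B C : Finset G) (W₁ W₂ W₃ : Finset Q) : Prop :=
  Function.Surjective f ∧ Odd (W₁.card + W₂.card + W₃.card) ∧ Gam W₁ W₂ W₃ = 1 ∧
    Good W₁ W₂ W₃ ∧ f.ker ≠ ⊥ ∧ 1 ≤ P0 f A B C W₁ W₂ W₃ ∧ 2 ≤ Gam A B C ∧
    C.card ≤ A.card + B.card ∧ (A \ B).card + (B \ A).card ≤ C.card ∧
    A.card + B.card + C.card ≤ 2 * Fintype.card G

/-- First consequences (row PB0). -/
def Ctx0 (f : G →+ Q) (A B C : Finset G) (W₁ W₂ W₃ : Finset Q) : Prop :=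
  W₂ ⊆ W₁ ∧ W₂.Nonempty ∧ W₃.Nonempty ∧ W₁ᶜ.Nonempty ∧
    (∀ i ∈ W₁ \ W₂, ∃ l ∈ W₁ \ W₂, -i - l ∉ W₃) ∧
    4 * dfc A B C < P0 f A B C W₁ W₂ W₃ ^ 2

/-- Facts on light fibres (row PB2a). -/
def CtxL (f : G →+ Q) (A B C : Finset G) (W₁ W₂ W₃ : Finset Q) : Prop :=
  (∀ j ∈ JJ f A B C W₁ W₂ W₃, ∀ l ∈ W₁ \ W₂, -j - l ∉ W₃ → l ∈ JJ f A B C W₁ W₂ W₃) ∧
    muL f A B C W₁ W₂ W₃ * P0 f A B C W₁ W₂ W₃ ≤
      2 * dfcOn f A B C ((W₁ \ W₂) \ JJ f A B C W₁ W₂ W₃)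

/-- Facts on heavy fibres (row PB2b). -/
def CtxH (f : G →+ Q) (A B C : Finset G) (W₁ W₂ W₃ : Finset Q) (k : Q) : Prop :=
  k ∉ W₃ ∧ (∀ j ∈ JJ f A B C W₁ W₂ W₃, -k - j ∈ JJ f A B C W₁ W₂ W₃) ∧
    (∀ j ∈ JJ f A B C W₁ W₂ W₃, ∀ l ∈ W₁ \ W₂, -j - l ∉ W₃ → -j - l = k) ∧
    sig (A ∪ B) (A ∩ B) C (pre f W₁) (pre f W₂) (pre f W₃) - dJ f A B (JJ f A B C W₁ W₂ W₃)
      < 2 * cnt f C k ∧
    2 * T ((A \ B) ∩ pre f (JJ f A B C W₁ W₂ W₃)) ((B \ A) ∩ pre f (JJ f A B C W₁ W₂ W₃))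
        (pre f {k} \ C) + muL f A B C W₁ W₂ W₃ * P0 f A B C W₁ W₂ W₃ ≤ 2 * dfc A B C

end Defs

/-- The extremal gain for sets of size `b` in a group of order `n`. -/
def E (n b : ℕ) : ℕ :=
  max
    (((n.divisors ×ˢ range (n + 1)).filter
        fun p : ℕ × ℕ => Odd p.2 ∧ 5 * Nat.dist b (p.2 * p.1) ≤ p.1).sup
      fun p : ℕ × ℕ => (p.1 - Nat.dist b (p.2 * p.1)) * (p.1 - 5 * Nat.dist b (p.2 * p.1)))
    (((n.divisors ×ˢ n.divisors).filter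
        fun p : ℕ × ℕ => p.2 ∣ p.1 ∧ b ≤ p.1 ∧ p.1 ≤ b + (p.2 + 1) / 3 * (p.1 / p.2)).sup
      fun p : ℕ × ℕ => Nat.dist (2 * p.1) (3 * b) ^ 2)

/-! ## Row statements -/

/-- Row ACC: the accounting identity. -/
def ACC : Prop :=
  ∀ (G : Type u) [AddCommGroup G] [Fintype G] [DecidableEq G]
    (Q : Type v) [AddCommGroup Q] [Fintype Q] [DecidableEq Q] (f : G →+ Q)
    (A B C : Finset G) (W₁ W₂ W₃ : Finset Q), Function.Surjective f →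
    Gam A B C = (Nat.card f.ker : ℤ) ^ 2 * Gam W₁ W₂ W₃
      - 2 * (Nat.card f.ker : ℤ) * sig A B C (pre f W₁) (pre f W₂) (pre f W₃)
      + sig A B C (pre f W₁) (pre f W₂) (pre f W₃) ^ 2
      - (Nat.card f.ker : ℤ) * (∑ x ∈ A ∆ pre f W₁, ex W₁ W₂ W₃ (f x)
          + ∑ x ∈ B ∆ pre f W₂, ex W₂ W₁ W₃ (f x) + ∑ x ∈ C ∆ pre f W₃, ex W₃ W₁ W₂ (f x))
      - 4 * (NN A (pre f W₁) + NN B (pre f W₂) + NN C (pre f W₃))
      - 4 * (Fr A (pre f W₁) B (pre f W₂) (pre f W₃) + Fr A (pre f W₁) C (pre f W₃) B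
          + Fr B (pre f W₂) C (pre f W₃) (pre f W₁))

/-- Row U: the upgrade lemma. -/
def UP : Prop :=
  ∀ (G : Type u) [AddCommGroup G] [Fintype G] [DecidableEq G],
    (∀ (Q : Type u) [AddCommGroup Q] [Fintype Q] [DecidableEq Q],
      Fintype.card Q < Fintype.card G → ∀ X Y Z : Finset Q, S X Y Z) →
    ∀ A B C : Finset G, 1 ≤ Gam A B C → HasSt A B C →
      ∃ (Q : Type u) (_ : AddCommGroup Q) (_ : Fintype Q) (_ : DecidableEq Q) (f : G →+ Q)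
        (W₁ W₂ W₃ : Finset Q), Top f W₁ W₂ W₃ ∧
        1 ≤ Psi A B C f.ker (pre f W₁) (pre f W₂) (pre f W₃) ∧
        Gam A B C ≤ Psi A B C f.ker (pre f W₁) (pre f W₂) (pre f W₃) ^ 2

/-- Row PB0. -/
def PB0 : Prop :=
  ∀ (G : Type u) [AddCommGroup G] [Fintype G] [DecidableEq G]
    (Q : Type u) [AddCommGroup Q] [Fintype Q] [DecidableEq Q] (f : G →+ Q)
    (A B C : Finset G) (W₁ W₂ W₃ : Finset Q), Ctx f A B C W₁ W₂ W₃ → Ctx0 f A B C W₁ W₂ W₃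

/-- Row PB1: deviation of the pulled-back base outside the fibres in `J`. -/
def PB1 : Prop :=
  ∀ (G : Type u) [AddCommGroup G] [Fintype G] [DecidableEq G]
    (Q : Type u) [AddCommGroup Q] [Fintype Q] [DecidableEq Q] (f : G →+ Q)
    (A B : Finset G) (W₁ W₂ J : Finset Q), W₂ ⊆ W₁ → J ⊆ W₁ \ W₂ →
    ((((A \ pre f J) ∆ pre f (W₂ ∪ ((W₁ \ W₂) \ J).filter
        fun i => cnt f (B \ A) i ≤ cnt f (A \ B) i)).card : ℤ)
      + (((B \ pre f J) ∆ pre f (W₂ ∪ ((W₁ \ W₂) \ J).filter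
        fun i => cnt f (A \ B) i < cnt f (B \ A) i)).card : ℤ))
      = (((A ∪ B) ∆ pre f W₁).card : ℤ) + (((A ∩ B) ∆ pre f W₂).card : ℤ) - dJ f A B J
        + 2 * ∑ i ∈ (W₁ \ W₂) \ J, mm f A B i

/-- Row PB2a. -/
def PB2a : Prop :=
  ∀ (G : Type u) [AddCommGroup G] [Fintype G] [DecidableEq G]
    (Q : Type u) [AddCommGroup Q] [Fintype Q] [DecidableEq Q] (f : G →+ Q)
    (A B C : Finset G) (W₁ W₂ W₃ : Finset Q), Ctx f A B C W₁ W₂ W₃ → Ctx0 f A B C W₁ W₂ W₃ →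
    CtxL f A B C W₁ W₂ W₃

/-- Row PB2b. -/
def PB2b : Prop :=
  ∀ (G : Type u) [AddCommGroup G] [Fintype G] [DecidableEq G]
    (Q : Type u) [AddCommGroup Q] [Fintype Q] [DecidableEq Q] (f : G →+ Q)
    (A B C : Finset G) (W₁ W₂ W₃ : Finset Q), Ctx f A B C W₁ W₂ W₃ → Ctx0 f A B C W₁ W₂ W₃ →
    CtxL f A B C W₁ W₂ W₃ → P0 f A B C W₁ W₂ W₃ ≤ 2 * ∑ i ∈ W₁ \ W₂, mm f A B i →
    ∃ k : Q, CtxH f A B C W₁ W₂ W₃ k

/-- Row PB3: the star inequality, with `P = |R| - dJ`. -/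
def PB3 : Prop :=
  ∀ (G : Type u) [AddCommGroup G] [Fintype G] [DecidableEq G]
    (Q : Type u) [AddCommGroup Q] [Fintype Q] [DecidableEq Q] (f : G →+ Q)
    (A B C : Finset G) (W₁ W₂ W₃ : Finset Q) (k : Q), Ctx f A B C W₁ W₂ W₃ →
    CtxH f A B C W₁ W₂ W₃ k →
    Gam A B C ≤ P0 f A B C W₁ W₂ W₃ ^ 2
        - (((pre f {k} \ C).card : ℤ) - dJ f A B (JJ f A B C W₁ W₂ W₃)) ^ 2
        + Gam (A ∩ pre f (JJ f A B C W₁ W₂ W₃)) (pre f (JJ f A B C W₁ W₂ W₃) \ B) (pre f {k} \ C)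
        - 2 * muL f A B C W₁ W₂ W₃ * P0 f A B C W₁ W₂ W₃ ∧
      Gam (A ∩ pre f (JJ f A B C W₁ W₂ W₃)) (pre f (JJ f A B C W₁ W₂ W₃) \ B) (pre f {k} \ C)
        ≤ (((pre f {k} \ C).card : ℤ) - dJ f A B (JJ f A B C W₁ W₂ W₃)) ^ 2 ∧
      P0 f A B C W₁ W₂ W₃ ≤ ((pre f {k} \ C).card : ℤ) - dJ f A B (JJ f A B C W₁ W₂ W₃)

/-- Row PB4: the star triple has a larger maximal slack. -/
def PB4 : Prop :=
  ∀ (G : Type u) [AddCommGroup G] [Fintype G] [DecidableEq G]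
    (Q : Type u) [AddCommGroup Q] [Fintype Q] [DecidableEq Q] (f : G →+ Q)
    (A B C : Finset G) (W₁ W₂ W₃ : Finset Q) (k : Q), Ctx f A B C W₁ W₂ W₃ →
    Ctx0 f A B C W₁ W₂ W₃ → CtxH f A B C W₁ W₂ W₃ k →
    ((A \ B) ∩ pre f (JJ f A B C W₁ W₂ W₃)).card ≤ ((B \ A) ∩ pre f (JJ f A B C W₁ W₂ W₃)).card →
    maxs A B C < 2 * (Fintype.card G : ℤ) - (A ∩ pre f (JJ f A B C W₁ W₂ W₃)).card
      - (pre f (JJ f A B C W₁ W₂ W₃) \ B).card - (pre f {k} \ C).card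

/-- Row PB5: restriction of a state to a subgroup whose coset contains the third set. -/
def PB5 : Prop :=
  ∀ (G : Type u) [AddCommGroup G] [Fintype G] [DecidableEq G] (X Y R : Finset G)
    (H H' : AddSubgroup G) (V₁ V₂ V₃ : Finset G), (∀ r ∈ R, ∀ r' ∈ R, r - r' ∈ H) →
    Y.card ≤ X.card + R.card → X.card ≤ Y.card + R.card →
    St H' V₁ V₂ V₃ → 1 ≤ Psi X Y R H' V₁ V₂ V₃ →
    ∃ (K : AddSubgroup G) (U₃ : Finset G), K ≤ H ∧ St K V₁ V₂ U₃ ∧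
      Psi X Y R H' V₁ V₂ V₃ ≤ Psi X Y R K V₁ V₂ U₃

/-- Row PB6: the pull-back lemma. -/
def PB : Prop :=
  ∀ (G : Type u) [AddCommGroup G] [Fintype G] [DecidableEq G]
    (Q : Type u) [AddCommGroup Q] [Fintype Q] [DecidableEq Q] (f : G →+ Q)
    (A B C : Finset G) (W₁ W₂ W₃ : Finset Q), Ctx f A B C W₁ W₂ W₃ →
    (∀ X Y R : Finset G,
      maxs A B C < 2 * (Fintype.card G : ℤ) - X.card - Y.card - R.card → S X Y R) →
    HasSt A B C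

/-- Row MAIN: the structure theorem. -/
def SS : Prop :=
  ∀ (G : Type u) [AddCommGroup G] [Fintype G] [DecidableEq G] (A B C : Finset G), S A B C

/-- Row ZG: the zero-gain lemma. -/
def ZG : Prop :=
  ∀ (Q : Type u) [AddCommGroup Q] [Fintype Q] [DecidableEq Q] (W : Finset Q),
    ¬ HasSt W W (ng W) → Gam W W (ng W) = 1 → Good W W (ng W) → ∀ i j : Q, (i ∈ W ↔ j ∈ W) →
    ex W W (ng W) i = 0 → ex W W (ng W) j = 0 → ex (ng W) W W (-i) = 0 →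
    ((i = j ∧ i + i ∈ W) ∨ (i ≠ j ∧ i - j ∈ W)) →
    (i ∈ W ∧ W = {0}) ∨
      (i ∉ W ∧ ∃ K : AddSubgroup Q, (∀ w ∈ W, w ∈ K) ∧ i ∈ K ∧ 3 * W.card + 1 = 2 * Nat.card K)

/-- Row M: the bound for symmetric triples, structural form. -/
def MM : Prop :=
  ∀ (G : Type u) [AddCommGroup G] [Fintype G] [DecidableEq G] (B : Finset G),
    2 ≤ Gam B B (ng B) →
    (∃ k t s : ℕ, k ∣ Fintype.card G ∧ Odd t ∧ (B.card = t * k + s ∨ B.card + s = t * k) ∧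
      5 * s ≤ k ∧ Gam B B (ng B) ≤ ((k : ℤ) - s) * ((k : ℤ) - 5 * s)) ∨
    (∃ N d : ℕ, N ∣ Fintype.card G ∧ d ∣ N ∧ B.card ≤ N ∧ N ≤ B.card + (d + 1) / 3 * (N / d) ∧
      Gam B B (ng B) ≤ (2 * (N : ℤ) - 3 * B.card) ^ 2)

/-- Row UB: the upper bound. -/
def UB : Prop :=
  ∀ (G : Type u) [AddCommGroup G] [Fintype G] [DecidableEq G] (B : Finset G),
    Gam B B (ng B) ≤ E (Fintype.card G) B.card

/-- Row EX: cyclic sections of odd order or of order two. -/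
def EX : Prop :=
  ∀ (G : Type u) [AddCommGroup G] [Fintype G] [DecidableEq G],
    (∃ (g : G) (e : ℕ), addOrderOf g * 2 ^ e = Fintype.card G) →
    ∀ k j : ℕ, k * j ∣ Fintype.card G → (Odd j ∨ j = 2) →
    ∃ (K : AddSubgroup G) (p : K →+ ZMod j), Function.Surjective p ∧ Nat.card K = k * j

/-- Row INT: intervals in a cyclic group. -/
def INT : Prop :=
  ∀ (j h : ℕ) [NeZero j], 2 * h + 1 ≤ j →
    ∃ W : Finset (ZMod j), W.card = 2 * h + 1 ∧ (0 : ZMod j) ∈ W ∧ 1 ≤ Gam W W (ng W) ∧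
      (2 * h + 1 < j → ∃ i, i ∉ W ∧ ex W W (ng W) i ≤ 0 ∧ ex (ng W) W W (-i) ≤ 0) ∧
      (3 * (2 * h + 1) < 2 * j → ∃ i, i ∈ W ∧ ex W W (ng W) i ≤ 0 ∧ ex (ng W) W W (-i) ≤ 0 ∧
        (i = 0 → h = 0))

/-- Row C1: an interval of cosets with `s` points added or removed. -/
def C1 : Prop :=
  ∀ (K : Type u) [AddCommGroup K] [Fintype K] [DecidableEq K] (k j : ℕ) (p : K →+ ZMod j),
    Function.Surjective p → Fintype.card K = k * j → ∀ t s : ℕ, Odd t → s ≤ k →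
    (t * k + s ≤ j * k → ∃ B : Finset K, B.card = t * k + s ∧
      ((k : ℤ) - s) * ((k : ℤ) - 5 * s) ≤ Gam B B (ng B)) ∧
    (3 * t < 2 * j → ∃ B : Finset K, B.card + s = t * k ∧
      ((k : ℤ) - s) * ((k : ℤ) - 5 * s) ≤ Gam B B (ng B))

/-- Row C2: complement of a sum-free set. -/
def C2 : Prop :=
  ∀ (K : Type u) [AddCommGroup K] [Fintype K] [DecidableEq K] (k j : ℕ) (p : K →+ ZMod j),
    Function.Surjective p → Fintype.card K = k * j → ∀ b : ℕ, b ≤ k * j →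
    k * j ≤ b + (j + 1) / 3 * k → ∃ B : Finset K, B.card = b ∧
      (2 * ((k : ℤ) * j) - 3 * b) ^ 2 ≤ Gam B B (ng B)

/-- Row LB: the lower bound. -/
def LB : Prop :=
  ∀ (G : Type u) [AddCommGroup G] [Fintype G] [DecidableEq G],
    (∃ (g : G) (e : ℕ), addOrderOf g * 2 ^ e = Fintype.card G) →
    ∀ b : ℕ, b ≤ Fintype.card G →
    ∃ B : Finset G, B.card = b ∧ (E (Fintype.card G) b : ℤ) ≤ Gam B B (ng B)

end Pool.Agent.MP_ed46bc_co.SP
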