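import Pool.Agent.MP_ed46bc_co.SP.Spec

/-!
# Row ZG: the zero-gain lemma
-/

namespace Pool.Agent.MP_ed46bc_co.SP

open Finset
open scoped symmDiff

universe u

section Aux

variable {G : Type u} [AddCommGroup G] [Fintype G] [DecidableEq G]
variable {Q : Type u} [AddCommGroup Q] [Fintype Q] [DecidableEq Q]

theorem zg_mem_ng {W : Finset G} {x : G} : x ∈ ng W ↔ -x ∈ W := by simp [ng]

omit [DecidableEq G] [Fintype Q] in
theorem zg_mem_pre {f : G →+ Q} {W : Finset Q} {x : G} : x ∈ pre f W ↔ f x ∈ W := by simp [pre]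

theorem zg_card_ng (W : Finset G) : (ng W).card = W.card := by
  refine Finset.card_bij (fun x _ => -x) ?_ ?_ ?_
  · intro x hx; exact zg_mem_ng.1 hx
  · intro x _ y _ h; exact neg_injective h
  · intro y hy; exact ⟨-y, zg_mem_ng.2 (by simpa using hy), neg_neg y⟩

theorem zg_ng_sd (A B : Finset G) : ng A ∆ ng B = ng (A ∆ B) := by
  ext x; simp only [Finset.mem_symmDiff, zg_mem_ng]

theorem zg_ng_ng (A : Finset G) : ng (ng A) = A := by
  ext x; simp only [zg_mem_ng, neg_neg]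

theorem zg_pre_ng (f : G →+ Q) (V : Finset Q) : pre f (ng V) = ng (pre f V) := by
  ext x; simp only [zg_mem_ng, zg_mem_pre, map_neg]

omit [DecidableEq G] [Fintype Q] in
theorem zg_per_pre (f : G →+ Q) (V : Finset Q) : Per f.ker (pre f V) := by
  intro x hx h hh
  rw [zg_mem_pre] at hx ⊢
  rw [map_add, (AddMonoidHom.mem_ker).1 hh, add_zero]; exact hx

theorem zg_per_ng {H : AddSubgroup G} {P : Finset G} (h : Per H P) : Per H (ng P) := by
  intro x hx y hy
  rw [zg_mem_ng] at hx ⊢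
  have := h _ hx (-y) (H.neg_mem hy)
  rwa [← neg_add] at this

omit [Fintype G] in
theorem zg_per_eq {H : AddSubgroup G} {P P' : Finset G} (h : Per H P) (h' : Per H P')
    (hc : (P ∆ P').card < Nat.card H) : P = P' := by
  by_contra hne
  have hn : (P ∆ P').Nonempty := by
    rw [Finset.nonempty_iff_ne_empty]
    intro he
    exact hne (symmDiff_eq_bot.1 he)
  obtain ⟨x, hx⟩ := hn
  have hm : ∀ y : H, x + (y : G) ∈ P ∆ P' := by
    intro y
    rw [Finset.mem_symmDiff] at hx ⊢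
    rcases hx with ⟨h1, h2⟩ | ⟨h1, h2⟩
    · refine Or.inl ⟨h _ h1 _ y.2, fun h3 => h2 ?_⟩
      simpa using h' _ h3 (-(y : G)) (H.neg_mem y.2)
    · refine Or.inr ⟨h' _ h1 _ y.2, fun h3 => h2 ?_⟩
      simpa using h _ h3 (-(y : G)) (H.neg_mem y.2)
  have hle : Nat.card H ≤ Nat.card (P ∆ P' : Finset G) := by
    refine Nat.card_le_card_of_injective (fun y : H => (⟨x + (y : G), hm y⟩ : (P ∆ P' : Finset G))) ?_
    intro a b hab
    have : x + (a : G) = x + (b : G) := congrArg Subtype.val hab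
    exact Subtype.ext (add_left_cancel this)
  rw [Nat.card_eq_finsetCard] at hle
  omega

omit [DecidableEq G] [Fintype Q] in
theorem zg_pre_inj {f : G →+ Q} (hf : Function.Surjective f) {V V' : Finset Q}
    (h : pre f V = pre f V') : V = V' := by
  ext y
  obtain ⟨x, rfl⟩ := hf y
  rw [← zg_mem_pre, ← zg_mem_pre, h]

omit [AddCommGroup G] [Fintype G] in
theorem zg_tri (A B C : Finset G) : (A ∆ C).card ≤ (A ∆ B).card + (B ∆ C).card :=
  (Finset.card_le_card (symmDiff_triangle A B C)).trans (Finset.card_union_le _ _)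

omit [DecidableEq G] [Fintype Q] in
theorem zg_card_fib {f : G →+ Q} (hf : Function.Surjective f) (i : Q) :
    (univ.filter fun x => f x = i).card = Nat.card f.ker := by
  obtain ⟨a, rfl⟩ := hf i
  rw [← Nat.card_eq_finsetCard]
  refine Nat.card_congr ⟨fun x => ⟨x.1 - a, ?_⟩, fun y => ⟨y.1 + a, ?_⟩, ?_, ?_⟩
  · have := (Finset.mem_filter.1 x.2).2
    rw [AddMonoidHom.mem_ker, map_sub, this, sub_self]
  · have := (AddMonoidHom.mem_ker).1 y.2
    rw [Finset.mem_filter, map_add, this, zero_add]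
    exact ⟨mem_univ _, rfl⟩
  · intro x; simp
  · intro y; simp

omit [Fintype Q] in
theorem zg_card_pre {f : G →+ Q} (hf : Function.Surjective f) (V : Finset Q) :
    (pre f V).card = Nat.card f.ker * V.card := by
  rw [Finset.card_eq_sum_card_fiberwise (f := f) (t := V) (fun x hx => zg_mem_pre.1 hx)]
  rw [Finset.sum_congr rfl (g := fun _ => Nat.card f.ker)]
  · simp [mul_comm]
  · intro i hi
    rw [← zg_card_fib hf i]
    congr 1
    ext x
    simp only [Finset.mem_filter, zg_mem_pre, mem_univ, true_and]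
    exact ⟨fun h => h.2, fun h => ⟨h ▸ hi, h⟩⟩

theorem zg_card_lt {f : G →+ Q} (hf : Function.Surjective f) (hk : f.ker ≠ ⊥) :
    Fintype.card Q < Fintype.card G := by
  have h1 := zg_card_pre hf (univ : Finset Q)
  have h2 : pre f (univ : Finset Q) = univ := by ext x; simp [zg_mem_pre]
  have h3 : 1 < Nat.card f.ker := (AddSubgroup.one_lt_card_iff_ne_bot _).2 hk
  rw [h2, Finset.card_univ, Finset.card_univ] at h1
  have h4 : 0 < Fintype.card Q := Fintype.card_pos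
  nlinarith

theorem zg_L0 (W : Finset G) : L W (ng W) 0 = W.card := by
  unfold L
  rw [Finset.sum_congr rfl (g := fun y => if y ∈ W then (1 : ℤ) else 0)]
  · simp
  · intro y _
    by_cases hy : y ∈ W <;> simp [ind, zg_mem_ng, hy]

theorem zg_zero_mem {W : Finset G} (h : Good W W (ng W)) : (0 : G) ∈ W := by
  by_contra h0
  have h1 := h.1 0
  unfold ex at h1
  rw [zg_L0, zg_card_ng, if_neg h0] at h1
  have : (0 : ℤ) ≤ W.card := Int.natCast_nonneg _
  omega

omit [Fintype G] in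
theorem zg_Fr_nonneg (X P Y P' Z : Finset G) : 0 ≤ Fr X P Y P' Z := Int.natCast_nonneg _

omit [AddCommGroup G] [Fintype G] in
theorem zg_NN_nonneg (X P : Finset G) : 0 ≤ NN X P :=
  mul_nonneg (Int.natCast_nonneg _) (Int.natCast_nonneg _)

omit [Fintype G] in
theorem zg_Fr_zero {X P Y P' Z : Finset G} :
    Fr X P Y P' Z = 0 ↔ ∀ x ∈ X ∆ P, ∀ y ∈ Y ∆ P', ((x ∈ X ↔ y ∈ Y) ↔ -x - y ∈ Z) := by
  unfold Fr
  rw [Int.natCast_eq_zero, Finset.card_eq_zero, Finset.filter_eq_empty_iff]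
  constructor
  · intro h x hx y hy
    exact not_not.1 (h (x := (x, y)) (Finset.mem_product.2 ⟨hx, hy⟩))
  · intro h p hp
    rw [Finset.mem_product] at hp
    exact not_not.2 (h _ hp.1 _ hp.2)

omit [AddCommGroup G] [Fintype G] in
theorem zg_NN_zero {X P : Finset G} : NN X P = 0 ↔ X ⊆ P ∨ P ⊆ X := by
  unfold NN
  rw [mul_eq_zero, Int.natCast_eq_zero, Int.natCast_eq_zero, Finset.card_eq_zero,
    Finset.card_eq_zero, Finset.sdiff_eq_empty_iff_subset, Finset.sdiff_eq_empty_iff_subset]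

/-- The accounting identity with the trivial quotient, for a triple at distance three. -/
theorem zg_four (hA : ACC.{u, u}) {A B C W₁ W₂ W₃ : Finset G} (hg : Gam W₁ W₂ W₃ = 1)
    (hs : sig A B C W₁ W₂ W₃ = 3)
    (e1 : ∀ x ∈ A ∆ W₁, ex W₁ W₂ W₃ x = 0) (e2 : ∀ x ∈ B ∆ W₂, ex W₂ W₁ W₃ x = 0)
    (e3 : ∀ x ∈ C ∆ W₃, ex W₃ W₁ W₂ x = 0)
    (n1 : NN A W₁ = 0) (n2 : NN B W₂ = 0) (n3 : NN C W₃ = 0)
    (f1 : Fr A W₁ B W₂ W₃ = 0) (f2 : Fr A W₁ C W₃ B = 0) (f3 : Fr B W₂ C W₃ W₁ = 0) :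
    Gam A B C = 4 := by
  have h := hA G G (AddMonoidHom.id G) A B C W₁ W₂ W₃ Function.surjective_id
  have hp : ∀ V : Finset G, pre (AddMonoidHom.id G) V = V := by
    intro V; ext x; simp [zg_mem_pre]
  have hk : Nat.card (AddMonoidHom.id G).ker = 1 := by
    rw [AddMonoidHom.ker_id]; exact AddSubgroup.card_bot
  simp only [hp, hk, AddMonoidHom.id_apply] at h
  rw [Finset.sum_eq_zero e1, Finset.sum_eq_zero e2, Finset.sum_eq_zero e3, hg, hs, n1, n2, n3,
    f1, f2, f3] at h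
  rw [h]; norm_num

omit [AddCommGroup G] [Fintype G] in
theorem zg_sd_cancel (W D : Finset G) : (W ∆ D) ∆ W = D := by
  rw [symmDiff_comm W D, symmDiff_assoc, symmDiff_self, symmDiff_bot]

omit [AddCommGroup G] [Fintype G] in
theorem zg_NN_flip {W D : Finset G} (h : ∀ x ∈ D, ∀ y ∈ D, (x ∈ W ↔ y ∈ W)) :
    NN (W ∆ D) W = 0 := by
  rw [zg_NN_zero]
  by_cases hD : ∃ x ∈ D, x ∈ W
  · obtain ⟨x, hx, hxW⟩ := hD
    left
    intro y hy
    rw [Finset.mem_symmDiff] at hy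
    rcases hy with hy | hy
    · exact hy.1
    · exact (h x hx y hy.1).1 hxW
  · right
    intro y hy
    rw [Finset.mem_symmDiff]
    exact Or.inl ⟨hy, fun hyD => hD ⟨y, hyD, hy⟩⟩

theorem zg_NN_ng {X P : Finset G} (h : NN X P = 0) : NN (ng X) (ng P) = 0 := by
  rw [zg_NN_zero] at h ⊢
  rcases h with h | h
  · exact Or.inl fun x hx => zg_mem_ng.2 (h (zg_mem_ng.1 hx))
  · exact Or.inr fun x hx => zg_mem_ng.2 (h (zg_mem_ng.1 hx))

theorem zg_four_a (hA : ACC.{u, u}) {W : Finset G} {i : G} (hg : Gam W W (ng W) = 1)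
    (h0 : (0 : G) ∈ W) (hi : i ≠ 0) (e1 : ex W W (ng W) i = 0) (e3 : ex (ng W) W W (-i) = 0)
    (h2 : i + i ∈ W) : Gam (W ∆ {i}) (W ∆ {i}) (ng (W ∆ {i})) = 4 := by
  have hn : NN (W ∆ {i}) W = 0 := zg_NN_flip (by
    intro x hx y hy
    rw [Finset.mem_singleton.1 hx, Finset.mem_singleton.1 hy])
  have hm : ∀ y ∈ ng (W ∆ {i}) ∆ ng W, y = -i := by
    intro y hy
    rw [zg_ng_sd, zg_sd_cancel, zg_mem_ng, Finset.mem_singleton] at hy
    rw [← hy, neg_neg]
  have hm' : ∀ y ∈ (W ∆ {i}) ∆ W, y = i := by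
    intro y hy
    rwa [zg_sd_cancel, Finset.mem_singleton] at hy
  refine zg_four hA hg ?_ ?_ ?_ ?_ hn hn (zg_NN_ng hn) ?_ ?_ ?_
  · unfold sig
    rw [zg_ng_sd, zg_card_ng, zg_sd_cancel]; simp
  · intro x hx; rw [hm' x hx]; exact e1
  · intro x hx; rw [hm' x hx]; exact e1
  · intro x hx; rw [hm x hx]; exact e3
  · rw [zg_Fr_zero]
    intro x hx y hy
    rw [hm' x hx, hm' y hy, zg_mem_ng]
    have : -(-i - i) = i + i := by abel
    rw [this]
    exact iff_of_true Iff.rfl h2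
  · rw [zg_Fr_zero]
    intro x hx y hy
    rw [hm' x hx, hm y hy, zg_mem_ng, neg_neg, sub_self]
    refine iff_of_true Iff.rfl ?_
    rw [Finset.mem_symmDiff]
    exact Or.inl ⟨h0, fun h => hi (Finset.mem_singleton.1 h).symm⟩
  · rw [zg_Fr_zero]
    intro x hx y hy
    rw [hm' x hx, hm y hy, zg_mem_ng, neg_neg, sub_self]
    exact iff_of_true Iff.rfl h0

theorem zg_four_b (hA : ACC.{u, u}) {W : Finset G} {i j : G} (hg : Gam W W (ng W) = 1)
    (h0 : (0 : G) ∈ W) (hij : i ≠ j) (hW : i ∈ W ↔ j ∈ W) (e1 : ex W W (ng W) i = 0)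
    (e2 : ex W W (ng W) j = 0) (e3 : ex (ng W) W W (-i) = 0)
    (h2 : i - j ∈ W) : Gam W (W ∆ {i, j}) (ng (W ∆ {i})) = 4 := by
  have hn : NN (W ∆ {i}) W = 0 := zg_NN_flip (by
    intro x hx y hy
    rw [Finset.mem_singleton.1 hx, Finset.mem_singleton.1 hy])
  have hn2 : NN (W ∆ {i, j}) W = 0 := zg_NN_flip (by
    intro x hx y hy
    simp only [Finset.mem_insert, Finset.mem_singleton] at hx hy
    rcases hx with rfl | rfl <;> rcases hy with rfl | rfl
    exacts [Iff.rfl, hW, hW.symm, Iff.rfl])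
  have hm : ∀ y ∈ ng (W ∆ {i}) ∆ ng W, y = -i := by
    intro y hy
    rw [zg_ng_sd, zg_sd_cancel, zg_mem_ng, Finset.mem_singleton] at hy
    rw [← hy, neg_neg]
  have hm' : ∀ y ∈ (W ∆ {i, j}) ∆ W, y = i ∨ y = j := by
    intro y hy
    rwa [zg_sd_cancel, Finset.mem_insert, Finset.mem_singleton] at hy
  have he : ∀ x : G, x ∉ W ∆ W := by intro x; simp
  refine zg_four hA hg ?_ ?_ ?_ ?_ (zg_NN_zero.2 (Or.inl Subset.rfl)) hn2 (zg_NN_ng hn) ?_ ?_ ?_
  · unfold sig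
    rw [zg_ng_sd, zg_card_ng, zg_sd_cancel, zg_sd_cancel, Finset.card_pair hij]; simp
  · intro x hx; exact absurd hx (he x)
  · intro x hx
    rcases hm' x hx with rfl | rfl
    exacts [e1, e2]
  · intro x hx; rw [hm x hx]; exact e3
  · rw [zg_Fr_zero]; intro x hx; exact absurd hx (he x)
  · rw [zg_Fr_zero]; intro x hx; exact absurd hx (he x)
  · rw [zg_Fr_zero]
    intro x hx y hy
    rw [hm y hy, zg_mem_ng, neg_neg]
    rcases hm' x hx with rfl | rfl
    · rw [sub_self]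
      refine iff_of_true ?_ h0
      simp [Finset.mem_symmDiff]
    · have : -x - -i = i - x := by abel
      rw [this]
      refine iff_of_true ?_ h2
      simp [Finset.mem_symmDiff, hW]

/-- All gains vanish. -/
theorem zg_step (hA : ACC.{u, u}) {W : Finset G} (hp : ¬ HasSt W W (ng W))
    (hg : Gam W W (ng W) = 1) {f : G →+ Q} {V : Finset Q} (ht : Top f V V (ng V))
    (hd : 3 * (W ∆ pre f V).card ≤ Nat.card f.ker + 1) :
    3 * (W ∆ pre f V).card = Nat.card f.ker + 1 ∧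
      (∀ x ∈ W ∆ pre f V, ex V V (ng V) (f x) = 0 ∧ ex (ng V) V V (-f x) = 0) ∧
      NN W (pre f V) = 0 ∧ Fr W (pre f V) W (pre f V) (ng (pre f V)) = 0 ∧
      Fr W (pre f V) (ng W) (ng (pre f V)) (pre f V) = 0 := by
  obtain ⟨hf, hk, ho, -, hgV, hG⟩ := ht
  have h := hA G Q f W W (ng W) V V (ng V) hf
  have hs : sig W W (ng W) (pre f V) (pre f V) (pre f (ng V)) = 3 * ((W ∆ pre f V).card : ℤ) := by
    unfold sig
    rw [zg_pre_ng, zg_ng_sd, zg_card_ng]; ring
  have hge : Nat.card f.ker ≤ 3 * (W ∆ pre f V).card := by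
    by_contra hlt
    refine hp ⟨f.ker, pre f V, pre f V, pre f (ng V), hk,
      ⟨zg_per_pre f V, zg_per_pre f V, zg_per_pre f _, _, ho, ?_⟩, ?_⟩
    · rw [zg_card_pre hf, zg_card_pre hf]; ring
    · unfold Psi
      rw [hs]; omega
  have x1 : ∀ x ∈ W ∆ pre f V, 0 ≤ ex V V (ng V) (f x) := by
    intro x _; rcases hG.1 (f x) with h1 | h1 <;> omega
  have x3 : ∀ x ∈ ng W ∆ pre f (ng V), 0 ≤ ex (ng V) V V (f x) := by
    intro x _; rcases hG.2.2 (f x) with h1 | h1 <;> omega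
  have s1 := Finset.sum_nonneg x1
  have s3 := Finset.sum_nonneg x3
  have n1 := zg_NN_nonneg W (pre f V)
  have n3 := zg_NN_nonneg (ng W) (pre f (ng V))
  have f1 := zg_Fr_nonneg W (pre f V) W (pre f V) (pre f (ng V))
  have f2 := zg_Fr_nonneg W (pre f V) (ng W) (pre f (ng V)) W
  have f3 := zg_Fr_nonneg W (pre f V) (ng W) (pre f (ng V)) (pre f V)
  have hk1 : (1 : ℤ) < Nat.card f.ker := by
    exact_mod_cast (AddSubgroup.one_lt_card_iff_ne_bot _).2 hk
  rw [hg, hgV, hs] at h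
  have m1 := mul_nonneg (by omega : (0 : ℤ) ≤ Nat.card f.ker) s1
  have m3 := mul_nonneg (by omega : (0 : ℤ) ≤ Nat.card f.ker) s3
  have hd' : 3 * (W ∆ pre f V).card = Nat.card f.ker + 1 := by
    by_contra hne
    have he : (3 * ((W ∆ pre f V).card : ℤ)) = Nat.card f.ker := by omega
    rw [he] at h
    nlinarith
  have he : (3 * ((W ∆ pre f V).card : ℤ)) = Nat.card f.ker + 1 := by omega
  rw [he] at h
  have z1 : (Nat.card f.ker : ℤ) * ∑ x ∈ W ∆ pre f V, ex V V (ng V) (f x) = 0 := by nlinarith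
  have z3 : (Nat.card f.ker : ℤ) * ∑ x ∈ ng W ∆ pre f (ng V), ex (ng V) V V (f x) = 0 := by
    nlinarith
  have y1 : ∑ x ∈ W ∆ pre f V, ex V V (ng V) (f x) = 0 :=
    (mul_eq_zero.1 z1).resolve_left (by omega)
  have y3 : ∑ x ∈ ng W ∆ pre f (ng V), ex (ng V) V V (f x) = 0 :=
    (mul_eq_zero.1 z3).resolve_left (by omega)
  have w1 := (Finset.sum_eq_zero_iff_of_nonneg x1).1 y1
  have w3 := (Finset.sum_eq_zero_iff_of_nonneg x3).1 y3
  rw [y1, y3] at h
  refine ⟨hd', fun x hx => ⟨w1 x hx, ?_⟩, by nlinarith, ?_, ?_⟩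
  · have := w3 (-x) (by rw [zg_pre_ng, zg_ng_sd, zg_mem_ng, neg_neg]; exact hx)
    rwa [map_neg] at this
  · rw [← zg_pre_ng]; nlinarith
  · rw [← zg_pre_ng]; nlinarith

/-- The base produced by the upgrade lemma is symmetric and close to `W`. -/
theorem zg_base (hU : UP.{u}) (hS : SS.{u}) {W Y₁ Y₂ : Finset G} {i : G}
    (hp : ¬ HasSt W W (ng W)) (h4 : Gam Y₁ Y₂ (ng (W ∆ {i})) = 4)
    (a1 : (Y₁ ∆ (W ∆ {i})).card ≤ 1) (a2 : (Y₂ ∆ (W ∆ {i})).card ≤ 1)
    (a3 : (W ∆ Y₁).card + (W ∆ Y₂).card ≤ 2) :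
    ∃ (Q : Type u) (_ : AddCommGroup Q) (_ : Fintype Q) (_ : DecidableEq Q) (f : G →+ Q)
      (V : Finset Q), Top f V V (ng V) ∧ 3 * (W ∆ pre f V).card ≤ Nat.card f.ker + 1 ∧
        (Nat.card f.ker ≤ 3 * (W ∆ pre f V).card → i ∈ W ∆ pre f V) := by
  have hst : HasSt Y₁ Y₂ (ng (W ∆ {i})) := by
    obtain ⟨H, P₁, P₂, P₃, h1, h2, h3⟩ := hS G Y₁ Y₂ (ng (W ∆ {i})) (by omega)
    refine ⟨H, P₁, P₂, P₃, ?_, h1, h2⟩
    rintro rfl
    rw [h4] at h3
    unfold Psi sig at h2 h3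
    rw [AddSubgroup.card_bot] at h2 h3
    have : (((1 : ℕ) : ℤ) - (((Y₁ ∆ P₁).card : ℤ) + ((Y₂ ∆ P₂).card : ℤ)
      + ((ng (W ∆ {i}) ∆ P₃).card : ℤ))) = 1 := by omega
    rw [this] at h3
    omega
  obtain ⟨Q, i1, i2, i3, f, W₁, W₂, W₃, ht, h1, h2⟩ :=
    hU G (fun Q _ _ _ _ X Y Z => hS Q X Y Z) Y₁ Y₂ (ng (W ∆ {i})) (by omega) hst
  have h3 : 2 ≤ Psi Y₁ Y₂ (ng (W ∆ {i})) f.ker (pre f W₁) (pre f W₂) (pre f W₃) := by
    by_contra hlt
    have : Psi Y₁ Y₂ (ng (W ∆ {i})) f.ker (pre f W₁) (pre f W₂) (pre f W₃) = 1 := by omega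
    rw [this, h4] at h2
    omega
  unfold Psi sig at h3
  have hc : (ng (W ∆ {i}) ∆ pre f W₃).card = ((W ∆ {i}) ∆ pre f (ng W₃)).card := by
    rw [← zg_card_ng, ← zg_ng_sd, zg_ng_ng, zg_pre_ng]
  rw [hc] at h3
  have e1 : W₁ = ng W₃ := by
    refine zg_pre_inj ht.1 (zg_per_eq (zg_per_pre f _) (zg_per_pre f _) ?_)
    have t1 := zg_tri (pre f W₁) Y₁ (pre f (ng W₃))
    have t2 := zg_tri Y₁ (W ∆ {i}) (pre f (ng W₃))
    rw [symmDiff_comm (pre f W₁) Y₁] at t1
    omega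
  have e2 : W₂ = ng W₃ := by
    refine zg_pre_inj ht.1 (zg_per_eq (zg_per_pre f _) (zg_per_pre f _) ?_)
    have t1 := zg_tri (pre f W₂) Y₂ (pre f (ng W₃))
    have t2 := zg_tri Y₂ (W ∆ {i}) (pre f (ng W₃))
    rw [symmDiff_comm (pre f W₂) Y₂] at t1
    omega
  have e3 : W₃ = ng W₁ := by rw [e1, zg_ng_ng]
  rw [← e1] at e2 h3
  subst e2
  subst e3
  have t1 := zg_tri W Y₁ (pre f W₂)
  have t2 := zg_tri W Y₂ (pre f W₂)
  have t3 := zg_tri W (W ∆ {i}) (pre f W₂)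
  rw [symmDiff_comm W (W ∆ {i}), zg_sd_cancel, Finset.card_singleton] at t3
  refine ⟨Q, i1, i2, i3, f, W₂, ht, by omega, fun hge => ?_⟩
  by_contra hi
  have hsub : W ∆ pre f W₂ ⊆ (W ∆ {i}) ∆ pre f W₂ := by
    intro x hx
    have hxi : x ≠ i := fun h => hi (h ▸ hx)
    simp only [Finset.mem_symmDiff, Finset.mem_singleton] at hx ⊢
    tauto
  have hmem : i ∈ (W ∆ {i}) ∆ pre f W₂ := by
    simp only [Finset.mem_symmDiff, Finset.mem_singleton] at hi ⊢
    tauto
  have := Finset.card_lt_card ((Finset.ssubset_iff_of_subset hsub).2 ⟨i, hmem, hi⟩)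
  omega

end Aux

theorem zg_aux (h : ACC.{u, u}) (hU : UP.{u}) (hS : SS.{u}) (n : ℕ) :
    ∀ (Q : Type u) [AddCommGroup Q] [Fintype Q] [DecidableEq Q], Fintype.card Q = n →
    ∀ (W : Finset Q),
    ¬ HasSt W W (ng W) → Gam W W (ng W) = 1 → Good W W (ng W) → ∀ i j : Q, (i ∈ W ↔ j ∈ W) →
    ex W W (ng W) i = 0 → ex W W (ng W) j = 0 → ex (ng W) W W (-i) = 0 →
    ((i = j ∧ i + i ∈ W) ∨ (i ≠ j ∧ i - j ∈ W)) →
    (i ∈ W ∧ W = {0}) ∨
      (i ∉ W ∧ ∃ K : AddSubgroup Q, (∀ w ∈ W, w ∈ K) ∧ i ∈ K ∧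
        3 * W.card + 1 = 2 * Nat.card K) := by
  induction n using Nat.strong_induction_on with
  | _ n ih =>
  intro G _ _ _ hn W hp hg hG i j hij e1 e2 e3 hc
  have h0 := zg_zero_mem hG
  by_cases hz : i = j ∧ i = 0
  · obtain ⟨-, rfl⟩ := hz
    refine Or.inl ⟨h0, ?_⟩
    unfold ex at e1
    rw [zg_L0, zg_card_ng, if_pos h0] at e1
    obtain ⟨a, ha⟩ := Finset.card_eq_one.1 (by omega : W.card = 1)
    rw [ha] at h0 ⊢
    rw [Finset.mem_singleton.1 h0]
  have hb : ∃ (Q : Type u) (_ : AddCommGroup Q) (_ : Fintype Q) (_ : DecidableEq Q) (f : G →+ Q)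
      (V : Finset Q), Top f V V (ng V) ∧ 3 * (W ∆ pre f V).card ≤ Nat.card f.ker + 1 ∧
        (Nat.card f.ker ≤ 3 * (W ∆ pre f V).card → i ∈ W ∆ pre f V) := by
    have hw : (W ∆ (W ∆ {i})).card = 1 := by
      rw [symmDiff_comm, zg_sd_cancel, Finset.card_singleton]
    rcases hc with ⟨hc1, hc2⟩ | ⟨hc1, hc2⟩
    · refine zg_base hU hS hp (zg_four_a h hg h0 (fun h1 => hz ⟨hc1, h1⟩) e1 e3 hc2) ?_ ?_ ?_
      · simp
      · simp
      · omega
    · refine zg_base hU hS hp (zg_four_b h hg h0 hc1 hij e1 e2 e3 hc2) hw.le ?_ ?_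
      · have : (W ∆ {i, j}) ∆ (W ∆ {i}) ⊆ {j} := by
          intro x hx
          simp only [Finset.mem_symmDiff, Finset.mem_insert, Finset.mem_singleton] at hx ⊢
          tauto
        simpa using Finset.card_le_card this
      · rw [symmDiff_comm W (W ∆ {i, j}), zg_sd_cancel, Finset.card_pair hc1]; simp
  obtain ⟨Q, _, _, _, f, V, ht, hd, hi⟩ := hb
  obtain ⟨hd', hex, hNN, hF1, hF3⟩ := zg_step h hp hg ht hd
  have hi' := hi (by omega)
  obtain ⟨hf, hk, -, hpV, hgV, hGV⟩ := ht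
  have h2i : f i + f i ∈ V := by
    have := (zg_Fr_zero.1 hF1 i hi' i hi').1 Iff.rfl
    rw [zg_mem_ng, zg_mem_pre] at this
    have e : f (-(-i - i)) = f i + f i := by
      rw [← map_add]; congr 1; abel
    rwa [e] at this
  have hcP := zg_card_pre hf V
  rcases ih _ (hn ▸ zg_card_lt hf hk) Q rfl V hpV hgV hGV (f i) (f i) Iff.rfl (hex i hi').1
    (hex i hi').1 (hex i hi').2 (Or.inl ⟨rfl, h2i⟩) with ⟨hv, hV⟩ | ⟨hv, K, hK1, hK2, hK3⟩
  · have hiP : i ∈ pre f V := zg_mem_pre.2 hv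
    have hiW : i ∉ W := by
      rcases Finset.mem_symmDiff.1 hi' with h1 | h1
      exacts [absurd hiP h1.2, h1.2]
    have hsub : W ⊆ pre f V := (zg_NN_zero.1 hNN).resolve_right fun h1 => hiW (h1 hiP)
    have hker : ∀ x ∈ pre f V, x ∈ f.ker := by
      intro x hx
      rw [zg_mem_pre, hV, Finset.mem_singleton] at hx
      exact (AddMonoidHom.mem_ker).2 hx
    refine Or.inr ⟨hiW, f.ker, fun w hw => hker w (hsub hw), hker i hiP, ?_⟩
    rw [symmDiff_of_le hsub, Finset.card_sdiff_of_subset hsub] at hd'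
    have := Finset.card_le_card hsub
    rw [hV, Finset.card_singleton, mul_one] at hcP
    rw [hV] at hd' this
    omega
  · exfalso
    have hiP : i ∉ pre f V := fun h1 => hv (zg_mem_pre.1 h1)
    have hiW : i ∈ W := by
      rcases Finset.mem_symmDiff.1 hi' with h1 | h1
      exacts [h1.1, absurd h1.1 hiP]
    have hsub : pre f V ⊆ W := (zg_NN_zero.1 hNN).resolve_left fun h1 => hiP (h1 hiW)
    have hWK : ∀ x ∈ W, f x ∈ K := by
      intro x hx
      by_cases hxP : x ∈ pre f V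
      · exact hK1 _ (zg_mem_pre.1 hxP)
      · have hy : -i ∈ ng W ∆ ng (pre f V) := by
          rw [zg_ng_sd, zg_mem_ng, neg_neg]; exact hi'
        have h1 := (zg_Fr_zero.1 hF3 x (Finset.mem_symmDiff.2 (Or.inl ⟨hx, hxP⟩)) (-i) hy).1
          (iff_of_true hx (by rw [zg_mem_ng, neg_neg]; exact hiW))
        have h2 := hK1 _ (zg_mem_pre.1 h1)
        have e : f x = f i - f (-x - -i) := by
          rw [← map_sub]; congr 1; abel
        rw [e]
        exact K.sub_mem hK2 h2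
    classical
    have hKc : (univ.filter fun y : Q => y ∈ K).card = Nat.card K := by
      rw [← Nat.card_eq_finsetCard]
      exact Nat.card_congr (Equiv.subtypeEquivRight (by simp))
    have hmem : ∀ x : G, x ∈ pre f (univ.filter fun y : Q => y ∈ K) ↔ f x ∈ K := by
      intro x; simp [zg_mem_pre]
    have hcK := zg_card_pre hf (univ.filter fun y : Q => y ∈ K)
    have hKc' : (pre f (univ.filter fun y : Q => y ∈ K)).card = Nat.card (K.comap f) := by
      rw [← Nat.card_eq_finsetCard]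
      exact Nat.card_congr (Equiv.subtypeEquivRight (fun x => by
        rw [hmem, AddSubgroup.mem_comap]))
    rw [hKc] at hcK
    generalize pre f (univ.filter fun y : Q => y ∈ K) = P at hmem hcK hKc'
    have hper : Per (K.comap f) P := by
      intro x hx y hy
      rw [hmem] at hx ⊢
      rw [map_add]
      exact K.add_mem hx hy
    have s1 : W ⊆ P := fun x hx => (hmem x).2 (hWK x hx)
    have s3 : ng W ⊆ P := by
      intro x hx
      have := hWK _ (zg_mem_ng.1 hx)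
      rw [map_neg] at this
      exact (hmem x).2 (by simpa using K.neg_mem this)
    refine hp ⟨K.comap f, P, P, P, ?_, ⟨hper, hper, hper, 3, by decide, by omega⟩, ?_⟩
    · intro hb
      apply hk
      rw [eq_bot_iff, ← hb]
      intro x hx
      rw [AddSubgroup.mem_comap, (AddMonoidHom.mem_ker).1 hx]
      exact K.zero_mem
    · unfold Psi sig
      rw [symmDiff_of_le s1, symmDiff_of_le s3, Finset.card_sdiff_of_subset s1,
        Finset.card_sdiff_of_subset s3, zg_card_ng, ← hKc']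
      rw [symmDiff_of_ge hsub, Finset.card_sdiff_of_subset hsub] at hd'
      have c1 := Finset.card_le_card hsub
      have c2 := Finset.card_le_card s1
      have c3 : 3 * (Nat.card f.ker * V.card) + Nat.card f.ker = 2 * (Nat.card f.ker * Nat.card K) := by
        calc _ = Nat.card f.ker * (3 * V.card + 1) := by ring
          _ = _ := by rw [hK3]; ring
      omega

theorem zg (h : ACC.{u, u}) (hU : UP.{u}) (hS : SS.{u}) : ZG.{u} := by
  intro Q _ _ _ W
  exact zg_aux h hU hS _ Q rfl W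

end Pool.Agent.MP_ed46bc_co.SP
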